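import Pool.Agent.MP_55bf9a_co.Pi2.Ladder
import Pool.Agent.MP_55bf9a_co.Defs2
import Pool.Agent.Lib.Cx.Graph

attribute [-instance] instNoNatZeroDivisorsOfIsAddTorsionFree FiniteField.instGrindPowIdentity
  IsOrderedAddMonoid.toIsOrderedCancelAddMonoid CompletePartialOrder.toPartialOrder CharP.ofCharZero
  AddCommGroup.toGrindIntModule IsOrderedRing.toIsStrictOrderedRing Field.toGrindField
  SemilatticeInf.toPartialOrder AddGroup.addLeftReflectLE_of_addLeftMono
  NonUnitalNonAssocSemiring.toAddCommMonoid ESeminormedAddCommMonoid.toAddCommMonoid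
  Prod.instPreorder Std.LinearPreorderPackage.toIsLinearPreorder NormedCommRing.toCommRing
  Std.instLawfulBEqOfLawfulOrderBEqOfIsPartialOrder Ring.toGrindRing Finset.decidableDforallFinset
  Multiset.decidableDforallMultiset Vector.instDecidableForallForallMemOfDecidablePred
  OmegaCompletePartialOrder.toPartialOrder Group.IsPerfect.subsingleton_of_isMulCommutative
  AddQuantale.instAddLeftMono Option.decidableForallMem DivisionSemiring.toSemiring
  Array.instDecidableForallForallMemOfDecidablePred SeminormedCommRing.toCommRing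
  ChainCompletePartialOrder.toPartialOrder EuclideanDomain.toCommRing Std.PreorderPackage.toBEq
  Field.toCommRing Std.instLawfulBEqOrdOfLawfulOrderOrdOfLawfulOrderBEq Std.LawfulBEqOrd.lawfulBEq
  Std.LinearOrderPackage.toIsLinearOrder instOrderedRingOfIsStrictOrderedRing
  NonUnitalNonAssocRing.toAddCommGroup Int.instLawfulBEq Ring.toSemiring AddCommGroup.toAddCommMonoid
  IsCancelMul.toIsLeftCancelMul Prod.instLE_mathlib NeZero.of_gt'
  instIsLeftCancelMulOfMulLeftReflectLE FunLike.toDecidableEq AddCommGroup.toDivisionAddCommMonoid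
  CategoryTheory.Limits.Concrete.instUniqueToTypeTerminal Int.decidableLTLE
  AddCommMonoidWithOne.toAddCommMonoid instOrderedAddOfIsOrderedCancelAddMonoid
  IdemSemiring.toSemiring Int.decidableLELE Int.decidableLTLT
  ConditionallyCompleteLinearOrder.toLinearOrder Int.decidableLELT Invertible.toNeZero

/-!
The subgraph chosen by an assignment of the universal variables.
-/

namespace Pool.Agent.MP_55bf9a_co.P2

open Finset Tg

variable {n m : ℕ} {K : ℕ → ℕ → Bool → Bool → Prop} {Z S T U D X : Finset Vx} {σ : Vx → Vx}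
  {s : Vx → Bool} {y : ℕ → Bool}

/-- The copy of the second chain to which a kind belongs. -/
def cp : Tg → List Bool
  | y3 b | x3 b | x4 b | y4 b => [b] | _ => []

/-- Ladder kinds present in a cell. -/
def ok (z b : Bool) (t : Tg) : Prop := t ≠ w ∧ t ≠ v ∧ (z = true → lo t = 0) ∧ ∀ b' ∈ cp t, b' = b

instance (z b : Bool) (t : Tg) : Decidable (ok z b t) := by unfold ok; infer_instance

/-- `T` is the ladder with one copy of every second chain. -/
def IsT (n : ℕ) (y : ℕ → Bool) (T : Finset Vx) : Prop :=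
  y 0 = false ∧ ∀ u : Vx, u ∈ T ↔ u.1 ≤ n ∧ ok (u.1 == 0) (y u.1) u.2

/-- The standard matching. -/
def nuV (u : Vx) : Vx := (u.1, nu (u.1 == 0) true false u.2)

/-- The standard sides. -/
def sdV (u : Vx) : Bool := sd true false u.2

lemma lo_le : ∀ t, lo t ≤ 1 := by decide +kernel

lemma tab_ok : ∀ (z b : Bool) (t : Tg), ok z b t → ok z b (nu z true false t) := by decide +kernel

lemma IsT.val (h : IsT n y T) {u : Vx} (hu : u ∈ T) : val n m u ∧ u.2 ≠ w ∧ u.2 ≠ v := by
  obtain ⟨b1, b2, b3, b4, -⟩ := (h.2 u).1 hu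
  have := lo_le u.2
  refine ⟨⟨?_, by simpa [b2, b3] using b1⟩, b2, b3⟩
  by_cases e : u.1 = 0
  · simp [b4 (by simpa using e)]
  · omega

lemma IsT.m0 (h : IsT n y T) : M0 (gr n K) T nuV sdV := by
  have hm : ∀ u ∈ T, nuV u ∈ T := fun u hu =>
    (h.2 _).2 ⟨((h.2 u).1 hu).1, tab_ok _ _ _ ((h.2 u).1 hu).2⟩
  have tb := fun u hu => tab_nu (u.1 == 0) true false u.2 (h.val (m := 0) (u := u) hu).2.1
    (h.val (m := 0) hu).2.2 ((h.2 u).1 hu).2.2.2.1
  have := build (n := n) (m := 0) (K := K) (Z := T) (σ0 := nuV) (s0 := sdV) (fun _ => true)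
    (fun _ => false) (fun u hu => h.val hu) (fun u hu _ => hm u hu)
    ⟨fun u hu => ?_, fun u hu => ?_, fun u hu => ?_, fun u hu => ?_, fun u hu z hz l => ?_⟩
    (fun _ _ => rfl) fun _ _ => rfl
  · simpa only [← nuV.eq_1, ← sdV.eq_1, ite_self] using this
  · obtain ⟨b1, b2⟩ := mem_filter.1 hu
    exact mem_filter.2 ⟨hm u b1, (tb u b1).2.1.trans b2⟩
  · exact Prod.ext rfl (tb u (mem_filter.1 hu).1).1
  · exact (tb u (mem_filter.1 hu).1).2.2.1
  · obtain ⟨b1, b2⟩ := mem_filter.1 hu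
    obtain ⟨i, t⟩ := u
    cases t <;> simp [gd] at b2 <;> exact adj0 i (by simp [nu, n0])
  · obtain ⟨b1, b2⟩ := mem_filter.1 hu
    obtain ⟨b3, b4⟩ := mem_filter.1 hz
    have := adj_cases (h.val (m := 0) b3).1 (h.val (m := 0) b1).2.1 l
    have n1 := (h.val (m := 0) b3).2.1
    obtain ⟨i, t⟩ := u
    cases t <;> simp [gd] at b2 <;> simp only [nl, ne_eq, decide_not, n0, wu, List.map_nil, up, ite_self, List.append_nil, wd, z0, dn, List.mem_map, List.mem_filter, List.mem_cons, List.not_mem_nil, or_false, Bool.ite_eq_true_distrib, decide_eq_true_eq, Bool.not_eq_eq_eq_not, Bool.not_true, decide_eq_false_iff_not, n1, false_and] at this <;>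
      grind [nuV, sdV, nu, sd, gd]

/-- Implications inside a gadget. -/
def trG (b : Bool) : List (Tg × Tg × Tg) :=
  [(f, q1, q2), (q2, q3, q4), (q4, q5, q6), (q6, g, a2), (g, q6, q5), (q5, q4, q3), (q3, q2, q1),
    (q1, f, c), (e1, c, f), (e2, e3, e4), (e4, e5, a), (e3, e2, e1), (e5, e4, e3), (a, f, c),
    (h1, h2, h3), (h3, h4, h5), (h5, a2, g), (h2, h1, c2), (h4, h3, h2), (c2, g, a2), (x1, a2, g),
    (y3 b, c, f)]

/-- Implications along the chains. -/
def trC (b : Bool) : List (Tg × Tg × Tg) :=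
  [(a2, x1, y1), (y1, y2, x2), (y2, y1, x1), (c, y3 b, x3 b), (x3 b, x4 b, y4 b), (x4 b, x3 b, y3 b)]

/-- A valid implication. -/
def stp (z b : Bool) (r : Tg × Tg × Tg) : Prop := ok z b r.1 ∧ ok z b r.2.1 ∧ r.2.1 ∈ n0 r.1 ∧
  r.2.1 ≠ nu z true false r.1 ∧ nu z true false r.2.1 = r.2.2

instance (z b : Bool) (r : Tg × Tg × Tg) : Decidable (stp z b r) := by unfold stp; infer_instance

lemma tab_tr : (∀ b, ∀ r ∈ trG b ++ trC b, stp false b r) ∧
    ∀ r ∈ (x1, a2, c) :: (y3 false, c, a2) :: trC false, stp true false r := by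
  have h1 : ∀ b, ((trG b ++ trC b).all fun r => decide (stp false b r)) = true := by decide +kernel
  have h2 : (((x1, a2, c) :: (y3 false, c, a2) :: trC false).all
    fun r => decide (stp true false r)) = true := by decide +kernel
  exact ⟨fun b r hr => of_decide_eq_true (List.all_eq_true.1 (h1 b) r hr),
    fun r hr => of_decide_eq_true (List.all_eq_true.1 h2 r hr)⟩

lemma IsT.step (h : IsT n y T) {A : Vx → Prop} {i : ℕ} (hi : i ≤ n)
    (hA : ∀ p ∈ T, ∀ q ∈ T, q.1 = i → A p → (gr n K).Adj p q → q ≠ nuV p → A (nuV q))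
    {r : Tg × Tg × Tg} (hr : stp (i == 0) (y i) r) (e : A (i, r.1)) : A (i, r.2.2) := by
  obtain ⟨b1, b2, b3, b4, b5⟩ := hr
  rw [← b5]
  exact hA (i, r.1) ((h.2 _).2 ⟨hi, b1⟩) (i, r.2.1) ((h.2 _).2 ⟨hi, b2⟩) rfl e (adj0 i b3)
    fun l => b4 (congrArg Prod.snd l)

lemma IsT.mem (h : IsT n y T) {i : ℕ} (hi : i ≤ n) :
    (i, a2) ∈ T ∧ (i, c) ∈ T ∧ (i, x1) ∈ T ∧ (i, x2) ∈ T ∧ (i, y3 (y i)) ∈ T ∧ (i, x3 (y i)) ∈ T ∧
      (i, x4 (y i)) ∈ T ∧ (i, y4 (y i)) ∈ T := by
  have := h.1
  rcases i with _ | i <;> simp only [h.2, hi, ok, ne_eq, reduceCtorEq, not_false_eq_true, BEq.rfl, lo, imp_self, cp, List.not_mem_nil, this, IsEmpty.forall_iff, implies_true, and_self, List.mem_cons, or_false, Nat.reduceBeqDiff, Bool.false_eq_true]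

lemma IsT.memG (h : IsT n y T) {i : ℕ} (hi : i < n) (t : Tg) (ht : ch t = false ∧ t ≠ w ∧ t ≠ v) :
    (i + 1, t) ∈ T := by
  refine (h.2 _).2 ⟨hi, ht.2.1, ht.2.2, by simp, ?_⟩
  cases t <;> simp_all [cp, ch]

lemma IsT.cross (h : IsT n y T) {A : Vx → Prop} {i : ℕ} (hi : i < n)
    (hA : ∀ p ∈ T, ∀ q ∈ T, q.1 = i + 1 → A p → (gr n K).Adj p q → q ≠ nuV p → A (nuV q)) :
    (A (i, x2) → A (i + 1, e5)) ∧ (A (i, y4 (y i)) → A (i + 1, h1)) := by
  have a1 := adjR1 (n := n) (K := K) i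
  have a2 := adjR2 (n := n) (K := K) i (y i)
  simp only [R1, R2, hi.ne, if_false] at a1 a2
  have := h.mem hi.le
  exact ⟨fun e => hA _ this.2.2.2.1 _ (h.memG hi a (by decide)) rfl e a1 (by simp [nuV]),
    fun e => hA _ this.2.2.2.2.2.2.2 _ (h.memG hi c2 (by decide)) rfl e a2 (by simp [nuV])⟩

/-- The standard matching is a core. -/
lemma IsT.cr (h : IsT n y T) : Cr (gr n K) T nuV sdV := by
  refine ⟨h.m0, fun A a1 a2' => ?_⟩
  have hA : ∀ i, ∀ p ∈ T, ∀ q ∈ T, q.1 = i → A p → (gr n K).Adj p q → q ≠ nuV p → A (nuV q) :=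
    fun i p hp q hq _ => a2' p hp q hq
  have G : ∀ i < n, ∀ r ∈ trG (y (i + 1)) ++ trC (y (i + 1)), A (i + 1, r.1) → A (i + 1, r.2.2) :=
    fun i hi r hr => h.step hi (hA _) (tab_tr.1 _ r hr)
  have G0 : ∀ r ∈ (x1, a2, c) :: (y3 false, c, a2) :: trC false, A (0, r.1) → A (0, r.2.2) :=
    fun r hr => h.step n.zero_le (hA _) (h.1 ▸ tab_tr.2 r hr)
  simp only [trG, trC, List.forall_mem_append, List.forall_mem_cons, List.not_mem_nil,
    false_imp_iff, implies_true, and_true] at G G0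
  have C : ∀ i ≤ n, (A (i, a2) → A (i, x2)) ∧ (A (i, c) → A (i, y4 (y i))) := by
    rintro (_ | i) hi
    · rw [h.1]
      clear G hA a1 a2'
      grind
    · have := G i hi
      clear G hA a1 a2'
      grind
  have N : ∀ i < n, (A (i, x2) → A (i + 1, a2)) ∧ (A (i, y4 (y i)) → A (i + 1, c)) := fun i hi => by
    have := G i hi
    have := h.cross hi (hA _)
    clear G C hA a1 a2'
    grind
  have I : ∀ i ≤ n, (A (i, x2) → A (n, x2)) ∧ (A (i, y4 (y i)) → A (n, y4 (y n))) := by
    intro i hi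
    induction hi using Nat.decreasingInduction with
    | self => exact ⟨id, id⟩
    | of_succ i hi ih =>
      exact ⟨fun e => ih.1 ((C (i + 1) hi).1 ((N i hi).1 e)),
        fun e => ih.2 ((C (i + 1) hi).2 ((N i hi).2 e))⟩
  have m0 := h.mem n.zero_le
  have mn := h.mem le_rfl
  have W1 : A (n, x2) → A (0, c) := fun e =>
    a2' _ mn.2.2.2.1 (0, a2) m0.1 e (by simpa [R1] using adjR1 (n := n) (K := K) n)
      (by simp [nuV, nu])
  have W2 : A (n, y4 (y n)) → A (0, a2) := fun e =>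
    a2' _ mn.2.2.2.2.2.2.2 (0, c) m0.2.1 e (by simpa [R2] using adjR2 (n := n) (K := K) n (y n))
      (by simp [nuV, nu])
  have F := fun e e' => a1 _ m0.1 _ m0.2.1 e e' adjT
  have := C 0 n.zero_le
  have := I 0 n.zero_le
  have E : ∀ i ≤ n, ¬A (i, x2) ∧ ¬A (i, y4 (y i)) ∧ ¬A (i, a2) ∧ ¬A (i, c) := fun i hi => by
    have := C i hi
    have := I i hi
    clear G C N I hA a1 a2'
    grind
  rintro ⟨i, t⟩ hu e
  obtain ⟨hi, b1, b2, b3, b4⟩ := (h.2 _).1 hu
  have := E i hi
  rcases i with _ | i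
  · rw [h.1] at this b4
    clear G C N I E hA a1 a2'
    cases t <;> simp [lo, cp] at b1 b2 b3 b4 <;> grind
  · have := G i hi
    clear G C N I E hA a1 a2' G0
    cases t <;> simp [cp] at b1 b2 b4 <;> grind

end Pool.Agent.MP_55bf9a_co.P2

/-!
Large irredundant sets of the chosen subgraph; false formulas give imperfect graphs.
-/

namespace Pool.Agent.MP_55bf9a_co.P2

open Finset Tg

variable {n m : ℕ} {K : ℕ → ℕ → Bool → Bool → Prop} {Z S T U D X : Finset Vx} {σ : Vx → Vx}
  {s : Vx → Bool} {y : ℕ → Bool}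

lemma IsT.inT (h : IsT n y T) (hZ : Z ⊆ T) (hD : D ⊆ T) (hF : Far (gr n K) D Z)
    (hc : T.card ≤ Z.card + 2 * D.card) : D = ∅ ∧ Z = T := by
  have key := ((h.m0 (K := K)).weight hZ hF ∅ (by simp)).2 (by simpa only [inter_eq_left.2 hD, card_empty, mul_zero, add_zero] using hc)
  have e : D = ∅ := eq_empty_of_forall_notMem fun d hd =>
    (h.cr (K := K)).core (· ∈ D) (fun p _ q _ hp hq => hF.1 p hp q hq)
      (fun p _ q hq hp l _ => by
        rcases key q hq (by simp) (by simp) with c | c | c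
        exacts [(hF.2 p hp q c.1 (Or.inr l)).elim, (hF.1 p hp q c l).elim, c]) d (hD hd) hd
  refine ⟨e, Subset.antisymm hZ fun u hu => ?_⟩
  simpa [e] using (key u hu (by simp) (by simp)).imp_left And.left

lemma IsT.ind (h : IsT n y T) (hn : n ≠ 0) (hi : ∀ p ∈ D, ∀ q ∈ D, ¬(gr n K).Adj p q)
    (hD : ∀ u ∈ D, u ∈ T ∨ u.2 = w ∨ u = (0, v)) (hc : T.card ≤ 2 * D.card) : D ⊆ T := by
  by_contra hn'
  have hF : Far (gr n K) D ∅ := ⟨hi, by simp⟩
  have W := (h.m0 (K := K)).weight (empty_subset T) hF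
  have c1 := card_inter_add_card_sdiff D T
  have m0 := h.mem n.zero_le
  have m1 := h.mem (i := 1) (by omega)
  rw [h.1] at m0
  by_cases hw : ∃ j, (j, w) ∈ D
  · obtain ⟨j, hj⟩ := hw
    have c2 : (D \ T).card ≤ 2 := (card_le_card (t := {(j, w), (0, v)}) fun u hu => by
      obtain ⟨b1, b2⟩ := mem_sdiff.1 hu
      rcases hD u b1 with c | c | c
      · exact (b2 c).elim
      · obtain ⟨i, t⟩ := u
        obtain rfl : t = w := c
        by_cases e : j = i
        · simp [e]
        · exact (hi _ hj _ b1 (adjWW e)).elim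
      · simp [c]).trans card_le_two
    have hy : ∀ i t, yy t = true → (i, t) ∉ D := fun i t ht l => hi _ hj _ l (adjW (Or.inl ht))
    obtain ⟨p1, d1, d1'⟩ : ∃ t, (t = a2 ∨ t = x1) ∧ (0, t) ∉ D := by
      have := fun e e' => hi (0, a2) e (0, x1) e' (adj0 0 (by decide))
      grind
    obtain ⟨p2, d2, d2'⟩ : ∃ t, (t = x3 false ∨ t = x4 false) ∧ (0, t) ∉ D := by
      have := fun e e' => hi (0, x3 false) e (0, x4 false) e' (adj0 0 (by decide))
      grind
    obtain ⟨p3, d3, d3'⟩ : ∃ t, (t = x3 (y 1) ∨ t = x4 (y 1)) ∧ (1, t) ∉ D := by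
      have := fun e e' => hi (1, x3 (y 1)) e (1, x4 (y 1)) e' (adj0 1 (by simp [n0]))
      grind
    have := (W {(0, p1), (0, p2), (1, p3)} (by
      simp only [mem_insert, mem_singleton, forall_eq_or_imp, forall_eq]
      refine ⟨?_, ?_, ?_⟩
      · rcases d1 with rfl | rfl <;> simp [nuV, sdV, nu, sd, hy, yy, m0, d1']
      · rcases d2 with rfl | rfl <;> simp [nuV, sdV, nu, sd, hy, yy, m0, d2']
      · rcases d3 with rfl | rfl <;> simp [nuV, sdV, nu, sd, hy, yy, m1, d3'])).1
    rw [card_eq_three.2 ⟨_, _, _, by grind, by simp, by simp, rfl⟩, card_empty] at this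
    omega
  have hs : D \ T ⊆ {(0, v)} := fun u hu => by
    obtain ⟨b1, b2⟩ := mem_sdiff.1 hu
    rcases hD u b1 with c | c | c
    exacts [(b2 c).elim, (hw ⟨u.1, c ▸ b1⟩).elim, mem_singleton.2 c]
  have hv : (0, v) ∈ D := by
    obtain ⟨u, b1, b2⟩ := not_subset.1 hn'
    exact mem_singleton.1 (hs (mem_sdiff.2 ⟨b1, b2⟩)) ▸ b1
  have c2 : (D \ T).card ≤ 1 := card_le_card hs
  have hx : ∀ t ∈ n0 v, (0, t) ∉ D := fun t ht l => hi _ hv _ l (adj0 0 ht)
  obtain ⟨p, d, d'⟩ : ∃ t, (t = a2 ∨ t = x3 false) ∧ nuV (0, t) ∉ D := by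
    have := fun e e' => hi (0, c) e (0, y3 false) e' (adj0 0 (by decide))
    by_cases e : (0, c) ∈ D
    exacts [⟨x3 false, Or.inr rfl, this e⟩, ⟨a2, Or.inl rfl, e⟩]
  have key := (W {(0, p)} (by
    simp only [mem_singleton, forall_eq]
    rcases d with rfl | rfl <;> simp [sdV, sd, m0, hx, n0, d'])).2 (by
      rw [card_singleton, card_empty]
      omega)
  simp only [notMem_empty, false_and, false_or, mem_singleton] at key
  have hA : ∀ p ∈ T, ∀ q ∈ T, q.1 = 0 + 1 → p ∈ D → (gr n K).Adj p q → q ≠ nuV p → nuV q ∈ D :=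
    fun p _ q hq e hp l _ => (key q hq (fun l => by simp [l] at e)
      (fun l => by simp [nuV, Prod.ext_iff, e] at l)).resolve_left fun l' => hi p hp q l' l
  have G : ∀ r ∈ trG (y (0 + 1)) ++ trC (y (0 + 1)), (0 + 1, r.1) ∈ D → (0 + 1, r.2.2) ∈ D :=
    fun r hr => h.step (A := (· ∈ D)) (by omega) hA (tab_tr.1 _ r hr)
  simp only [trG, trC, List.forall_mem_append, List.forall_mem_cons, List.not_mem_nil,
    false_imp_iff, implies_true, and_true] at G
  have C := h.cross (A := (· ∈ D)) (i := 0) (by omega) hA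
  rw [h.1] at C
  have k1 := key (0, x1) m0.2.2.1
  have k2 := key (0, x2) m0.2.2.2.1
  have k3 := key (0, x4 false) m0.2.2.2.2.2.2.1
  have k4 := fun e e' => hi (0, y1) e (0, y2) e' (adj0 0 (by decide))
  have k5 := fun e e' => hi (0 + 1, a2) e (0 + 1, h5) e' (adj0 _ (by decide))
  have k6 := hx x1 (by decide)
  have k7 := hx (x4 false) (by decide)
  simp only [nuV, nu] at k1 k2 k3
  obtain ⟨⟨g1, g2, g3, g4, -, -, -, -, g5, -, -, g6, g7, -, g8, g9, -⟩, -⟩ := G
  have e1 := (k1 (by grind) (by grind)).resolve_left k6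
  have e2 := (k2 (by grind) (by grind)).resolve_right (k4 e1)
  have e3 := (k3 (by grind) (by grind)).resolve_left k7
  exact k5 (g4 (g3 (g2 (g1 (g5 (g6 (g7 (C.1 e2)))))))) (g9 (g8 (C.2 e3)))

/-- A large irredundant set is one side of a matching of the whole ladder. -/
lemma IsT.big (h : IsT n y T) (hn : n ≠ 0) (hK : ∀ j i, K j i false true → ¬K j i false false)
    (hS : ∀ u ∈ S, P2.val n m u ∧ (u ∈ T ∨ u.2 = w ∨ u = (0, v))) (hX : irr (gr n K) S X)
    (hc : T.card ≤ 2 * X.card) : ∃ σ s, Cc n m K T σ s ∧ ∀ x ∈ X, x ∈ T ∧ s x = true := by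
  obtain ⟨Z, σ, s, D, a1, a2', a3, a4, a5, a6⟩ := red hX
  have hc' : Ctx n m K Z σ s := ⟨a1, fun z hz => (hS z (a2' hz)).1, hn⟩
  have hZ : Z ⊆ T := fun z hz => by
    rcases (hS z (a2' hz)).2 with c | c | c
    exacts [c, (hc'.nw hK z.1 (c ▸ hz)).elim, (hc'.nv (hc'.nw hK) 0 (c ▸ hz)).elim]
  have hD : D ⊆ T := by
    rcases Z.eq_empty_or_nonempty with rfl | ne
    · exact h.ind hn a4.1 (fun u hu => (hS u (a3 hu)).2) (by simp at a5; omega)
    · have e := (hc'.cc hK ne).ends n.zero_le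
      intro u hu
      rcases (hS u (a3 hu)).2 with c | c | rfl
      · exact c
      · obtain ⟨j, t⟩ := u
        obtain rfl : t = w := c
        exact (a4.2 _ hu _ e.2.1 (Or.inr (adjW (Or.inl rfl)))).elim
      · exact (a4.2 _ hu _ e.1 (Or.inr (adj0 0 (by decide)))).elim
  obtain ⟨rfl, rfl⟩ := h.inT hZ hD a4 (by omega)
  exact ⟨σ, s, hc'.cc hK ⟨_, (h.mem n.zero_le).1⟩, a6 rfl⟩

lemma IsT.cell (h : IsT n y T) (hc : Cc n m K T σ s) {i : ℕ} (hi : i < n) :
    (s (i + 1, a) = !s (i + 1, c) ∧ s (i + 1, a2) = !s (i + 1, c2)) ∧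
    (σ (i + 1, a) ≠ (i, x2) ∧ σ (i + 1, a2) ≠ (i + 1, x1) ∧
      (∀ b, σ (i + 1, c) ≠ (i + 1, y3 b)) ∧ ∀ b, σ (i + 1, c2) ≠ (i, y4 b)) ∧
    s (i + 1, q1) = s (i + 1, f) ∧ s (i + 1, q6) = s (i + 1, g) ∧ s (i + 1, g) = !s (i + 1, f) := by
  have b1 := hc.arc1 i (Or.inl (h.memG hi e1 (by decide)))
  have b2 := hc.arc2 i (Or.inl (h.memG hi h1 (by decide)))
  have mf := h.memG hi f (by decide)
  have mg := h.memG hi g (by decide)
  have := hc.e0 (i + 1) f a (by decide) mf b1.2.1
  have := hc.e0 (i + 1) f c (by decide) mf b1.2.2.1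
  have := hc.e0 (i + 1) g a2 (by decide) mg b2.2.1
  have := hc.e0 (i + 1) g c2 (by decide) mg b2.2.2.1
  have m1 := h.memG hi q1 (by decide)
  have m2 := h.memG hi q2 (by decide)
  have m3 := h.memG hi q3 (by decide)
  have m4 := h.memG hi q4 (by decide)
  have m5 := h.memG hi q5 (by decide)
  have m6 := h.memG hi q6 (by decide)
  have := hc.e0 (i + 1) f q1 (by decide) mf m1
  have := hc.e0 (i + 1) g q6 (by decide) mg m6
  have := hc.l_q1 i m1
  have := hc.l_q6 i m6
  have := hc.nwp _ m1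
  have := hc.nwp _ m6
  have := hc.e0 (i + 1) q1 q2 (by decide) m1 m2
  have := hc.e0 (i + 1) q1 q4 (by decide) m1 m4
  have := hc.e0 (i + 1) q2 q3 (by decide) m2 m3
  have := hc.e0 (i + 1) q3 q4 (by decide) m3 m4
  have := hc.e0 (i + 1) q4 q5 (by decide) m4 m5
  have := hc.e0 (i + 1) q3 q6 (by decide) m3 m6
  have := hc.e0 (i + 1) q5 q6 (by decide) m5 m6
  cases e1 : s (i + 1, f) <;> cases e2 : s (i + 1, g) <;> grind (splits := 60)

lemma IsT.sides (h : IsT n y T) (hc : Cc n m K T σ s) {i : ℕ} (hi : i ≤ n) :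
    (s (i, a2) = s (0, a2) ∧ s (i, c) = !s (0, a2)) ∧ s (i, x1) = s (0, a2) ∧
      s (i, y1) = !s (0, a2) ∧ s (i, y2) = !s (0, a2) ∧ s (i, y3 (y i)) = !s (0, a2) ∧
      s (i, y4 (y i)) = !s (0, a2) ∧ s (i, x3 (y i)) = s (0, a2) ∧ s (i, x4 (y i)) = s (0, a2) ∧
      (i < n → s (i + 1, c2) = !s (0, a2)) := by
  have N : ∀ i ≤ n, σ (i, a2) ≠ (i, x1) ∧ σ (R1 n i) ≠ (i, x2) ∧ s (i, x1) = s (i, a2) ∧
      s (R1 n i) = s (i, a2) ∧ s (i, y1) = !s (i, a2) ∧ s (i, y2) = !s (i, a2) ∧
      s (i, y3 (y i)) = s (i, c) ∧ s (i, y4 (y i)) = s (i, c) ∧ s (R2 n i) = s (i, c) ∧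
      σ (i, c) ≠ (i, y3 (y i)) ∧ s (i, x3 (y i)) = !s (i, c) ∧ s (i, x4 (y i)) = !s (i, c) := by
    intro i hi
    have := hc.segA i (hc.o1 hi)
    have := hc.segB i (y i) (Or.inl (h.mem hi).2.2.2.2.1)
    rcases hi.eq_or_lt with rfl | hi
    · obtain ⟨j, rfl⟩ := Nat.exists_eq_succ_of_ne_zero hc.pos
      have := (h.cell hc (Nat.lt_succ_self j)).2.1
      grind
    · have := (h.cell hc hi).2.1
      have : R1 n i = (i + 1, a) := if_neg hi.ne
      have : R2 n i = (i + 1, c2) := if_neg hi.ne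
      grind
  have I : ∀ i ≤ n, s (i, a2) = s (0, a2) ∧ s (i, c) = !s (0, a2) := by
    intro i hi
    induction i with
    | zero =>
      have := hc.l_xt (h.mem hi).1
      have := N 0 hi
      have := N n le_rfl
      have := hc.nv 0
      have : R1 n n = (0, a2) := if_pos rfl
      clear N
      grind
    | succ i ih =>
      have := ih (by omega)
      have := N i (by omega)
      have := (h.cell hc hi).1
      have : R1 n i = (i + 1, a) := if_neg (by omega)
      have : R2 n i = (i + 1, c2) := if_neg (by omega)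
      clear N
      cases e : s (0, a2) <;> grind
  have := I i hi
  have := N i hi
  have : i < n → R2 n i = (i + 1, c2) := fun hi => if_neg hi.ne
  clear N I
  cases e : s (0, a2) <;> grind

lemma exists_T (hU : ∀ z, z ∈ U ↔ val n m z) (y : ℕ → Bool) (hy : y 0 = false) :
    ∃ T ⊆ U, IsT n y T := by
  have h : IsT n y (((range (n + 1)) ×ˢ univ).filter fun u : Vx => ok (u.1 == 0) (y u.1) u.2) :=
    ⟨hy, fun u => by simp only [mem_filter, mem_product, mem_range, Order.lt_add_one_iff, mem_univ, and_true]⟩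
  exact ⟨_, fun u hu => (hU u).2 (h.val hu).1, h⟩

theorem imp_gr (hU : ∀ z, z ∈ U ↔ val n m z) : Imp (gr n K) U := by
  obtain ⟨T, hT, h⟩ := exists_T hU (fun _ => false) rfl
  refine ⟨T, hT, _, (h.m0 (K := K)).irr_side Subset.rfl true, fun I hI hi => ?_⟩
  have := (h.m0 (K := K)).card_half true
  by_contra l
  obtain ⟨rfl, e⟩ := h.inT (empty_subset T) hI (K := K) ⟨hi, by simp⟩ (by simp; omega)
  exact notMem_empty _ (e ▸ (h.mem n.zero_le).1)

theorem tr_of_perf (hn : n ≠ 0) (hK : ∀ j i, K j i false true → ¬K j i false false)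
    (hU : ∀ z, z ∈ U ↔ val n m z) (hp : Perf (gr n K) U) : Tr n m K := by
  classical
  intro y'
  let y : ℕ → Bool := fun i => if i = 0 then false else y' i
  obtain ⟨T, hT, h⟩ := exists_T hU y rfl
  let S := U.filter fun u => u ∈ T ∨ u.2 = w ∨ u = (0, v)
  have hS : T ⊆ S := fun u hu => mem_filter.2 ⟨hT hu, Or.inl hu⟩
  obtain ⟨D, d1, d2, d3⟩ := hp S (filter_subset _ _) _ ((h.m0 (K := K)).irr_side hS true)
  have := (h.m0 (K := K)).card_half true
  obtain ⟨σ, s, hc, hD⟩ := h.big (m := m) hn hK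
    (fun u hu => ⟨(hU u).1 (mem_filter.1 hu).1, (mem_filter.1 hu).2⟩) d1 (by omega)
  have e0 : s (0, a2) = true := by
    obtain ⟨d, b1, b2⟩ := d2 (0, v) (mem_filter.2 ⟨(hU _).2 (by simp [val, lo]), by simp⟩)
    obtain ⟨b3, b4⟩ := hD d b1
    have b5 := hc.val d b3
    have b6 := h.sides hc n.zero_le
    rcases b2 with rfl | b2
    · exact (hc.nv 0 b3).elim
    rcases adj_cases b5 (by simp) b2.symm with l | l
    · simp [nl, n0, up, wu, wd, z0, lo] at l
      rw [h.1] at b6
      grind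
    · simp [att, yy, lt] at l
  refine ⟨fun i => s (i, f), fun j hj => ?_⟩
  obtain ⟨⟨i, t⟩, b1, b2⟩ := d2 (j, w) (mem_filter.2 ⟨(hU _).2 (by simpa [val, lo] using hj), by simp⟩)
  obtain ⟨b3, b4⟩ := hD _ b1
  obtain ⟨hi, c1, c2', c3, c4⟩ := (h.2 _).1 b3
  have l : att K j (i, t) := by
    rcases b2 with b2 | b2 | b2 | b2 | b2
    · exact (c1 (congrArg Prod.snd b2)).elim
    · exact (cadj_w b2 rfl).elim
    · exact (c1 b2.1).elim
    · exact b2.2
    · exact (c1 b2.1).elim
  have b6 := h.sides hc hi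
  rw [e0] at b6
  rcases i with _ | i
  · cases t <;> simp [att, yy, lo, cp] at l c3 c4 <;> grind
  have b7 := (h.sides hc (i := i) (by omega)).2.2.2.2.2.2.2.2 hi
  have b8 := (h.cell hc hi).2.2
  have b9 : y (i + 1) = y' (i + 1) := rfl
  refine ⟨i, hi, ?_⟩
  clear d1 d2 hD hp hS hK hU
  cases t <;> simp [att, yy, lt, cp] at l c4 <;> grind

end Pool.Agent.MP_55bf9a_co.P2

/-!
Translation of the class to finite sets, and membership in the second level.
-/

namespace Pool.Agent.MP_55bf9a_co.P2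

open Finset Pool.Agent.Lib.Cx N487b59b3 N68a2faeb

section transfer

variable {V W : Type*} {G : SimpleGraph V} {H : SimpleGraph W}

lemma class_iff [Fintype V] :
    ((∀ S : Set V, upperDom (G.induce S) = upperIrr (G.induce S)) ∧
      ¬∀ S : Set V, (G.induce S).indepNum = upperDom (G.induce S)) ↔
    Perf G univ ∧ Imp G univ := by
  have h1 : (∀ S : Set V, upperDom (G.induce S) = upperIrr (G.induce S)) ↔ Perf G univ := by
    rw [forall_set]
    constructor
    · intro h S _ X a1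
      obtain ⟨I, hI, -⟩ := exists_max_indep (G := G) S
      obtain ⟨D, b1, b2⟩ := exists_sSup (Q := fun X => irr G S X ∧ dom G S X) hI
      have c2 := le_sSup' a1
      have c3 := h S
      rw [upperDom_induce, upperIrr_induce] at c3
      exact ⟨D, b1.1, b1.2, by omega⟩
    · intro h S
      rw [upperDom_induce, upperIrr_induce]
      obtain ⟨I, hI, -⟩ := exists_max_indep (G := G) S
      obtain ⟨D, b1, b2⟩ := exists_sSup (Q := fun X => irr G S X ∧ dom G S X) hI
      obtain ⟨X, a1, a2⟩ := exists_sSup hI.1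
      obtain ⟨E, c1, c2, c3⟩ := h S (subset_univ _) X a1
      have d1 := le_sSup' b1.1
      have d2 := le_sSup' (Q := fun X => irr G S X ∧ dom G S X) ⟨c1, c2⟩
      omega
  rw [← h1]
  refine and_congr_right fun hp => ?_
  rw [forall_set]
  constructor
  · intro h
    by_contra n
    unfold Imp at n
    push Not at n
    refine h fun S => ?_
    obtain ⟨I, hI, e⟩ := exists_max_indep (G := G) S
    obtain ⟨D, b1, b2⟩ := exists_sSup (Q := fun X => irr G S X ∧ dom G S X) hI
    obtain ⟨J, c1, c2, c3⟩ := n S (subset_univ _) D b1.1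
    have d1 := le_sSup' (Q := fun X => irr G S X ∧ dom G S X) hI
    have d2 := le_sSup' (Q := fun X => X ⊆ S ∧ ∀ x ∈ X, ∀ y ∈ X, ¬G.Adj x y) ⟨c1, c2⟩
    rw [← indepNum_induce] at d2
    rw [upperDom_induce]
    omega
  · rintro ⟨S, -, X, a1, a3⟩ n
    obtain ⟨I, hI, e⟩ := exists_sSup (Q := fun X => X ⊆ S ∧ ∀ x ∈ X, ∀ y ∈ X, ¬G.Adj x y)
      (X := ∅) ⟨empty_subset _, by simp⟩
    have d1 := a3 I hI.1 hI.2
    have d2 := le_sSup' a1
    have d3 := (n S).trans (hp S)
    rw [indepNum_induce, upperIrr_induce] at d3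
    omega

lemma N_map (f : V ↪ W) {a b : V} : N H (f a) (f b) ↔ N (H.comap f) a b := by simp [N]

lemma irr_map (f : V ↪ W) {S X : Finset V} :
    irr H (S.map f) (X.map f) ↔ irr (H.comap f) S X := by
  simp only [irr, map_subset_map, mem_map, ne_eq, forall_exists_index, and_imp, forall_apply_eq_imp_iff₂, exists_exists_and_eq_and, N_map, EmbeddingLike.apply_eq_iff_eq]

lemma dom_map (f : V ↪ W) {S X : Finset V} :
    dom H (S.map f) (X.map f) ↔ dom (H.comap f) S X := by
  simp only [dom, mem_map, exists_exists_and_eq_and, forall_exists_index, and_imp, forall_apply_eq_imp_iff₂, N_map]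

lemma perf_map (f : V ↪ W) (U : Finset V) : Perf (H.comap f) U ↔ Perf H (U.map f) := by
  constructor
  · intro h S hS X hX
    obtain ⟨S, a1, rfl⟩ := subset_map_iff.1 hS
    obtain ⟨X, -, rfl⟩ := subset_map_iff.1 hX.1
    obtain ⟨D, b1, b2, b3⟩ := h S a1 X ((irr_map f).1 hX)
    exact ⟨D.map f, (irr_map f).2 b1, (dom_map f).2 b2, by simpa using b3⟩
  · intro h S hS X hX
    obtain ⟨D, b1, b2, b3⟩ := h _ (map_subset_map.2 hS) _ ((irr_map f).2 hX)
    obtain ⟨D, -, rfl⟩ := subset_map_iff.1 b1.1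
    exact ⟨D, (irr_map f).1 b1, (dom_map f).1 b2, by simpa using b3⟩

lemma imp_map (f : V ↪ W) (U : Finset V) : Imp (H.comap f) U ↔ Imp H (U.map f) := by
  constructor
  · rintro ⟨S, hS, X, hX, h⟩
    refine ⟨_, map_subset_map.2 hS, _, (irr_map f).2 hX, fun I hI hi => ?_⟩
    obtain ⟨I, a1, rfl⟩ := subset_map_iff.1 hI
    simpa only [card_map] using h I a1 (by simpa only [SimpleGraph.comap_adj, mem_map, forall_exists_index, and_imp, forall_apply_eq_imp_iff₂] using hi)
  · rintro ⟨S, hS, X, hX, h⟩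
    obtain ⟨S, a1, rfl⟩ := subset_map_iff.1 hS
    obtain ⟨X, -, rfl⟩ := subset_map_iff.1 hX.1
    refine ⟨S, a1, X, (irr_map f).1 hX, fun I hI hi => ?_⟩
    simpa only [card_map] using h _ (map_subset_map.2 hI) (by simpa only [mem_map, forall_exists_index, and_imp, forall_apply_eq_imp_iff₂, SimpleGraph.comap_adj] using hi)

/-- A derivation from `z` along the implications of a matching that reaches two adjacent
vertices. -/
def Der (G : SimpleGraph V) (Z : Finset V) (σ : V → V) (z : V) (L : List V) : Prop :=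
  (∀ i < L.length, ∀ u ∈ (L[i]?).toList, u = z ∨ ∃ a ∈ L.take i, ∃ b ∈ Z,
    G.Adj a b ∧ b ≠ σ a ∧ σ b = u) ∧ ∃ a ∈ L, ∃ b ∈ L, G.Adj a b

variable {Z U : Finset V} {σ : V → V} {s : V → Bool}

lemma Der.sound {z : V} {L : List V} (h : Der G Z σ z L) {I : Finset V}
    (hi : ∀ x ∈ I, ∀ y ∈ I, ¬G.Adj x y) (hI : ∀ b ∈ Z, b ∉ I → σ b ∈ I) : z ∉ I := by
  intro hz
  have key : ∀ i, ∀ u ∈ L.take i, u ∈ I := by
    intro i
    induction i with
    | zero => simp
    | succ i ih =>
      intro u hu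
      rw [List.take_add_one, List.mem_append] at hu
      rcases hu with hu | hu
      · exact ih u hu
      · have hl : i < L.length := by
          by_contra n
          simp [List.getElem?_eq_none (not_lt.1 n)] at hu
        rcases h.1 i hl u hu with rfl | ⟨a, a1, b, a2, a3, -, rfl⟩
        · exact hz
        · exact hI b a2 fun m => hi a (ih a a1) b m a3
  obtain ⟨a, a1, b, a2, a3⟩ := h.2
  exact hi a (key L.length a (by simpa)) b (key L.length b (by simpa)) a3

lemma Cr.der (h : Cr G Z σ s) {z : V} (hz : z ∈ Z) :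
    ∃ L : List V, L.Nodup ∧ (∀ u ∈ L, u ∈ Z) ∧ Der G Z σ z L := by
  classical
  let P : List V → Prop := fun L => L.Nodup ∧ (∀ u ∈ L, u ∈ Z) ∧
    ∀ i < L.length, ∀ u ∈ (L[i]?).toList, u = z ∨ ∃ a ∈ L.take i, ∃ b ∈ Z,
      G.Adj a b ∧ b ≠ σ a ∧ σ b = u
  have hb : ∀ L, P L → L.length ≤ Z.card := fun L hL => by
    rw [← List.toFinset_card_of_nodup hL.1]
    exact card_le_card fun u hu => hL.2.1 u (List.mem_toFinset.1 hu)
  obtain ⟨L, hL, hm⟩ : ∃ L, P L ∧ ∀ L', P L' → L'.length ≤ L.length := by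
    have := Nat.sSup_mem (s := {k | ∃ L, P L ∧ L.length = k}) ⟨0, [], by simp only [P, Option.mem_toList, ne_eq, List.nodup_nil, List.not_mem_nil, IsEmpty.forall_iff, implies_true, List.length_nil, not_lt_zero, not_false_eq_true, getElem?_neg, reduceCtorEq, List.take_nil, false_and, exists_false, or_false, and_self], rfl⟩
      ⟨Z.card, fun k ⟨L, a, b⟩ => b ▸ hb L a⟩
    obtain ⟨L, a1, a2⟩ := this
    exact ⟨L, a1, fun L' hL' => a2 ▸ le_csSup ⟨Z.card, fun k ⟨L, a, b⟩ => b ▸ hb L a⟩ ⟨L', hL', rfl⟩⟩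
  have ext : ∀ u ∈ Z, (u = z ∨ ∃ a ∈ L, ∃ b ∈ Z, G.Adj a b ∧ b ≠ σ a ∧ σ b = u) → u ∈ L := by
    intro u hu e
    by_contra n
    have := hm (L ++ [u]) ⟨by simpa only [List.nodup_append, hL.1, List.nodup_cons, List.not_mem_nil, not_false_eq_true, List.nodup_nil, and_self, List.mem_cons, or_false, ne_eq, forall_eq, true_and, imp_false] using fun a ha (l : a = u) => n (l ▸ ha),
      by simpa only [List.mem_append, List.mem_cons, List.not_mem_nil, or_false, or_imp, forall_and, forall_eq, hu, and_true] using hL.2.1, fun i hi x hx => ?_⟩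
    · simp at this
    · rcases Nat.lt_succ_iff_lt_or_eq.1 (by simpa using hi : i < L.length + 1) with c | rfl
      · rw [List.getElem?_append_left c] at hx
        rw [List.take_append_of_le_length c.le]
        exact hL.2.2 i c x hx
      · obtain rfl : x = u := by simpa using hx
        simpa only [List.take_left', ne_eq] using e
  refine ⟨L, hL.1, hL.2.1, hL.2.2, by_contra fun n => ?_⟩
  exact h.core (· ∈ L) (fun a _ b _ ha hb m => n ⟨a, ha, b, hb, m⟩)
    (fun a _ b hb ha m e => ext _ (h.mem b hb) (Or.inr ⟨a, ha, b, hb, m, e, rfl⟩)) z hz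
    (ext z hz (Or.inl rfl))

lemma imp_of_der (h : M0 G Z σ s) (hU : Z ⊆ U) {z : V} (hz : z ∈ Z) {L L' : List V}
    (h1 : Der G Z σ z L) (h2 : Der G Z σ (σ z) L') : Imp G U := by
  classical
  refine ⟨Z, hU, _, h.irr_side Subset.rfl true, fun I hI hi => by_contra fun n => ?_⟩
  have c := h.card_half true
  have key := (h.weight (empty_subset Z) (D := I) ⟨hi, by simp⟩ ∅ (by simp)).2
    (by simp [inter_eq_left.2 hI]; omega)
  have hc : ∀ b ∈ Z, b ∉ I → σ b ∈ I := fun b hb m => by simpa [m] using key b hb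
  exact h2.sound hi hc (hc z hz (h1.sound hi hc))

lemma Imp.core (h : Imp G U) : ∃ Z σ s, Cr G Z σ s ∧ Z ⊆ U ∧ Z.Nonempty := by
  obtain ⟨S, hS, X, hX, h⟩ := h
  obtain ⟨Z, σ, s, D, a1, a2, a3, a4, a5, -⟩ := red hX
  refine ⟨Z, σ, s, a1, a2.trans hS, nonempty_iff_ne_empty.2 fun e => ?_⟩
  have := h D a3 a4.1
  simp [e] at a5
  omega

end transfer

variable {α β γ : Type} [Enc α] [Enc β] [Enc γ]

/-- Membership in the second level from a typed verifier. -/
theorem langOf_mem_PiTwo [hd : Dec α] [he : Dec β] [hf : Dec γ] {P : α → Prop}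
    (R : α × β × γ → Prop) (hR : PP R) (M : α → ℕ) (hM : PB M)
    (sound : ∀ a, (∀ b, size b ≤ M a → ∃ c, R (a, b, c)) → P a)
    (complete : ∀ a, P a → ∀ b, ∃ c, size c ≤ M a ∧ R (a, b, c)) : langOf P ∈ PiTwo := by
  classical
  obtain ⟨d, p, e⟩ := hd.dec
  obtain ⟨d', p', e'⟩ := he.dec
  obtain ⟨d'', p'', e''⟩ := hf.dec
  obtain ⟨q, hq⟩ := hM
  have : PT (fun z : List Bool × List Bool × List Bool => (d z.1).elim false (fun a =>
      decide (enc a = z.1) && (d' z.2.1).elim true (fun b => (d'' z.2.2).elim false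
        (fun c => decide (R (a, b, c)))))) := by fun_prop
  refine ⟨q, _, this.isPolyTime, fun x => ?_⟩
  simp only [langOf, decide_eq_true_eq]
  constructor
  · rintro ⟨a, rfl, ha⟩ y -
    have e0 : bitEncode a = enc a := rfl
    rw [e0]
    cases hy : d' y with
    | none => exact ⟨[], Nat.zero_le _, by simp [e]⟩
    | some b =>
      obtain ⟨c, hc, hr⟩ := complete a ha b
      exact ⟨enc c, hc.trans (hq a), by simp [e, e'', hr]⟩
  · intro h
    obtain ⟨z, -, h0⟩ := h [] (Nat.zero_le _)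
    revert h h0
    cases d x with
    | none => simp only [Option.elim_none, Bool.false_eq_true, and_false, exists_const, imp_false, not_le, IsEmpty.forall_iff, implies_true]
    | some a =>
      intro h h0
      simp only [Option.elim, Bool.and_eq_true, decide_eq_true_eq] at h0
      obtain ⟨rfl, -⟩ := h0
      refine ⟨a, rfl, sound a fun b hb => ?_⟩
      obtain ⟨z, -, h1⟩ := h (enc b) (hb.trans (hq a))
      revert h1
      simp only [e']
      cases d'' z with
      | none => simp only [Option.elim_none, Option.elim_some, Bool.and_false, Bool.false_eq_true, IsEmpty.forall_iff]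
      | some c => exact fun h1 => ⟨c, by simpa using h1⟩

/-- The graph on the natural numbers given by a matrix. -/
def mg (M : List (List Bool)) : SimpleGraph ℕ := SimpleGraph.fromRel fun i j => ent M i j = true

lemma mg_adj (M : List (List Bool)) (i j : ℕ) :
    (mg M).Adj i j ↔ i ≠ j ∧ (ent M i j = true ∨ ent M j i = true) := Iff.rfl

lemma mg_comap {n : ℕ} (G : SimpleGraph (Fin n)) : (mg (adjRows G)).comap Fin.valEmbedding = G := by
  ext i j
  simp only [SimpleGraph.comap_adj, mg_adj, Fin.valEmbedding_apply, ent_adjRows]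
  exact ⟨fun h => h.2.elim id fun h => h.symm, fun h => ⟨fun e => h.ne (Fin.ext e), Or.inl h⟩⟩

/-- The class, read on matrices. -/
def InC (M : List (List Bool)) : Prop :=
  IsAdjRows M ∧ Perf (mg M) (range M.length) ∧ Imp (mg M) (range M.length)

lemma inC_adjRows {n : ℕ} (G : SimpleGraph (Fin n)) :
    InC (adjRows G) ↔ Perf G univ ∧ Imp G univ := by
  rw [InC, length_adjRows, ← Nat.Iio_eq_range, ← Fin.map_valEmbedding_univ, ← perf_map, ← imp_map, mg_comap]
  simp only [isAdjRows_adjRows, true_and]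

lemma classLang_eq : classLang = langOf InC := by
  funext x
  simp only [classLang, langOf, decide_eq_decide, class_iff]
  constructor
  · rintro ⟨n, G, rfl, h⟩
    exact ⟨_, rfl, (inC_adjRows G).2 h⟩
  · rintro ⟨M, rfl, h⟩
    obtain ⟨G, e⟩ := h.1.exists_graph
    exact ⟨_, G, by rw [e], (inC_adjRows G).1 (by rwa [e])⟩

/-- The test of the verifier. -/
def Ver (z : List (List Bool) × (List ℕ × List ℕ) ×
    (List ℕ × List ℕ × List ℕ × List ℕ × ℕ × List ℕ × List ℕ)) : Prop :=
  IsAdjRows z.1 ∧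
    (z.2.1.1.toFinset ⊆ range z.1.length → irr (mg z.1) z.2.1.1.toFinset z.2.1.2.toFinset →
      irr (mg z.1) z.2.1.1.toFinset z.2.2.1.toFinset ∧
      dom (mg z.1) z.2.1.1.toFinset z.2.2.1.toFinset ∧
      z.2.1.2.toFinset.card ≤ z.2.2.1.toFinset.card) ∧
    (M0 (mg z.1) z.2.2.2.1.toFinset (fun u => z.2.2.2.2.1.getD u 0)
      (fun u => decide (u ∈ z.2.2.2.2.2.1)) ∧ z.2.2.2.1.toFinset ⊆ range z.1.length ∧
      z.2.2.2.2.2.2.1 ∈ z.2.2.2.1.toFinset ∧
      Der (mg z.1) z.2.2.2.1.toFinset (fun u => z.2.2.2.2.1.getD u 0) z.2.2.2.2.2.2.1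
        z.2.2.2.2.2.2.2.1 ∧
      Der (mg z.1) z.2.2.2.1.toFinset (fun u => z.2.2.2.2.1.getD u 0)
        (z.2.2.2.2.1.getD z.2.2.2.2.2.2.1 0) z.2.2.2.2.2.2.2.2)

lemma m0_iff {V : Type*} {G : SimpleGraph V} {Z : Finset V} {σ : V → V} {s : V → Bool} :
    M0 G Z σ s ↔ ∀ z ∈ Z, σ z ∈ Z ∧ σ (σ z) = z ∧ s (σ z) = !s z ∧ G.Adj z (σ z) ∧
      ∀ z' ∈ Z, G.Adj z z' → s z' = s z ∨ z' = σ z :=
  ⟨fun h z hz => ⟨h.mem z hz, h.inv z hz, h.side z hz, h.adj z hz, h.uniq z hz⟩,
    fun h => ⟨fun z hz => (h z hz).1, fun z hz => (h z hz).2.1, fun z hz => (h z hz).2.2.1,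
      fun z hz => (h z hz).2.2.2.1, fun z hz => (h z hz).2.2.2.2⟩⟩

lemma ver_pp : PP Ver := by
  unfold Ver
  simp only [m0_iff, irr, dom, Der, N, mg_adj, subset_iff, List.mem_toFinset, mem_range,
    List.card_toFinset]
  fun_prop

lemma size_le {N : ℕ} {l : List ℕ} (h1 : l.length ≤ N) (h2 : ∀ u ∈ l, u ≤ N) :
    size l ≤ N * (2 * N + 1) :=
  (size_list_le l N fun a ha => (size_nat_le_self a).trans (h2 a ha)).trans
    (Nat.mul_le_mul_right _ h1)

lemma size_toList {N : ℕ} {S : Finset ℕ} (h : S ⊆ range N) : size S.toList ≤ N * (2 * N + 1) :=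
  size_le (by simpa using card_le_card h) fun u hu => (mem_range.1 (h (mem_toList.1 hu))).le

theorem class_mem : classLang ∈ PiTwo := by
  classical
  rw [classLang_eq]
  refine langOf_mem_PiTwo Ver ver_pp (fun M => 13 * (M.length * (2 * M.length + 1)) + 6)
    (by fun_prop) (fun M h => ?_) fun M h b => ?_
  · obtain ⟨c, h1, -, h2, h3, h4, h5, h6⟩ := h ([], []) (by simp)
    refine ⟨h1, fun S hS X hX => ?_, imp_of_der h2 h3 h4 h5 h6⟩
    have a1 := size_toList hS
    have a2 := size_toList (hX.1.trans hS)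
    obtain ⟨c, -, h7, -⟩ := h (S.toList, X.toList) (by rw [size_prod]; dsimp only; omega)
    exact ⟨_, by simpa using h7 (by simpa using hS) (by simpa using hX)⟩
  · obtain ⟨h1, h2, h3⟩ := h
    obtain ⟨D, hD, d1⟩ : ∃ D ⊆ range M.length, b.1.toFinset ⊆ range M.length →
        irr (mg M) b.1.toFinset b.2.toFinset → irr (mg M) b.1.toFinset D ∧
          dom (mg M) b.1.toFinset D ∧ b.2.toFinset.card ≤ D.card := by
      by_cases c : b.1.toFinset ⊆ range M.length ∧ irr (mg M) b.1.toFinset b.2.toFinset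
      · obtain ⟨D, d⟩ := h2 _ c.1 _ c.2
        exact ⟨D, d.1.1.trans c.1, fun _ _ => d⟩
      · exact ⟨∅, empty_subset _, fun a b => (c ⟨a, b⟩).elim⟩
    obtain ⟨Z, σ, s, hc, hZ, z, hz⟩ := h3.core
    let sl := (List.range M.length).map fun u => if u ∈ Z then σ u else 0
    have e1 : ∀ u ∈ Z, sl.getD u 0 = σ u := fun u hu => by
      simp [sl, mem_range.1 (hZ hu), hu]
    have e2 : ∀ u ∈ Z, decide (u ∈ (Z.filter fun u => s u = true).toList) = s u := fun u hu => by
      simp [hu]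
    have hc' : Cr (mg M) Z (fun u => sl.getD u 0)
        fun u => decide (u ∈ (Z.filter fun u => s u = true).toList) := by
      refine ⟨⟨fun u hu => ?_, fun u hu => ?_, fun u hu => ?_, fun u hu => ?_,
        fun u hu u' hu' l => ?_⟩, fun A a1 a2 => hc.core A a1 fun p hp q hq e l ne => ?_⟩
      · rw [e1 u hu]
        exact hc.mem u hu
      · rw [e1 u hu, e1 _ (hc.mem u hu), hc.inv u hu]
      · rw [e1 u hu, e2 _ (hc.mem u hu), e2 u hu, hc.side u hu]
      · rw [e1 u hu]
        exact hc.adj u hu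
      · rw [e1 u hu, e2 u hu, e2 u' hu']
        exact hc.uniq u hu u' hu' l
      · rw [← e1 q hq]
        exact a2 p hp q hq e l (by rwa [e1 p hp])
    obtain ⟨L, l1, l2, l3⟩ := hc'.der hz
    obtain ⟨L', l4, l5, l6⟩ := hc'.der (hc'.mem z hz)
    have sz : ∀ L : List ℕ, L.Nodup → (∀ u ∈ L, u ∈ Z) → size L ≤ M.length * (2 * M.length + 1) :=
      fun L a1 a2 => size_le (by
        rw [← List.toFinset_card_of_nodup a1]
        simpa using card_le_card (show L.toFinset ⊆ range M.length from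
          fun u hu => hZ (a2 u (List.mem_toFinset.1 hu))))
        fun u hu => (mem_range.1 (hZ (a2 u hu))).le
    refine ⟨(D.toList, Z.toList, sl, (Z.filter fun u => s u = true).toList, z, L, L'), ?_, h1,
      by simpa only [toList_toFinset] using d1, by simpa only [toList_toFinset] using And.intro hc'.toM0 ⟨hZ, hz, l3, l6⟩⟩
    have s1 := size_toList hD
    have s2 := size_toList hZ
    have s3 : size sl ≤ M.length * (2 * M.length + 1) := size_le (by simp [sl]) fun u hu => by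
      obtain ⟨x, -, rfl⟩ := List.mem_map.1 hu
      split_ifs with c
      exacts [(mem_range.1 (hZ (hc.mem x c))).le, Nat.zero_le _]
    have s4 := size_toList ((filter_subset (fun u => s u = true) Z).trans hZ)
    have s5 := (size_nat_le_self z).trans (mem_range.1 (hZ hz)).le
    have s6 := sz L l1 l2
    have s7 := sz L' l4 l5
    have s8 : M.length ≤ M.length * (2 * M.length + 1) := Nat.le_mul_of_pos_right _ (by omega)
    simp only [size_prod]
    omega

end Pool.Agent.MP_55bf9a_co.P2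

/-!
Hardness for the second level.
-/

namespace Pool.Agent.MP_55bf9a_co.P2

open Finset Pool.Agent.Lib.Cx N487b59b3 N68a2faeb N793a5b8e

/-- A formula, a unary bound on its variables, and the range of the universal variables. -/
abbrev Qf : Type := List (Clause3 ℕ) × List Unit × ℕ × ℕ

/-- Truth of the quantified formula. -/
def Qf.Holds (z : Qf) : Prop := ∀ y : ℕ → Bool, ∃ s : ℕ → Bool,
  (∀ i, z.2.2.1 ≤ i → i < z.2.2.2 → s i = y i) ∧ ∀ c ∈ z.1, c.Holds s

theorem qf_hard {L : List Bool → Bool} (hL : L ∈ PiTwo) : ∃ f : List Bool → Qf, PT f ∧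
    ∀ x, (∀ i ∈ vars3 (f x).1, i < (f x).2.1.length) ∧ (L x = true ↔ (f x).Holds) := by
  obtain ⟨p, R, hR, hL⟩ := hL
  have hR' := PT.of_isPolyTime hR
  have h1 : PT (fun z : List Bool × PT.Raw => R (z.1, unpad (z.2.val.take (p.eval z.1.length + 1)),
      unpad (z.2.val.drop (p.eval z.1.length + 1)))) := by
    have : PT (fun z : List Bool × PT.Raw => z.2.val) :=
      PT.enc' (f := fun z : List Bool × PT.Raw => z.2) (by fun_prop)
    unfold unpad
    fun_prop
  obtain ⟨Φ, hΦ, hv, hc⟩ := Cmp.exists_cnf h1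
  let pre : List Bool → List Bool := fun x => delimit (enc x)
  have hpre : PT pre := by
    simp only [pre, Cmp.delimit_eq]; fun_prop
  let l : List Bool → List Unit := fun x =>
    List.replicate ((pre x).length + ((p.eval x.length + 1) + (p.eval x.length + 1))) ()
  have hl : PT l := by simp only [l]; fun_prop
  refine ⟨fun x => ((pre x).zipIdx.map (fun z => ((z.2, z.1), (z.2, z.1), (z.2, z.1))) ++ Φ (l x),
    List.replicate ((l x).length + 3 * (Φ (l x)).length) (), (pre x).length,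
    (pre x).length + (p.eval x.length + 1)), by fun_prop, fun x => ⟨fun i hi => ?_, ?_⟩⟩
  · simp only [vars3, List.flatMap_append, List.mem_append, List.length_replicate] at hi ⊢
    rcases hi with hi | hi
    · simp only [List.mem_flatMap, List.mem_map] at hi
      obtain ⟨_, ⟨⟨b, j⟩, hz, rfl⟩, hi⟩ := hi
      obtain rfl : i = j := by simpa using hi
      have := (List.mem_zipIdx' hz).1
      simp only [l, List.length_replicate]
      omega
    · exact hv _ i hi
  rw [hL]
  have he : ∀ w, enc (x, PT.Raw.mk w) = pre x ++ w := fun _ => rfl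
  simp only [Qf.Holds]
  generalize hk : p.eval x.length = k at *
  have key : ∀ u w : List Bool, u.length = k + 1 → w.length = k + 1 →
      (R (x, unpad u, unpad w) = true ↔ ∃ s : ℕ → Bool,
        (∀ j (h : j < (u ++ w).length), s ((pre x).length + j) = (u ++ w)[j]) ∧
        ∀ c ∈ (pre x).zipIdx.map (fun z => ((z.2, z.1), (z.2, z.1), (z.2, z.1))) ++ Φ (l x),
          Clause3.Holds s c) := by
    intro u w hu hw
    have := hc (x, ⟨u ++ w⟩) (l x) (by rw [he]; simp [l, hu, hw, hk])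
    simp only [hk, ← hu, List.take_left', List.drop_left', he] at this
    rw [this]
    refine exists_congr fun s => ⟨fun ⟨s1, s2⟩ => ⟨fun j hj => ?_, fun c hc => ?_⟩,
      fun ⟨s1, s2⟩ => ⟨fun j hj => ?_, fun c hc => s2 c (List.mem_append_right _ hc)⟩⟩
    · rw [s1 _ (by rw [List.length_append]; omega), List.getElem_append_right (by omega)]
      simp only [add_tsub_cancel_left]
    · rcases List.mem_append.1 hc with hc | hc
      · obtain ⟨⟨b, j⟩, hz, rfl⟩ := List.mem_map.1 hc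
        obtain ⟨hj, hb⟩ := List.mem_zipIdx' hz
        left
        simp only
        rw [s1 j (by rw [List.length_append]; omega), hb, List.getElem_append_left hj]
      · exact s2 c hc
    · by_cases hj' : j < (pre x).length
      · rw [List.getElem_append_left hj']
        have := s2 _ (List.mem_append_left _ (List.mem_map_of_mem (a := ((pre x)[j], j))
          (by simp [List.mem_zipIdx_iff_getElem?])))
        simpa [Clause3.Holds] using this
      · rw [List.getElem_append_right (by omega), ← s1]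
        congr 1
        omega
  constructor
  · intro h y
    let u : List Bool := (List.range (k + 1)).map fun j => y ((pre x).length + j)
    obtain ⟨z, hz, hr⟩ := h (unpad u) ((length_unpad u).trans (by simp [u]))
    obtain ⟨d, hd⟩ := Nat.exists_eq_add_of_le hz
    obtain ⟨s, s1, s2⟩ := (key u (List.replicate d false ++ true :: z) (by simp [u])
      (by simp; omega)).1 (by rwa [unpad_pad])
    refine ⟨s, fun i h1 h2 => ?_, s2⟩
    obtain ⟨j, rfl⟩ := Nat.exists_eq_add_of_le h1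
    have hj : j < u.length := by simp [u]; omega
    rw [s1 j (by rw [List.length_append]; omega), List.getElem_append_left hj]
    simp [u]
  · intro h y hy
    obtain ⟨d, hd⟩ := Nat.exists_eq_add_of_le hy
    let u : List Bool := List.replicate d false ++ true :: y
    have hu : u.length = k + 1 := by simp [u]; omega
    obtain ⟨s, s1, s2⟩ := h fun i => u.getD (i - (pre x).length) false
    let w : List Bool := (List.range (k + 1)).map fun j => s ((pre x).length + (k + 1 + j))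
    refine ⟨unpad w, (length_unpad w).trans (by simp [w]), ?_⟩
    rw [← unpad_pad d y]
    refine (key u w hu (by simp [w])).2 ⟨s, fun j hj => ?_, s2⟩
    by_cases c : j < u.length
    · rw [s1 _ (by omega) (by omega), List.getElem_append_left c]
      simp [c]
    · rw [List.getElem_append_right (by omega)]
      simp only [w, List.getElem_map, List.getElem_range]
      congr 2
      omega

/-- The literals of a clause. -/
def lits (c : Clause3 ℕ) : List (ℕ × Bool) := [c.1, c.2.1, c.2.2]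

/-- The clauses that do not contain a literal and its negation. -/
def Qf.cl (z : Qf) : List (Clause3 ℕ) :=
  z.1.filter fun c => decide (∀ l ∈ lits c, (l.1, !l.2) ∉ lits c)

/-- Occurrence of a literal in a clause. -/
def Qf.K (z : Qf) (j i : ℕ) (k b : Bool) : Prop :=
  (∃ c ∈ (z.cl[j]?).toList, (i - 1, b) ∈ lits c) ∧
    (k = true ↔ z.2.2.1 ≤ i - 1 ∧ i - 1 < z.2.2.2)

lemma holds_iff (s : ℕ → Bool) (c : Clause3 ℕ) : c.Holds s ↔ ∃ l ∈ lits c, s l.1 = l.2 := by
  simp [Clause3.Holds, lits]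

lemma Qf.nt (z : Qf) (j i : ℕ) (h : z.K j i false true) : ¬z.K j i false false := by
  rintro ⟨⟨c, c1, c2⟩, -⟩
  obtain ⟨⟨c', c3, c4⟩, -⟩ := h
  simp only [Option.mem_toList] at c1 c3
  obtain rfl : c' = c := by simpa [c1] using c3.symm
  have := (List.mem_filter.1 (List.mem_of_getElem? c1)).2
  exact of_decide_eq_true this _ c4 c2

lemma Qf.tr (z : Qf) (hv : ∀ i ∈ vars3 z.1, i < z.2.1.length) :
    z.Holds ↔ Tr (z.2.1.length + 1) z.cl.length z.K := by
  classical
  constructor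
  · intro h y
    obtain ⟨s, s1, s2⟩ := h fun i => y (i + 1)
    refine ⟨fun i => s (i - 1), fun j hj => ?_⟩
    have hm := (List.mem_filter.1 (List.getElem_mem hj)).1
    obtain ⟨⟨i, b⟩, l1, l2⟩ := (holds_iff s _).1 (s2 _ hm)
    obtain rfl : s i = b := l2
    have hi : i < z.2.1.length := hv i (List.mem_flatMap.2 ⟨_, hm, by
      simp only [lits, List.mem_cons, List.not_mem_nil, or_false] at l1 ⊢
      rcases l1 with l1 | l1 | l1 <;> simp [← l1]⟩)
    refine ⟨i, by omega, ?_⟩
    by_cases c : z.2.2.1 ≤ i ∧ i < z.2.2.2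
    · exact Or.inl ⟨⟨z.cl[j], by simp [hj], by simpa [← s1 i c.1 c.2] using l1⟩, by simpa only [add_tsub_cancel_right, true_iff] using c⟩
    · exact Or.inr ⟨⟨z.cl[j], by simp [hj], by simpa using l1⟩, by simpa only [Bool.false_eq_true, add_tsub_cancel_right, false_iff, not_and, not_lt] using c⟩
  · intro h y
    obtain ⟨τ, hτ⟩ := h fun i => y (i - 1)
    refine ⟨fun i => if z.2.2.1 ≤ i ∧ i < z.2.2.2 then y i else τ (i + 1),
      fun i h1 h2 => if_pos ⟨h1, h2⟩, fun c hc => (holds_iff _ c).2 ?_⟩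
    by_cases e : ∀ l ∈ lits c, (l.1, !l.2) ∉ lits c
    · obtain ⟨j, hj, rfl⟩ := List.getElem_of_mem
        (show c ∈ z.cl from List.mem_filter.2 ⟨hc, decide_eq_true e⟩)
      obtain ⟨i, -, ⟨⟨c, c1, c2⟩, c3⟩ | ⟨⟨c, c1, c2⟩, c3⟩⟩ := hτ j hj
      · obtain rfl : c = z.cl[j] := by simpa [hj] using c1
        exact ⟨_, c2, if_pos (c3.1 rfl)⟩
      · obtain rfl : c = z.cl[j] := by simpa [hj] using c1
        exact ⟨_, c2, if_neg fun l => by simpa using c3.2 l⟩
    · push Not at e
      obtain ⟨l, l1, l2⟩ := e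
      by_cases c : (if z.2.2.1 ≤ l.1 ∧ l.1 < z.2.2.2 then y l.1 else τ (l.1 + 1)) = l.2
      · exact ⟨l, l1, c⟩
      · exact ⟨_, l2, Bool.eq_not.2 c⟩

instance (n m : ℕ) (u : Vx) : Decidable (val n m u) := by unfold val; infer_instance

/-- The list of vertices. -/
noncomputable def Qf.vs (z : Qf) : List Vx :=
  ((List.range (z.2.1.length + z.cl.length + 2)) ×ˢ (univ : Finset Tg).toList).filter
    fun u => decide (val (z.2.1.length + 1) z.cl.length u)

lemma Qf.mem_vs (z : Qf) (u : Vx) : u ∈ z.vs ↔ val (z.2.1.length + 1) z.cl.length u := by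
  obtain ⟨i, t⟩ := u
  simp only [Qf.vs, List.mem_filter, List.mem_product, List.mem_range, mem_toList, mem_univ,
    and_true, decide_eq_true_eq, and_iff_right_iff_imp, val]
  split_ifs <;> omega

lemma Qf.nodup_vs (z : Qf) : z.vs.Nodup :=
  (List.nodup_range.product (nodup_toList _)).filter _

open Classical in
/-- The adjacency matrix of the graph of a formula. -/
noncomputable def Qf.mat (z : Qf) : List (List Bool) :=
  z.vs.map fun a => z.vs.map fun b => decide ((gr (z.2.1.length + 1) z.K).Adj a b)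

lemma mat_pt : PT Qf.mat := by
  let _ : Enc Tg := finEnc Tg
  have h1 := PT.of_finite n0
  have h2 := PT.of_finite up
  have h3 := PT.of_finite dn
  have h4 := PT.of_finite wu
  have h5 := PT.of_finite wd
  have h6 := PT.of_finite z0
  have h7 := PT.of_finite yy
  have h8 := PT.of_finite lt
  have h9 := PT.of_finite lo
  have hc : PT Qf.cl := by
    unfold Qf.cl lits
    fun_prop
  have hv : PT Qf.vs := by
    have : PP fun z : Qf × Vx => val (z.1.2.1.length + 1) z.1.cl.length z.2 :=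
      PP.of_iff (p := fun z : Qf × Vx => lo z.2.2 ≤ z.2.1 ∧ ((z.2.2 = Tg.w ∧ z.2.1 < z.1.cl.length) ∨
        (z.2.2 = Tg.v ∧ z.2.1 = 0) ∨ (z.2.2 ≠ Tg.w ∧ z.2.2 ≠ Tg.v ∧ z.2.1 ≤ z.1.2.1.length + 1)))
        (by fun_prop) fun z => by
          unfold val
          split_ifs <;> simp_all
    unfold Qf.vs
    fun_prop
  unfold Qf.mat
  simp only [gr, cadj, att, Qf.K, lits]
  fun_prop

lemma Qf.inC (z : Qf) : InC z.mat ↔ Tr (z.2.1.length + 1) z.cl.length z.K := by
  classical
  let e : Fin z.vs.length ↪ Vx := ⟨z.vs.get, List.nodup_iff_injective_get.1 z.nodup_vs⟩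
  have hU : ∀ u, u ∈ univ.map e ↔ val (z.2.1.length + 1) z.cl.length u := fun u => by
    simp only [e, mem_map, mem_univ, Function.Embedding.coeFn_mk, List.get_eq_getElem, true_and, ← z.mem_vs, List.mem_iff_get]
  rw [Qf.mat, ← adjRows_comap_get, inC_adjRows]
  change Perf (SimpleGraph.comap e _) univ ∧ Imp (SimpleGraph.comap e _) univ ↔ _
  rw [perf_map, imp_map]
  exact ⟨fun h => tr_of_perf (by omega) z.nt hU h.1,
    fun h => ⟨perf_of_tr (by omega) z.nt (fun u hu => (hU u).1 hu) h, imp_gr hU⟩⟩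

theorem class_complete : IsCompleteFor PiTwo classLang := by
  refine ⟨class_mem, fun L hL => ?_⟩
  obtain ⟨f, hf, e⟩ := qf_hard hL
  refine ⟨fun x => enc (f x).mat, (mat_pt.comp' hf).enc'.isPolyTime, fun x => ?_⟩
  rw [Bool.eq_iff_iff, classLang_eq, langOf_enc, (e x).2, Qf.inC, Qf.tr _ (e x).1]

end Pool.Agent.MP_55bf9a_co.P2
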