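import Pool.Agent.MP_55bf9a_co.Mg.Bridge

attribute [-instance] Prod.instPreorder FiniteField.instGrindPowIdentity
  AddCommGroup.toGrindIntModule CompletePartialOrder.toPartialOrder Field.toGrindField
  CommRing.toGrindCommRing AddQuantale.instAddLeftMono
  Std.instLawfulBEqOfLawfulOrderBEqOfIsPartialOrder Prod.instLE_mathlib FunLike.toDecidableEq
  Ring.toGrindRing Std.LinearPreorderPackage.toIsLinearPreorder Finset.decidableDforallFinset
  OmegaCompletePartialOrder.toPartialOrder Vector.instDecidableForallForallMemOfDecidablePred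
  Std.LawfulBEqOrd.lawfulBEq Multiset.decidableDforallMultiset
  Array.instDecidableForallForallMemOfDecidablePred Option.decidableForallMem
  ChainCompletePartialOrder.toPartialOrder Std.PreorderPackage.toBEq Nat.instAtLeastTwoHAddOfNat
  Int.instLawfulBEq Group.IsPerfect.subsingleton_of_isMulCommutative LinearOrder.toDecidableEq

/-!
Matched structures, closed sets and cores in an arbitrary graph.
-/

namespace Pool.Agent.MP_55bf9a_co.P2

open Finset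

variable {V : Type*} {G : SimpleGraph V} {Z S X D U : Finset V} {σ : V → V} {s : V → Bool} {k : ℕ}

/-- Two independently matched sets. -/
structure M0 (G : SimpleGraph V) (Z : Finset V) (σ : V → V) (s : V → Bool) : Prop where
  mem : ∀ z ∈ Z, σ z ∈ Z
  inv : ∀ z ∈ Z, σ (σ z) = z
  side : ∀ z ∈ Z, s (σ z) = !s z
  adj : ∀ z ∈ Z, G.Adj z (σ z)
  uniq : ∀ z ∈ Z, ∀ z' ∈ Z, G.Adj z z' → s z' = s z ∨ z' = σ z

/-- Independently matched sets without a nonempty independent closed set. -/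
structure Cr (G : SimpleGraph V) (Z : Finset V) (σ : V → V) (s : V → Bool) : Prop
    extends M0 G Z σ s where
  core : ∀ A : V → Prop, (∀ a ∈ Z, ∀ b ∈ Z, A a → A b → ¬G.Adj a b) →
    (∀ a ∈ Z, ∀ b ∈ Z, A a → G.Adj a b → b ≠ σ a → A (σ b)) → ∀ a ∈ Z, ¬A a

/-- An independent set with no edge to `Z`. -/
def Far (G : SimpleGraph V) (D Z : Finset V) : Prop :=
  (∀ a ∈ D, ∀ b ∈ D, ¬G.Adj a b) ∧ ∀ d ∈ D, ∀ z ∈ Z, ¬N G d z

lemma M0.inj (h : M0 G Z σ s) {a b : V} (ha : a ∈ Z) (hb : b ∈ Z) (e : σ a = σ b) : a = b := by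
  rw [← h.inv a ha, e, h.inv b hb]

lemma M0.notN (h : M0 G Z σ s) {a b : V} (ha : a ∈ Z) (hb : b ∈ Z) (e : s b = s a) (hab : a ≠ b) :
    ¬N G a (σ b) := by
  have h1 := h.side b hb
  rintro (rfl | h2)
  · rw [e] at h1
    simp at h1
  · rcases h.uniq a ha _ (h.mem b hb) h2 with h3 | h3
    · rw [h3, e] at h1
      simp at h1
    · exact hab (h.inj ha hb h3.symm)

/-- An edge inside `Z` joins two vertices of one side or two partners. -/
lemma M0.edge (h : M0 G Z σ s) {a b : V} (e : G.Adj a b) (ha : a ∈ Z) (hb : b ∈ Z) :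
    (s b = s a ∧ σ a ≠ b ∧ σ b ≠ a) ∨ (σ a = b ∧ σ b = a ∧ s b = !s a) := by
  have h1 := h.side a ha
  have h2 := h.side b hb
  have h3 := h.inv a ha
  rcases h.uniq a ha b hb e with h4 | h4
  · refine Or.inl ⟨h4, fun m => ?_, fun m => ?_⟩
    · rw [m, h4] at h1
      simp at h1
    · rw [m, h4] at h2
      simp at h2
  · subst h4
    exact Or.inr ⟨rfl, h3, h1⟩

/-- A common neighbour of two partners is not in `Z`. -/
lemma M0.tri (h : M0 G Z σ s) {a b : V} (ha : a ∈ Z) (h1 : G.Adj a b) (h2 : G.Adj (σ a) b) :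
    b ∉ Z := fun hb => by
  have e1 := h.edge h1 ha hb
  have e2 := h.edge h2 (h.mem a ha) hb
  have e3 := h.side a ha
  have e4 := h.inv a ha
  have n1 := h1.ne
  have n2 := h2.ne
  grind

lemma M0.card_half (h : M0 G Z σ s) (b : Bool) :
    2 * (Z.filter fun z => s z = b).card = Z.card := by
  rw [two_mul, ← card_filter_add_card_filter_not (s := Z) fun z => s z = b]
  congr 1
  refine card_nbij' σ σ (fun z hz => ?_) (fun z hz => ?_) (fun z hz => ?_) fun z hz => ?_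
  · obtain ⟨a, c⟩ := mem_filter.1 hz
    exact mem_filter.2 ⟨h.mem z a, by simp [h.side z a, c]⟩
  · obtain ⟨a, c⟩ := mem_filter.1 hz
    refine mem_filter.2 ⟨h.mem z a, ?_⟩
    rw [h.side z a]
    revert c
    cases s z <;> cases b <;> simp
  · exact h.inv z (mem_filter.1 hz).1
  · exact h.inv z (mem_filter.1 hz).1

lemma M0.irr_union [DecidableEq V] (h : M0 G Z σ s) (hS : Z ⊆ S) (hD : D ⊆ S) (hF : Far G D Z)
    (b : Bool) : irr G S (D ∪ Z.filter fun z => s z = b) := by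
  refine ⟨union_subset hD ((filter_subset _ _).trans hS), fun x hx => ?_⟩
  rcases mem_union.1 hx with hx | hx
  · refine ⟨x, hD hx, N.refl x, fun y hy e m => ?_⟩
    rcases mem_union.1 hy with hy | hy
    · exact m.elim e (hF.1 y hy x hx)
    · exact hF.2 x hx y (mem_filter.1 hy).1 m.symm
  · obtain ⟨a, c⟩ := mem_filter.1 hx
    refine ⟨σ x, hS (h.mem x a), Or.inr (h.adj x a), fun y hy e m => ?_⟩
    rcases mem_union.1 hy with hy | hy
    · exact hF.2 y hy _ (h.mem x a) m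
    · exact h.notN (mem_filter.1 hy).1 a (c.trans (mem_filter.1 hy).2.symm) e m

lemma M0.card_union [DecidableEq V] (h : M0 G Z σ s) (hF : Far G D Z) (b : Bool) :
    2 * (D ∪ Z.filter fun z => s z = b).card = Z.card + 2 * D.card := by
  rw [card_union_of_disjoint (disjoint_left.2 fun a ha m =>
    hF.2 a ha a (mem_filter.1 m).1 (N.refl a)), ← h.card_half b]
  ring

lemma M0.irr_side (h : M0 G Z σ s) (hS : Z ⊆ S) (b : Bool) :
    irr G S (Z.filter fun z => s z = b) := by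
  classical
  simpa using h.irr_union hS (D := ∅) (empty_subset _) ⟨by simp, by simp only [notMem_empty, IsEmpty.forall_iff, implies_true]⟩ b

/-- Every vertex of a core has a neighbour on its own side. -/
lemma Cr.nbr (h : Cr G Z σ s) {z : V} (hz : z ∈ Z) :
    ∃ b ∈ Z, G.Adj z b ∧ b ≠ σ z ∧ s b = s z := by
  by_contra n
  refine h.core (fun a => a = z) ?_ ?_ z hz rfl
  · rintro a - b - rfl rfl m
    exact m.ne rfl
  · rintro a - b hb rfl m e
    exact (n ⟨b, hb, m, e, (h.uniq a hz b hb m).resolve_right e⟩).elim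

/-- A colour class that contains the partner of `z` is closed. -/
lemma Cr.col (h : Cr G Z σ s) (κ : V → Bool) {z : V} (hz : z ∈ Z)
    (h1 : ∀ a ∈ Z, ∀ b ∈ Z, a ≠ z → b ≠ z → G.Adj a b → κ a = κ (σ z) → κ b ≠ κ (σ z))
    (h2 : ∀ b ∈ Z, b ≠ z → σ b ≠ z → κ b ≠ κ (σ z) → κ (σ b) = κ (σ z)) : False := by
  refine h.core (fun a => a ≠ z ∧ κ a = κ (σ z)) ?_ ?_ _ (h.mem z hz) ⟨(h.adj z hz).ne', rfl⟩
  · exact fun a ha b hb ea eb m => h1 a ha b hb ea.1 eb.1 m ea.2 eb.2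
  · intro a ha b hb ea m _
    by_cases e : b = z
    · subst e
      exact ⟨(h.adj b hb).ne', rfl⟩
    · have c := h1 a ha b hb ea.1 e m ea.2
      have e' : σ b ≠ z := fun l => c (by rw [← l, h.inv b hb])
      exact ⟨e', h2 b hb e e' c⟩

/-- A nonempty core does not become bipartite by deleting one vertex. -/
lemma Cr.bip (h : Cr G Z σ s) (κ : V → Bool) (z : V) (hne : Z.Nonempty)
    (h1 : ∀ a ∈ Z, ∀ b ∈ Z, a ≠ z → b ≠ z → G.Adj a b → κ a ≠ κ b) : False := by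
  wlog hz : z ∈ Z generalizing z
  · obtain ⟨y, hy⟩ := hne
    exact this y (fun a ha b hb _ _ => h1 a ha b hb (fun e => hz (e ▸ ha)) fun e => hz (e ▸ hb)) hy
  refine h.col κ hz (fun a ha b hb ea eb m e e' => h1 a ha b hb ea eb m (e.trans e'.symm))
    fun b hb e e' c => ?_
  have := h1 b hb _ (h.mem b hb) e e' (h.adj b hb)
  revert c this
  cases κ b <;> cases κ (σ b) <;> cases κ (σ z) <;> simp

lemma exists_M0 [DecidableEq V] (hX : irr G S X) : ∃ Z σ s D, M0 G Z σ s ∧ Z ⊆ S ∧ D ⊆ S ∧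
    Far G D Z ∧ X = D ∪ Z.filter fun z => s z = true := by
  classical
  choose! p hpS hp1 hp2 using hX.2
  let P := X.filter fun x => ∃ y ∈ X, G.Adj x y
  have hP : ∀ x ∈ P, x ∈ X := fun x hx => (mem_filter.1 hx).1
  have h1 : ∀ x ∈ P, p x ∉ X := fun x hx h => by
    by_cases e : p x = x
    · obtain ⟨x', hx', a⟩ := (mem_filter.1 hx).2
      exact hp2 x (hP x hx) x' hx' a.ne' (Or.inr (by rw [e]; exact a.symm))
    · exact hp2 x (hP x hx) _ h e (N.refl _)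
  have h1' : ∀ x ∈ P, p x ∉ P := fun x hx h => h1 x hx (hP _ h)
  have h2 : ∀ x ∈ P, G.Adj x (p x) := fun x hx =>
    (hp1 x (hP x hx)).resolve_left fun e => h1' x hx (e ▸ hx)
  have h3 : ∀ x ∈ P, ∀ y ∈ X, G.Adj y (p x) → y = x := fun x hx y hy a =>
    by_contra fun e => hp2 x (hP x hx) y hy e (Or.inr a)
  have h4 : Set.InjOn p P := fun x hx y hy e => h3 y hy x (hP x hx) (e ▸ h2 x hx)
  have h5 : ∀ y ∈ P.image p, ∃ x ∈ P, p x = y := fun y hy => mem_image.1 hy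
  choose! q hq1 hq2 using h5
  have h6 : ∀ x ∈ P, q (p x) = x := fun x hx =>
    h4 (hq1 _ (mem_image_of_mem p hx)) hx (hq2 _ (mem_image_of_mem p hx))
  refine ⟨P ∪ P.image p, fun z => if z ∈ P then p z else q z, fun z => decide (z ∈ P),
    X.filter fun x => ¬∃ y ∈ X, G.Adj x y, ⟨?_, ?_, ?_, ?_, ?_⟩,
    union_subset (fun x hx => hX.1 (hP x hx)) fun y hy => ?_, (filter_subset _ _).trans hX.1,
    ⟨fun a ha b hb m => (mem_filter.1 ha).2 ⟨b, (mem_filter.1 hb).1, m⟩, fun d hd z hz m => ?_⟩, ?_⟩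
  · intro z hz
    split_ifs with a
    · exact mem_union_right _ (mem_image_of_mem p a)
    · exact mem_union_left _ (hq1 z ((mem_union.1 hz).resolve_left a))
  · intro z hz
    by_cases a : z ∈ P
    · simp [a, h1' z a, h6 z a]
    · have b := (mem_union.1 hz).resolve_left a
      simp [a, hq1 z b, hq2 z b]
  · intro z hz
    by_cases a : z ∈ P
    · simp [a, h1' z a]
    · simp [a, hq1 z ((mem_union.1 hz).resolve_left a)]
  · intro z hz
    split_ifs with a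
    · exact h2 z a
    · have b := (mem_union.1 hz).resolve_left a
      have := (h2 _ (hq1 z b)).symm
      rwa [hq2 z b] at this
  · intro z hz z' hz' e
    by_cases a : z ∈ P <;> by_cases a' : z' ∈ P
    · simp [a, a']
    · obtain ⟨x, hx, rfl⟩ := mem_image.1 ((mem_union.1 hz').resolve_left a')
      simp [hx, h3 x hx z (hP z a) e]
    · obtain ⟨x, hx, rfl⟩ := mem_image.1 ((mem_union.1 hz).resolve_left a)
      simp [a, h6 x hx, h3 x hx z' (hP z' a') e.symm]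
    · simp [a, a']
  · obtain ⟨x, hx, rfl⟩ := mem_image.1 hy
    exact hpS x (hP x hx)
  · obtain ⟨d1, d2⟩ := mem_filter.1 hd
    rcases mem_union.1 hz with hz | hz
    · rcases m with rfl | m
      · exact d2 (mem_filter.1 hz).2
      · exact d2 ⟨z, hP z hz, m⟩
    · obtain ⟨x, hx, rfl⟩ := mem_image.1 hz
      exact hp2 x (hP x hx) d d1 (fun e => d2 (e ▸ (mem_filter.1 hx).2)) m
  · ext x
    simp only [mem_union, mem_filter, decide_eq_true_eq, P]
    by_cases c : ∃ y ∈ X, G.Adj x y <;> simp only [c, not_true_eq_false, and_false, and_true, mem_image, mem_filter, false_or, iff_and_self, not_false_eq_true, or_false]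
    tauto

lemma M0.reduce [DecidableEq V] (Z : Finset V) : ∀ D, M0 G Z σ s → Far G D Z →
    ∃ Z' D', Cr G Z' σ s ∧ Z' ⊆ Z ∧ D' ⊆ D ∪ Z ∧ D ⊆ D' ∧ Far G D' Z' ∧
      Z'.card + 2 * D'.card = Z.card + 2 * D.card ∧ (D' = ∅ → Z' = Z) := by
  classical
  induction Z using Finset.strongInduction with
  | H Z ih =>
    intro D h hF
    by_cases hc : Cr G Z σ s
    · exact ⟨Z, D, hc, Subset.rfl, subset_union_left, Subset.rfl, hF, rfl, fun _ => rfl⟩
    obtain ⟨A, a1, a2, a, ha, hA⟩ : ∃ A : V → Prop, (∀ a ∈ Z, ∀ b ∈ Z, A a → A b → ¬G.Adj a b) ∧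
        (∀ a ∈ Z, ∀ b ∈ Z, A a → G.Adj a b → b ≠ σ a → A (σ b)) ∧ ∃ a ∈ Z, A a := by
      by_contra n
      exact hc ⟨h, fun A a1 a2 a ha hA => n ⟨A, a1, a2, a, ha, hA⟩⟩
    let Z1 := Z.filter fun z => ¬A z ∧ ¬A (σ z)
    let B := Z.filter A
    have hZ1 : ∀ z, z ∈ Z1 ↔ z ∈ Z ∧ ¬A z ∧ ¬A (σ z) := fun z => mem_filter
    have hB : ∀ z, z ∈ B ↔ z ∈ Z ∧ A z := fun z => mem_filter
    have h1 : M0 G Z1 σ s :=
      ⟨fun z hz => by
        obtain ⟨b1, b2, b3⟩ := (hZ1 z).1 hz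
        exact (hZ1 _).2 ⟨h.mem z b1, b3, by rwa [h.inv z b1]⟩,
      fun z hz => h.inv z ((hZ1 z).1 hz).1, fun z hz => h.side z ((hZ1 z).1 hz).1,
      fun z hz => h.adj z ((hZ1 z).1 hz).1,
      fun z hz z' hz' => h.uniq z ((hZ1 z).1 hz).1 z' ((hZ1 z').1 hz').1⟩
    have hF1 : Far G (D ∪ B) Z1 := by
      constructor
      · intro x hx y hy m
        rcases mem_union.1 hx with hx | hx <;> rcases mem_union.1 hy with hy | hy
        · exact hF.1 x hx y hy m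
        · exact hF.2 x hx y ((hB y).1 hy).1 (Or.inr m)
        · exact hF.2 y hy x ((hB x).1 hx).1 (Or.inr m.symm)
        · exact a1 x ((hB x).1 hx).1 y ((hB y).1 hy).1 ((hB x).1 hx).2 ((hB y).1 hy).2 m
      · intro d hd z hz m
        obtain ⟨b1, b2, b3⟩ := (hZ1 z).1 hz
        rcases mem_union.1 hd with hd | hd
        · exact hF.2 d hd z b1 m
        · obtain ⟨c1, c2⟩ := (hB d).1 hd
          rcases m with rfl | m
          · exact b2 c2
          · exact b3 (a2 d c1 z b1 c2 m fun e => b3 (by rwa [e, h.inv d c1]))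
    have hc1 : Z1.card + 2 * B.card = Z.card := by
      have e1 := card_filter_add_card_filter_not (s := Z) A
      have e2 := card_filter_add_card_filter_not (s := Z.filter fun z => ¬A z) fun z => A (σ z)
      have e3 : ((Z.filter fun z => ¬A z).filter fun z => A (σ z)).card = B.card := by
        refine card_nbij' σ σ (fun z hz => ?_) (fun z hz => ?_) (fun z hz => ?_) fun z hz => ?_
        · obtain ⟨b1, b2⟩ := mem_filter.1 hz
          exact (hB _).2 ⟨h.mem z (mem_filter.1 b1).1, b2⟩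
        · obtain ⟨b1, b2⟩ := (hB z).1 hz
          exact mem_filter.2 ⟨mem_filter.2 ⟨h.mem z b1, fun m =>
            a1 z b1 _ (h.mem z b1) b2 m (h.adj z b1)⟩, by rwa [h.inv z b1]⟩
        · exact h.inv z (mem_filter.1 (mem_filter.1 hz).1).1
        · exact h.inv z ((hB z).1 hz).1
      rw [filter_filter, filter_filter] at e2
      rw [filter_filter] at e3
      simp only [Z1, B] at e3 ⊢
      omega
    obtain ⟨Z', D', b1, b2, b3, b4, b5, b6, -⟩ := ih Z1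
      (filter_ssubset.2 ⟨a, ha, fun m => m.1 hA⟩) (D ∪ B) h1 hF1
    refine ⟨Z', D', b1, b2.trans (filter_subset _ _), fun x hx => ?_,
      subset_union_left.trans b4, b5, ?_, fun e => ?_⟩
    · have := b3 hx
      simp only [mem_union, hB, hZ1] at this ⊢
      tauto
    · rw [card_union_of_disjoint (disjoint_left.2 fun x hx m =>
        hF.2 x hx x ((hB x).1 m).1 (N.refl x))] at b6
      omega
    · have := b4 (mem_union_right _ ((hB a).2 ⟨ha, hA⟩))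
      rw [e] at this
      exact (notMem_empty _ this).elim

/-- Reduction of an irredundant set to a core and an independent set far from it. -/
lemma red (hX : irr G S X) : ∃ Z σ s D, Cr G Z σ s ∧ Z ⊆ S ∧ D ⊆ S ∧ Far G D Z ∧
    Z.card + 2 * D.card = 2 * X.card ∧ (D = ∅ → ∀ x ∈ X, x ∈ Z ∧ s x = true) := by
  classical
  obtain ⟨Z, σ, s, D, h, a1, a2, a3, a4⟩ := exists_M0 hX
  obtain ⟨Z', D', b1, b2, b3, b4, b5, b6, b7⟩ := M0.reduce Z D h a3
  refine ⟨Z', σ, s, D', b1, b2.trans a1, b3.trans (union_subset a2 a1), b5, ?_, fun e x hx => ?_⟩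
  · rw [b6, a4, h.card_union a3]
  · rw [b7 e]
    rw [e, subset_empty] at b4
    rw [a4, b4, empty_union] at hx
    exact mem_filter.1 hx

lemma M0.cr (h : M0 G Z σ s) (hS : Z ⊆ S) (hN : NI G S k) (hk : Z.card = 2 * k) : Cr G Z σ s := by
  classical
  obtain ⟨Z', D, a1, a2, a3, -, a4, a5, a6⟩ := M0.reduce Z ∅ h ⟨by simp, by simp only [notMem_empty, IsEmpty.forall_iff, implies_true]⟩
  have e : D = ∅ := eq_empty_of_forall_notMem fun d hd => by
    have := a1.toM0.card_union a4 true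
    obtain ⟨y, hy, l⟩ := hN _ (a1.toM0.irr_union (a2.trans hS) (a3.trans (by simpa using hS)) a4 true)
      (by simp at a5; omega) d (mem_union_left _ hd)
    rcases mem_union.1 hy with hy | hy
    · exact a4.1 d hd y hy l
    · exact a4.2 d hd y (mem_filter.1 hy).1 (Or.inr l)
  exact a6 e ▸ a1

/-- A vertex that is not dominated by one side has two neighbours in the other side. -/
lemma M0.two (h : M0 G Z σ s) (hS : Z ⊆ S) (hN : NI G S k) (hk : Z.card = 2 * k) {b : Bool} {u : V}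
    (hu : u ∈ S) (n : ∀ z ∈ Z, s z = b → ¬N G z u) :
    u ∉ Z ∧ ∃ p ∈ Z, ∃ q ∈ Z, p ≠ q ∧ G.Adj u p ∧ G.Adj u q := by
  classical
  have huZ : u ∉ Z := fun hz => by
    by_cases c : s u = b
    · exact n u hz c (N.refl u)
    · refine n _ (h.mem u hz) ?_ (Or.inr (h.adj u hz).symm)
      rw [h.side u hz]
      revert c
      cases s u <;> cases b <;> simp
  refine ⟨huZ, by_contra fun m => ?_⟩
  let P := Z.filter fun z => s z = b
  let Y := P.filter fun z => ¬G.Adj u (σ z)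
  have hI : irr G S (insert u Y) := by
    refine ⟨insert_subset hu (((filter_subset _ _).trans (filter_subset _ _)).trans hS),
      fun x hx => ?_⟩
    rcases mem_insert.1 hx with rfl | hx
    · refine ⟨x, hu, N.refl x, fun y hy e => ?_⟩
      obtain ⟨c1, c2⟩ := mem_filter.1 (mem_filter.1 ((mem_insert.1 hy).resolve_left e)).1
      exact n y c1 c2
    · obtain ⟨c0, c3⟩ := mem_filter.1 hx
      obtain ⟨c1, c2⟩ := mem_filter.1 c0
      refine ⟨σ x, hS (h.mem x c1), Or.inr (h.adj x c1), fun y hy e l => ?_⟩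
      rcases mem_insert.1 hy with rfl | hy
      · exact l.elim (fun l => huZ (l ▸ h.mem x c1)) c3
      · obtain ⟨d1, d2⟩ := mem_filter.1 (mem_filter.1 hy).1
        exact h.notN d1 c1 (c2.trans d2.symm) e l
  have e1 := card_filter_add_card_filter_not (s := P) fun z => G.Adj u (σ z)
  have e2 : (P.filter fun z => G.Adj u (σ z)).card ≤ 1 := card_le_one.2 fun x hx y hy => by
    obtain ⟨c0, c3⟩ := mem_filter.1 hx
    obtain ⟨d0, d3⟩ := mem_filter.1 hy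
    have c1 := (mem_filter.1 c0).1
    have d1 := (mem_filter.1 d0).1
    exact by_contra fun e => m ⟨_, h.mem x c1, _, h.mem y d1, fun l => e (h.inj c1 d1 l), c3, d3⟩
  have e3 := h.card_half b
  have e4 : u ∉ Y := fun l => huZ (mem_filter.1 (mem_filter.1 l).1).1
  obtain ⟨y, hy, l⟩ := hN _ hI (by rw [card_insert_of_notMem e4]; simp only [P, Y] at *; omega) u
    (mem_insert_self _ _)
  obtain ⟨c1, c2⟩ := mem_filter.1 (mem_filter.1 ((mem_insert.1 hy).resolve_left l.ne')).1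
  exact n y c1 c2 (Or.inr l.symm)

/-- Upper domination and upper irredundance agree on all subsets of `U`. -/
def Perf (G : SimpleGraph V) (U : Finset V) : Prop :=
  ∀ S ⊆ U, ∀ X, irr G S X → ∃ D, irr G S D ∧ dom G S D ∧ X.card ≤ D.card

/-- Independence number and upper irredundance differ on some subset of `U`. -/
def Imp (G : SimpleGraph V) (U : Finset V) : Prop :=
  ∃ S ⊆ U, ∃ X, irr G S X ∧ ∀ I ⊆ S, (∀ x ∈ I, ∀ y ∈ I, ¬G.Adj x y) → I.card < X.card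

lemma perf_of (H : ∀ S ⊆ U, ∀ k Z σ s, Cr G Z σ s → Z ⊆ S → NI G S k → Z.card = 2 * k →
    ∃ D, irr G S D ∧ dom G S D ∧ k ≤ D.card) : Perf G U := by
  classical
  intro S
  induction S using Finset.strongInduction with
  | H S ih =>
    intro hU X hX
    by_cases hN : NI G S X.card
    · obtain ⟨Z, σ, s, D, a1, a2, a3, a4, a5, -⟩ := red hX
      have e : D = ∅ := eq_empty_of_forall_notMem fun d hd => by
        have := a1.toM0.card_union a4 true
        obtain ⟨y, hy, l⟩ := hN _ (a1.toM0.irr_union a2 a3 a4 true) (by omega) d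
          (mem_union_left _ hd)
        rcases mem_union.1 hy with hy | hy
        · exact a4.1 d hd y hy l
        · exact a4.2 d hd y (mem_filter.1 hy).1 (Or.inr l)
      exact H S hU _ Z σ s a1 a2 hN (by simpa [e] using a5)
    · unfold NI at hN
      push Not at hN
      obtain ⟨Y, hY, hk, x, hx, hi⟩ := hN
      obtain ⟨D, a1, a2, a3⟩ := ih _ (filter_ssubset.2 ⟨x, hY.1 hx, fun m => m (N.refl x)⟩)
        ((filter_subset _ _).trans hU) _ (irr_erase hY hx hi)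
      have b1 : ∀ d ∈ D, ¬N G x d := fun d hd => (mem_filter.1 (a1.1 hd)).2
      refine ⟨insert x D, ⟨insert_subset (hY.1 hx) (a1.1.trans (filter_subset _ _)),
        fun d hd => ?_⟩, fun v hv => ?_, ?_⟩
      · rcases mem_insert.1 hd with rfl | hd
        · exact ⟨d, hY.1 hx, N.refl d, fun y hy e m =>
            b1 y ((mem_insert.1 hy).resolve_left e) m.symm⟩
        · obtain ⟨p, c1, c2, c3⟩ := a1.2 d hd
          refine ⟨p, (mem_filter.1 c1).1, c2, fun y hy e => ?_⟩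
          rcases mem_insert.1 hy with rfl | hy
          · exact (mem_filter.1 c1).2
          · exact c3 y hy e
      · by_cases m : N G x v
        · exact ⟨x, mem_insert_self _ _, m⟩
        · obtain ⟨d, c1, c2⟩ := a2 v (mem_filter.2 ⟨hv, m⟩)
          exact ⟨d, mem_insert_of_mem c1, c2⟩
      · rw [card_insert_of_notMem fun m => b1 x m (N.refl x)]
        rw [card_erase_of_mem hx] at a3
        omega

/-- The weight of a matched set and an independent set far from it, counted along a perfect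
matching of `T`. -/
lemma M0.weight [DecidableEq V] {T : Finset V} {ν : V → V} {t : V → Bool} (h : M0 G T ν t)
    (hZ : Z ⊆ T) (hF : Far G D Z) (E : Finset V)
    (hE : ∀ e ∈ E, e ∈ T ∧ t e = true ∧ e ∉ Z ∧ e ∉ D ∧ ν e ∉ Z ∧ ν e ∉ D) :
    Z.card + 2 * (D ∩ T).card + 2 * E.card ≤ T.card ∧
      (T.card ≤ Z.card + 2 * (D ∩ T).card + 2 * E.card → ∀ u ∈ T, u ∉ E → ν u ∉ E →
        (u ∈ Z ∧ ν u ∈ Z) ∨ u ∈ D ∨ ν u ∈ D) := by
  let w : V → ℕ := fun u => if u ∈ Z then 1 else if u ∈ D then 2 else 0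
  let g : V → ℕ := fun u => w u + w (ν u) + ((if u ∈ E then 2 else 0) + if ν u ∈ E then 2 else 0)
  have sw : ∀ f : V → ℕ, ∑ u ∈ T, f (ν u) = ∑ u ∈ T, f u := fun f =>
    sum_nbij' ν ν h.mem h.mem h.inv h.inv fun _ _ => rfl
  have s1 : ∑ u ∈ T, w u = Z.card + 2 * (D ∩ T).card := by
    have : ∀ u ∈ T, w u = (if u ∈ Z then 1 else 0) + if u ∈ D then 2 else 0 := fun u _ => by
      by_cases c : u ∈ Z
      · have : u ∉ D := fun m => hF.2 u m u c (N.refl u)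
        simp [w, c, this]
      · simp [w, c]
    rw [sum_congr rfl this, sum_add_distrib]
    simp [inter_eq_right.2 hZ, mul_comm, inter_comm]
  have s2 : ∑ u ∈ T, (if u ∈ E then 2 else 0) = 2 * E.card := by
    simp [inter_eq_right.2 (show E ⊆ T from fun e he => (hE e he).1), mul_comm]
  have s3 : ∑ u ∈ T, g u = 2 * (Z.card + 2 * (D ∩ T).card + 2 * E.card) := by
    simp only [g, sum_add_distrib]
    rw [sw w, sw fun u => if u ∈ E then 2 else 0, s1, s2]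
    ring
  have le : ∀ u ∈ T, g u ≤ 2 := fun u hu => by
    have a1 := h.adj u hu
    have a2 := hE u
    have a3 := hE (ν u)
    have a4 := h.inv u hu
    have a5 := h.side u hu
    have b1 := hF.1 u
    have b2 := fun m => hF.2 u m (ν u)
    have b3 := fun m => hF.2 (ν u) m u
    simp only [N, G.adj_comm (ν u), a1, or_true] at b2 b3
    simp only [g, w]
    grind
  have s4 : ∑ u ∈ T, g u ≤ ∑ u ∈ T, 2 := sum_le_sum le
  have s5 : ∑ u ∈ T, 2 = 2 * T.card := by simp [mul_comm]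
  refine ⟨by omega, fun l u hu e1 e2 => ?_⟩
  have := (sum_eq_sum_iff_of_le le).1 (by omega) u hu
  simp only [g, w] at this
  grind

end Pool.Agent.MP_55bf9a_co.P2

/-!
The ladder graph of a quantified formula.
-/

namespace Pool.Agent.MP_55bf9a_co.P2

open Finset

/-- Kinds of vertices. -/
inductive Tg
  | a | f | c | e1 | e2 | e3 | e4 | e5 | a2 | g | c2 | h1 | h2 | h3 | h4 | h5
  | q1 | q2 | q3 | q4 | q5 | q6 | x1 | y1 | y2 | x2
  | y3 (b : Bool) | x3 (b : Bool) | x4 (b : Bool) | y4 (b : Bool) | w | v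
  deriving DecidableEq, Fintype

open Tg

/-- Neighbours in the same cell. -/
def n0 : Tg → List Tg
  | a => [f, e5] | f => [a, c, q1] | c => [f, e1, y3 false, y3 true]
  | e1 => [c, e2] | e2 => [e1, e3] | e3 => [e2, e4] | e4 => [e3, e5] | e5 => [e4, a]
  | a2 => [g, h5, x1, v] | g => [a2, c2, q6] | c2 => [g, h1]
  | h1 => [c2, h2] | h2 => [h1, h3] | h3 => [h2, h4] | h4 => [h3, h5] | h5 => [h4, a2]
  | q1 => [f, q2, q4] | q2 => [q1, q3] | q3 => [q2, q4, q6] | q4 => [q1, q3, q5]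
  | q5 => [q4, q6] | q6 => [g, q3, q5]
  | x1 => [a2, y1, v] | y1 => [x1, y2] | y2 => [y1, x2] | x2 => [y2]
  | y3 b => [c, x3 b] | x3 b => [y3 b, x4 b, v] | x4 b => [x3 b, y4 b, v] | y4 b => [x4 b]
  | w => [] | v => [a2, x1, x3 false, x3 true, x4 false, x4 true]

/-- Neighbours in the next cell. -/
def up : Tg → List Tg
  | x2 => [a] | y4 _ => [c2] | _ => []

/-- Neighbours in the previous cell. -/
def dn : Tg → List Tg
  | a => [x2] | c2 => [y4 false, y4 true] | _ => []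

/-- Neighbours in the first cell of vertices of the last cell. -/
def wu : Tg → List Tg
  | x2 => [a2] | y4 _ => [c] | _ => []

/-- Neighbours in the last cell of vertices of the first cell. -/
def wd : Tg → List Tg
  | a2 => [x2] | c => [y4 false, y4 true] | _ => []

/-- The extra edge of the first cell. -/
def z0 : Tg → List Tg
  | a2 => [c] | c => [a2] | _ => []

/-- Kinds joined to all clause vertices. -/
def yy : Tg → Bool
  | c | c2 | y1 | y2 | y3 _ | y4 _ => true | _ => false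

/-- The literal carried by a kind: universal or not, and the sign. -/
def lt : Tg → List (Bool × Bool)
  | x3 b | x4 b => [(true, b)] | f | q1 => [(false, true)] | g | q6 => [(false, false)] | _ => []

/-- The first cell in which a kind occurs. -/
def lo : Tg → ℕ
  | a2 | c | x1 | y1 | y2 | x2 | y3 false | x3 false | x4 false | y4 false | w | v => 0
  | _ => 1

abbrev Vx : Type := ℕ × Tg

variable (n m : ℕ) (K : ℕ → ℕ → Bool → Bool → Prop)

/-- Clause vertex `j` is joined to `u`. -/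
def att (j : ℕ) (u : Vx) : Prop := yy u.2 = true ∨ (u.1 ≠ 0 ∧ ∃ p ∈ lt u.2, K j u.1 p.1 p.2)

/-- Adjacency away from the clause vertices. -/
def cadj (u z : Vx) : Prop :=
  (u.1 = z.1 ∧ z.2 ∈ n0 u.2) ∨ (z.1 = u.1 + 1 ∧ z.2 ∈ up u.2) ∨ (u.1 = z.1 + 1 ∧ z.2 ∈ dn u.2) ∨
    (u.1 = n ∧ z.1 = 0 ∧ z.2 ∈ wu u.2) ∨ (u.1 = 0 ∧ z.1 = n ∧ z.2 ∈ wd u.2) ∨
    (u.1 = 0 ∧ z.1 = 0 ∧ z.2 ∈ z0 u.2)

lemma tab_symm : ∀ t t' : Tg, (t' ∈ n0 t → t ∈ n0 t') ∧ (t' ∈ up t ↔ t ∈ dn t') ∧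
    (t' ∈ wu t ↔ t ∈ wd t') ∧ (t' ∈ z0 t → t ∈ z0 t') := by decide +kernel

lemma tab_irr : ∀ t : Tg, t ∉ n0 t ∧ t ∉ wu t ∧ t ∉ wd t ∧ t ∉ z0 t ∧ w ∉ n0 t ∧ w ∉ up t ∧
    w ∉ dn t ∧ w ∉ wu t ∧ w ∉ wd t ∧ w ∉ z0 t := by decide +kernel

lemma up_v : ∀ t : Tg, v ∉ up t := by decide +kernel

lemma cadj_symm {u z : Vx} (h : cadj n u z) : cadj n z u := by
  have h1 := tab_symm u.2 z.2
  have h2 := tab_symm z.2 u.2
  unfold cadj at h ⊢
  grind

/-- The graph. -/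
def gr : SimpleGraph Vx where
  Adj u z := cadj n u z ∨ (u.2 = w ∧ att K u.1 z) ∨ (z.2 = w ∧ att K z.1 u) ∨
    (u.2 = w ∧ z.2 = w ∧ u.1 ≠ z.1)
  symm := ⟨fun u z h => by
    have := cadj_symm n (u := u) (z := z)
    grind⟩
  loopless := ⟨fun u h => by
    have h1 := tab_irr u.2
    have h2 : u.2 = w → ¬att K u.1 u := fun e => by simp [att, e, yy, lt]
    unfold cadj at h
    grind⟩

/-- The vertices in use. -/
def val (u : Vx) : Prop :=
  lo u.2 ≤ u.1 ∧ if u.2 = w then u.1 < m else if u.2 = v then u.1 = 0 else u.1 ≤ n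

/-- The right end of the first chain. -/
def R1 (i : ℕ) : Vx := if i = n then (0, a2) else (i + 1, a)

/-- The right end of the second chain. -/
def R2 (i : ℕ) : Vx := if i = n then (0, c) else (i + 1, c2)

/-- The list of possible neighbours other than clause vertices. -/
def nl (u : Vx) : List Vx :=
  ((n0 u.2).filter fun t => if u.1 = 0 then lo t = 0 else t ≠ v).map (fun t => (u.1, t)) ++
    (if u.1 = n then (wu u.2).map fun t => (0, t) else (up u.2).map fun t => (u.1 + 1, t)) ++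
    (if u.1 = 0 then (wd u.2).map (fun t => (n, t)) ++ (z0 u.2).map fun t => (0, t)
      else (dn u.2).map fun t => (u.1 - 1, t))

variable {n m K}

lemma cadj_w {u z : Vx} (h : cadj n u z) : z.2 ≠ w := by
  have h1 := tab_irr u.2
  unfold cadj at h
  grind

lemma mem_nl {u z : Vx} (hz : val n m z) (h : cadj n u z) : z ∈ nl n u := by
  have hw := cadj_w h
  obtain ⟨i, t⟩ := u
  obtain ⟨j, t'⟩ := z
  have h1 := up_v t
  simp only [val, cadj, nl, List.mem_append, List.mem_map, List.mem_filter, Prod.mk.injEq] at *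
  rcases h with ⟨rfl, h⟩ | ⟨rfl, h⟩ | ⟨rfl, h⟩ | ⟨rfl, rfl, h⟩ | ⟨rfl, rfl, h⟩ | ⟨rfl, rfl, h⟩
  · refine Or.inl (Or.inl ⟨t', ⟨h, ?_⟩, rfl, rfl⟩)
    grind
  · have : i ≠ n := by grind
    simp only [↓ existsAndEq, ne_eq, decide_not, Bool.ite_eq_true_distrib, decide_eq_true_eq, Bool.not_eq_eq_eq_not, Bool.not_true, decide_eq_false_iff_not, Nat.left_eq_add, one_ne_zero, and_true, and_false, this, ↓ reduceIte, List.mem_map, Prod.mk.injEq, Nat.add_left_cancel_iff, true_and, exists_eq_right, h, or_true, true_or]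
  · simp only [↓ existsAndEq, Nat.add_eq_zero_iff, one_ne_zero, and_false, ↓ reduceIte, ne_eq, decide_not, Bool.not_eq_eq_eq_not, Bool.not_true, decide_eq_false_iff_not, Nat.add_eq_left, and_true, false_or, add_tsub_cancel_right, List.mem_map, Prod.mk.injEq, true_and, exists_eq_right, h, or_true]
  · simp only [↓ existsAndEq, ne_eq, decide_not, Bool.ite_eq_true_distrib, decide_eq_true_eq, Bool.not_eq_eq_eq_not, Bool.not_true, decide_eq_false_iff_not, and_true, ↓ reduceIte, List.mem_map, Prod.mk.injEq, true_and, exists_eq_right, h, or_true, true_or]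
  · simp only [↓ existsAndEq, ↓ reduceIte, decide_eq_true_eq, and_true, zero_add, List.mem_append, List.mem_map, Prod.mk.injEq, true_and, exists_eq_right, h, exists_eq_right_right, true_or, or_true]
  · simp only [↓ existsAndEq, ↓ reduceIte, decide_eq_true_eq, and_self, and_true, zero_add, List.mem_append, List.mem_map, Prod.mk.injEq, exists_eq_right_right, true_and, exists_eq_right, h, or_true]

lemma adj_cases {u z : Vx} (hz : val n m z) (hu : u.2 ≠ w) (h : (gr n K).Adj u z) :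
    z ∈ nl n u ∨ (z.2 = w ∧ att K z.1 u) := by
  rcases h with h | h | h | h
  exacts [Or.inl (mem_nl hz h), (hu h.1).elim, Or.inr h, (hu h.1).elim]

lemma adj0 (i : ℕ) {t t' : Tg} (h : t' ∈ n0 t) : (gr n K).Adj (i, t) (i, t') :=
  Or.inl (Or.inl ⟨rfl, h⟩)

lemma adjR1 (i : ℕ) : (gr n K).Adj (i, x2) (R1 n i) := by
  unfold R1
  split_ifs with h <;> simp only [gr, cadj, up, wu, ne_eq, h, Nat.right_eq_add, Nat.add_eq_zero_iff, one_ne_zero, and_false, List.mem_cons, reduceCtorEq, List.not_mem_nil, or_self, and_self, zero_add, or_false, true_and, true_or, or_true, false_and, Nat.left_eq_add, Nat.add_left_cancel_iff, false_or, not_false_eq_true, and_true]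

lemma adjR2 (i : ℕ) (b : Bool) : (gr n K).Adj (i, y4 b) (R2 n i) := by
  unfold R2
  split_ifs with h <;> simp only [gr, cadj, up, wu, ne_eq, h, Nat.right_eq_add, Nat.add_eq_zero_iff, one_ne_zero, and_false, List.mem_cons, reduceCtorEq, List.not_mem_nil, or_self, and_self, zero_add, or_false, true_and, true_or, or_true, false_and, Nat.left_eq_add, Nat.add_left_cancel_iff, false_or, not_false_eq_true, and_true]

lemma adjT : (gr n K).Adj (0, a2) (0, c) := by simp only [gr, cadj, z0, ne_eq, true_and, zero_add, zero_ne_one, false_and, List.mem_cons, List.not_mem_nil, or_false, and_self, or_true, reduceCtorEq, not_true_eq_false, or_self]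

lemma adjW {j : ℕ} {u : Vx} (h : att K j u) : (gr n K).Adj (j, w) u := Or.inr (Or.inl ⟨rfl, h⟩)

lemma adjWW {j j' : ℕ} (h : j ≠ j') : (gr n K).Adj (j, w) (j', w) :=
  Or.inr (Or.inr (Or.inr ⟨rfl, rfl, h⟩))

/-- A core inside the graph of a formula. -/
structure Ctx (n m : ℕ) (K : ℕ → ℕ → Bool → Bool → Prop) (Z : Finset Vx) (σ : Vx → Vx)
    (s : Vx → Bool) : Prop extends Cr (gr n K) Z σ s where
  val : ∀ z ∈ Z, val n m z
  pos : n ≠ 0

/-- The partner of `u` is a clause vertex. -/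
def WP (K : ℕ → ℕ → Bool → Bool → Prop) (σ : Vx → Vx) (u : Vx) : Prop :=
  (σ u).2 = w ∧ att K (σ u).1 u

/-- Some clause vertex is a neighbour of `u` on the side of `u`. -/
def WS (K : ℕ → ℕ → Bool → Bool → Prop) (Z : Finset Vx) (σ : Vx → Vx) (s : Vx → Bool) (u : Vx) :
    Prop := ∃ j, (j, w) ∈ Z ∧ att K j u ∧ σ u ≠ (j, w) ∧ s (j, w) = s u

variable {Z : Finset Vx} {σ : Vx → Vx} {s : Vx → Bool}

lemma Ctx.loc (h : Ctx n m K Z σ s) {u : Vx} (hw : u.2 ≠ w) (hu : u ∈ Z) :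
    (σ u ∈ nl n u ∨ WP K σ u) ∧
      ((∃ b ∈ nl n u, b ∈ Z ∧ σ u ≠ b ∧ s b = s u) ∨ WS K Z σ s u) := by
  refine ⟨adj_cases (h.val _ (h.mem u hu)) hw (h.adj u hu), ?_⟩
  obtain ⟨b, a1, a2, a3, a4⟩ := h.toCr.nbr hu
  rcases adj_cases (h.val b a1) hw a2 with e | e
  · exact Or.inl ⟨b, e, a1, a3.symm, a4⟩
  · obtain ⟨j, t⟩ := b
    obtain ⟨rfl, e⟩ := e
    exact Or.inr ⟨j, a1, e, a3.symm, a4⟩

lemma Ctx.loc0 (h : Ctx n m K Z σ s) {u : Vx} (hw : u.2 ≠ w) (h1 : yy u.2 = false)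
    (h2 : lt u.2 = []) (hu : u ∈ Z) :
    σ u ∈ nl n u ∧ ∃ b ∈ nl n u, b ∈ Z ∧ σ u ≠ b ∧ s b = s u := by
  simpa only [ne_eq, Prod.exists, WP, att, h1, Bool.false_eq_true, h2, List.not_mem_nil, false_and, exists_const, and_false, or_self, or_false, WS] using h.loc hw hu

lemma Ctx.v0 (h : Ctx n m K Z σ s) {i : ℕ} (hi : (i, v) ∈ Z) : i = 0 := by
  simpa [P2.val] using (h.val _ hi).2

lemma Ctx.ed (h : Ctx n m K Z σ s) {p q : Vx} (e : (gr n K).Adj p q) (hp : p ∈ Z) (hq : q ∈ Z) :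
    (s q = s p ∧ σ p ≠ q ∧ σ q ≠ p) ∨ (σ p = q ∧ σ q = p ∧ s q = !s p) :=
  h.toCr.toM0.edge e hp hq

lemma Ctx.l_e1 (h : Ctx n m K Z σ s) (i : ℕ) (hu : (i + 1, e1) ∈ Z) :
    (σ (i + 1, e1) ∈ Z ∧ σ (σ (i + 1, e1)) = (i + 1, e1) ∧ s (σ (i + 1, e1)) = !s (i + 1, e1)) ∧
    (σ (i + 1, e1) = (i + 1, c) ∨ σ (i + 1, e1) = (i + 1, e2)) ∧
      (((i + 1, c) ∈ Z ∧ σ (i + 1, e1) ≠ (i + 1, c) ∧ s (i + 1, c) = s (i + 1, e1)) ∨
      ((i + 1, e2) ∈ Z ∧ σ (i + 1, e1) ≠ (i + 1, e2) ∧ s (i + 1, e2) = s (i + 1, e1))) := by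
  refine ⟨⟨h.mem _ hu, h.inv _ hu, h.side _ hu⟩, ?_⟩
  have := h.loc0 (by simp) rfl rfl hu
  simpa only [ne_eq, nl, Nat.add_eq_zero_iff, one_ne_zero, and_false, ↓ reduceIte, decide_not, n0, reduceCtorEq, decide_false, Bool.not_false, List.filter_cons_of_pos, List.filter_nil, List.map_cons, List.map_nil, wu, up, ite_self, List.append_nil, add_tsub_cancel_right, dn, List.mem_cons, List.not_mem_nil, or_false, exists_eq_or_imp, ↓ existsAndEq, true_and] using this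

lemma Ctx.l_e2 (h : Ctx n m K Z σ s) (i : ℕ) (hu : (i + 1, e2) ∈ Z) :
    (σ (i + 1, e2) ∈ Z ∧ σ (σ (i + 1, e2)) = (i + 1, e2) ∧ s (σ (i + 1, e2)) = !s (i + 1, e2)) ∧
    (σ (i + 1, e2) = (i + 1, e1) ∨ σ (i + 1, e2) = (i + 1, e3)) ∧
      (((i + 1, e1) ∈ Z ∧ σ (i + 1, e2) ≠ (i + 1, e1) ∧ s (i + 1, e1) = s (i + 1, e2)) ∨
      ((i + 1, e3) ∈ Z ∧ σ (i + 1, e2) ≠ (i + 1, e3) ∧ s (i + 1, e3) = s (i + 1, e2))) := by
  refine ⟨⟨h.mem _ hu, h.inv _ hu, h.side _ hu⟩, ?_⟩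
  have := h.loc0 (by simp) rfl rfl hu
  simpa only [ne_eq, nl, Nat.add_eq_zero_iff, one_ne_zero, and_false, ↓ reduceIte, decide_not, n0, reduceCtorEq, decide_false, Bool.not_false, List.filter_cons_of_pos, List.filter_nil, List.map_cons, List.map_nil, wu, up, ite_self, List.append_nil, add_tsub_cancel_right, dn, List.mem_cons, List.not_mem_nil, or_false, exists_eq_or_imp, ↓ existsAndEq, true_and] using this

lemma Ctx.l_e3 (h : Ctx n m K Z σ s) (i : ℕ) (hu : (i + 1, e3) ∈ Z) :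
    (σ (i + 1, e3) ∈ Z ∧ σ (σ (i + 1, e3)) = (i + 1, e3) ∧ s (σ (i + 1, e3)) = !s (i + 1, e3)) ∧
    (σ (i + 1, e3) = (i + 1, e2) ∨ σ (i + 1, e3) = (i + 1, e4)) ∧
      (((i + 1, e2) ∈ Z ∧ σ (i + 1, e3) ≠ (i + 1, e2) ∧ s (i + 1, e2) = s (i + 1, e3)) ∨
      ((i + 1, e4) ∈ Z ∧ σ (i + 1, e3) ≠ (i + 1, e4) ∧ s (i + 1, e4) = s (i + 1, e3))) := by
  refine ⟨⟨h.mem _ hu, h.inv _ hu, h.side _ hu⟩, ?_⟩
  have := h.loc0 (by simp) rfl rfl hu
  simpa only [ne_eq, nl, Nat.add_eq_zero_iff, one_ne_zero, and_false, ↓ reduceIte, decide_not, n0, reduceCtorEq, decide_false, Bool.not_false, List.filter_cons_of_pos, List.filter_nil, List.map_cons, List.map_nil, wu, up, ite_self, List.append_nil, add_tsub_cancel_right, dn, List.mem_cons, List.not_mem_nil, or_false, exists_eq_or_imp, ↓ existsAndEq, true_and] using this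

lemma Ctx.l_e4 (h : Ctx n m K Z σ s) (i : ℕ) (hu : (i + 1, e4) ∈ Z) :
    (σ (i + 1, e4) ∈ Z ∧ σ (σ (i + 1, e4)) = (i + 1, e4) ∧ s (σ (i + 1, e4)) = !s (i + 1, e4)) ∧
    (σ (i + 1, e4) = (i + 1, e3) ∨ σ (i + 1, e4) = (i + 1, e5)) ∧
      (((i + 1, e3) ∈ Z ∧ σ (i + 1, e4) ≠ (i + 1, e3) ∧ s (i + 1, e3) = s (i + 1, e4)) ∨
      ((i + 1, e5) ∈ Z ∧ σ (i + 1, e4) ≠ (i + 1, e5) ∧ s (i + 1, e5) = s (i + 1, e4))) := by
  refine ⟨⟨h.mem _ hu, h.inv _ hu, h.side _ hu⟩, ?_⟩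
  have := h.loc0 (by simp) rfl rfl hu
  simpa only [ne_eq, nl, Nat.add_eq_zero_iff, one_ne_zero, and_false, ↓ reduceIte, decide_not, n0, reduceCtorEq, decide_false, Bool.not_false, List.filter_cons_of_pos, List.filter_nil, List.map_cons, List.map_nil, wu, up, ite_self, List.append_nil, add_tsub_cancel_right, dn, List.mem_cons, List.not_mem_nil, or_false, exists_eq_or_imp, ↓ existsAndEq, true_and] using this

lemma Ctx.l_e5 (h : Ctx n m K Z σ s) (i : ℕ) (hu : (i + 1, e5) ∈ Z) :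
    (σ (i + 1, e5) ∈ Z ∧ σ (σ (i + 1, e5)) = (i + 1, e5) ∧ s (σ (i + 1, e5)) = !s (i + 1, e5)) ∧
    (σ (i + 1, e5) = (i + 1, e4) ∨ σ (i + 1, e5) = (i + 1, a)) ∧
      (((i + 1, e4) ∈ Z ∧ σ (i + 1, e5) ≠ (i + 1, e4) ∧ s (i + 1, e4) = s (i + 1, e5)) ∨
      ((i + 1, a) ∈ Z ∧ σ (i + 1, e5) ≠ (i + 1, a) ∧ s (i + 1, a) = s (i + 1, e5))) := by
  refine ⟨⟨h.mem _ hu, h.inv _ hu, h.side _ hu⟩, ?_⟩
  have := h.loc0 (by simp) rfl rfl hu
  simpa only [ne_eq, nl, Nat.add_eq_zero_iff, one_ne_zero, and_false, ↓ reduceIte, decide_not, n0, reduceCtorEq, decide_false, Bool.not_false, List.filter_cons_of_pos, List.filter_nil, List.map_cons, List.map_nil, wu, up, ite_self, List.append_nil, add_tsub_cancel_right, dn, List.mem_cons, List.not_mem_nil, or_false, exists_eq_or_imp, ↓ existsAndEq, true_and] using this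

lemma Ctx.l_h1 (h : Ctx n m K Z σ s) (i : ℕ) (hu : (i + 1, h1) ∈ Z) :
    (σ (i + 1, h1) ∈ Z ∧ σ (σ (i + 1, h1)) = (i + 1, h1) ∧ s (σ (i + 1, h1)) = !s (i + 1, h1)) ∧
    (σ (i + 1, h1) = (i + 1, c2) ∨ σ (i + 1, h1) = (i + 1, h2)) ∧
      (((i + 1, c2) ∈ Z ∧ σ (i + 1, h1) ≠ (i + 1, c2) ∧ s (i + 1, c2) = s (i + 1, h1)) ∨
      ((i + 1, h2) ∈ Z ∧ σ (i + 1, h1) ≠ (i + 1, h2) ∧ s (i + 1, h2) = s (i + 1, h1))) := by
  refine ⟨⟨h.mem _ hu, h.inv _ hu, h.side _ hu⟩, ?_⟩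
  have := h.loc0 (by simp) rfl rfl hu
  simpa only [ne_eq, nl, Nat.add_eq_zero_iff, one_ne_zero, and_false, ↓ reduceIte, decide_not, n0, reduceCtorEq, decide_false, Bool.not_false, List.filter_cons_of_pos, List.filter_nil, List.map_cons, List.map_nil, wu, up, ite_self, List.append_nil, add_tsub_cancel_right, dn, List.mem_cons, List.not_mem_nil, or_false, exists_eq_or_imp, ↓ existsAndEq, true_and] using this

lemma Ctx.l_h2 (h : Ctx n m K Z σ s) (i : ℕ) (hu : (i + 1, h2) ∈ Z) :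
    (σ (i + 1, h2) ∈ Z ∧ σ (σ (i + 1, h2)) = (i + 1, h2) ∧ s (σ (i + 1, h2)) = !s (i + 1, h2)) ∧
    (σ (i + 1, h2) = (i + 1, h1) ∨ σ (i + 1, h2) = (i + 1, h3)) ∧
      (((i + 1, h1) ∈ Z ∧ σ (i + 1, h2) ≠ (i + 1, h1) ∧ s (i + 1, h1) = s (i + 1, h2)) ∨
      ((i + 1, h3) ∈ Z ∧ σ (i + 1, h2) ≠ (i + 1, h3) ∧ s (i + 1, h3) = s (i + 1, h2))) := by
  refine ⟨⟨h.mem _ hu, h.inv _ hu, h.side _ hu⟩, ?_⟩
  have := h.loc0 (by simp) rfl rfl hu
  simpa only [ne_eq, nl, Nat.add_eq_zero_iff, one_ne_zero, and_false, ↓ reduceIte, decide_not, n0, reduceCtorEq, decide_false, Bool.not_false, List.filter_cons_of_pos, List.filter_nil, List.map_cons, List.map_nil, wu, up, ite_self, List.append_nil, add_tsub_cancel_right, dn, List.mem_cons, List.not_mem_nil, or_false, exists_eq_or_imp, ↓ existsAndEq, true_and] using this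

lemma Ctx.l_h3 (h : Ctx n m K Z σ s) (i : ℕ) (hu : (i + 1, h3) ∈ Z) :
    (σ (i + 1, h3) ∈ Z ∧ σ (σ (i + 1, h3)) = (i + 1, h3) ∧ s (σ (i + 1, h3)) = !s (i + 1, h3)) ∧
    (σ (i + 1, h3) = (i + 1, h2) ∨ σ (i + 1, h3) = (i + 1, h4)) ∧
      (((i + 1, h2) ∈ Z ∧ σ (i + 1, h3) ≠ (i + 1, h2) ∧ s (i + 1, h2) = s (i + 1, h3)) ∨
      ((i + 1, h4) ∈ Z ∧ σ (i + 1, h3) ≠ (i + 1, h4) ∧ s (i + 1, h4) = s (i + 1, h3))) := by
  refine ⟨⟨h.mem _ hu, h.inv _ hu, h.side _ hu⟩, ?_⟩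
  have := h.loc0 (by simp) rfl rfl hu
  simpa only [ne_eq, nl, Nat.add_eq_zero_iff, one_ne_zero, and_false, ↓ reduceIte, decide_not, n0, reduceCtorEq, decide_false, Bool.not_false, List.filter_cons_of_pos, List.filter_nil, List.map_cons, List.map_nil, wu, up, ite_self, List.append_nil, add_tsub_cancel_right, dn, List.mem_cons, List.not_mem_nil, or_false, exists_eq_or_imp, ↓ existsAndEq, true_and] using this

lemma Ctx.l_h4 (h : Ctx n m K Z σ s) (i : ℕ) (hu : (i + 1, h4) ∈ Z) :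
    (σ (i + 1, h4) ∈ Z ∧ σ (σ (i + 1, h4)) = (i + 1, h4) ∧ s (σ (i + 1, h4)) = !s (i + 1, h4)) ∧
    (σ (i + 1, h4) = (i + 1, h3) ∨ σ (i + 1, h4) = (i + 1, h5)) ∧
      (((i + 1, h3) ∈ Z ∧ σ (i + 1, h4) ≠ (i + 1, h3) ∧ s (i + 1, h3) = s (i + 1, h4)) ∨
      ((i + 1, h5) ∈ Z ∧ σ (i + 1, h4) ≠ (i + 1, h5) ∧ s (i + 1, h5) = s (i + 1, h4))) := by
  refine ⟨⟨h.mem _ hu, h.inv _ hu, h.side _ hu⟩, ?_⟩
  have := h.loc0 (by simp) rfl rfl hu
  simpa only [ne_eq, nl, Nat.add_eq_zero_iff, one_ne_zero, and_false, ↓ reduceIte, decide_not, n0, reduceCtorEq, decide_false, Bool.not_false, List.filter_cons_of_pos, List.filter_nil, List.map_cons, List.map_nil, wu, up, ite_self, List.append_nil, add_tsub_cancel_right, dn, List.mem_cons, List.not_mem_nil, or_false, exists_eq_or_imp, ↓ existsAndEq, true_and] using this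

lemma Ctx.l_h5 (h : Ctx n m K Z σ s) (i : ℕ) (hu : (i + 1, h5) ∈ Z) :
    (σ (i + 1, h5) ∈ Z ∧ σ (σ (i + 1, h5)) = (i + 1, h5) ∧ s (σ (i + 1, h5)) = !s (i + 1, h5)) ∧
    (σ (i + 1, h5) = (i + 1, h4) ∨ σ (i + 1, h5) = (i + 1, a2)) ∧
      (((i + 1, h4) ∈ Z ∧ σ (i + 1, h5) ≠ (i + 1, h4) ∧ s (i + 1, h4) = s (i + 1, h5)) ∨
      ((i + 1, a2) ∈ Z ∧ σ (i + 1, h5) ≠ (i + 1, a2) ∧ s (i + 1, a2) = s (i + 1, h5))) := by
  refine ⟨⟨h.mem _ hu, h.inv _ hu, h.side _ hu⟩, ?_⟩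
  have := h.loc0 (by simp) rfl rfl hu
  simpa only [ne_eq, nl, Nat.add_eq_zero_iff, one_ne_zero, and_false, ↓ reduceIte, decide_not, n0, reduceCtorEq, decide_false, Bool.not_false, List.filter_cons_of_pos, List.filter_nil, List.map_cons, List.map_nil, wu, up, ite_self, List.append_nil, add_tsub_cancel_right, dn, List.mem_cons, List.not_mem_nil, or_false, exists_eq_or_imp, ↓ existsAndEq, true_and] using this

lemma Ctx.l_q2 (h : Ctx n m K Z σ s) (i : ℕ) (hu : (i + 1, q2) ∈ Z) :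
    (σ (i + 1, q2) ∈ Z ∧ σ (σ (i + 1, q2)) = (i + 1, q2) ∧ s (σ (i + 1, q2)) = !s (i + 1, q2)) ∧
    (σ (i + 1, q2) = (i + 1, q1) ∨ σ (i + 1, q2) = (i + 1, q3)) ∧
      (((i + 1, q1) ∈ Z ∧ σ (i + 1, q2) ≠ (i + 1, q1) ∧ s (i + 1, q1) = s (i + 1, q2)) ∨
      ((i + 1, q3) ∈ Z ∧ σ (i + 1, q2) ≠ (i + 1, q3) ∧ s (i + 1, q3) = s (i + 1, q2))) := by
  refine ⟨⟨h.mem _ hu, h.inv _ hu, h.side _ hu⟩, ?_⟩
  have := h.loc0 (by simp) rfl rfl hu
  simpa only [ne_eq, nl, Nat.add_eq_zero_iff, one_ne_zero, and_false, ↓ reduceIte, decide_not, n0, reduceCtorEq, decide_false, Bool.not_false, List.filter_cons_of_pos, List.filter_nil, List.map_cons, List.map_nil, wu, up, ite_self, List.append_nil, add_tsub_cancel_right, dn, List.mem_cons, List.not_mem_nil, or_false, exists_eq_or_imp, ↓ existsAndEq, true_and] using this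

lemma Ctx.l_q3 (h : Ctx n m K Z σ s) (i : ℕ) (hu : (i + 1, q3) ∈ Z) :
    (σ (i + 1, q3) ∈ Z ∧ σ (σ (i + 1, q3)) = (i + 1, q3) ∧ s (σ (i + 1, q3)) = !s (i + 1, q3)) ∧
    (σ (i + 1, q3) = (i + 1, q2) ∨ σ (i + 1, q3) = (i + 1, q4) ∨ σ (i + 1, q3) = (i + 1, q6)) ∧
      (((i + 1, q2) ∈ Z ∧ σ (i + 1, q3) ≠ (i + 1, q2) ∧ s (i + 1, q2) = s (i + 1, q3)) ∨
      ((i + 1, q4) ∈ Z ∧ σ (i + 1, q3) ≠ (i + 1, q4) ∧ s (i + 1, q4) = s (i + 1, q3)) ∨
      ((i + 1, q6) ∈ Z ∧ σ (i + 1, q3) ≠ (i + 1, q6) ∧ s (i + 1, q6) = s (i + 1, q3))) := by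
  refine ⟨⟨h.mem _ hu, h.inv _ hu, h.side _ hu⟩, ?_⟩
  have := h.loc0 (by simp) rfl rfl hu
  simpa only [ne_eq, nl, Nat.add_eq_zero_iff, one_ne_zero, and_false, ↓ reduceIte, decide_not, n0, reduceCtorEq, decide_false, Bool.not_false, List.filter_cons_of_pos, List.filter_nil, List.map_cons, List.map_nil, wu, up, ite_self, List.append_nil, add_tsub_cancel_right, dn, List.mem_cons, List.not_mem_nil, or_false, exists_eq_or_imp, ↓ existsAndEq, true_and] using this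

lemma Ctx.l_q4 (h : Ctx n m K Z σ s) (i : ℕ) (hu : (i + 1, q4) ∈ Z) :
    (σ (i + 1, q4) ∈ Z ∧ σ (σ (i + 1, q4)) = (i + 1, q4) ∧ s (σ (i + 1, q4)) = !s (i + 1, q4)) ∧
    (σ (i + 1, q4) = (i + 1, q1) ∨ σ (i + 1, q4) = (i + 1, q3) ∨ σ (i + 1, q4) = (i + 1, q5)) ∧
      (((i + 1, q1) ∈ Z ∧ σ (i + 1, q4) ≠ (i + 1, q1) ∧ s (i + 1, q1) = s (i + 1, q4)) ∨
      ((i + 1, q3) ∈ Z ∧ σ (i + 1, q4) ≠ (i + 1, q3) ∧ s (i + 1, q3) = s (i + 1, q4)) ∨
      ((i + 1, q5) ∈ Z ∧ σ (i + 1, q4) ≠ (i + 1, q5) ∧ s (i + 1, q5) = s (i + 1, q4))) := by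
  refine ⟨⟨h.mem _ hu, h.inv _ hu, h.side _ hu⟩, ?_⟩
  have := h.loc0 (by simp) rfl rfl hu
  simpa only [ne_eq, nl, Nat.add_eq_zero_iff, one_ne_zero, and_false, ↓ reduceIte, decide_not, n0, reduceCtorEq, decide_false, Bool.not_false, List.filter_cons_of_pos, List.filter_nil, List.map_cons, List.map_nil, wu, up, ite_self, List.append_nil, add_tsub_cancel_right, dn, List.mem_cons, List.not_mem_nil, or_false, exists_eq_or_imp, ↓ existsAndEq, true_and] using this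

lemma Ctx.l_q5 (h : Ctx n m K Z σ s) (i : ℕ) (hu : (i + 1, q5) ∈ Z) :
    (σ (i + 1, q5) ∈ Z ∧ σ (σ (i + 1, q5)) = (i + 1, q5) ∧ s (σ (i + 1, q5)) = !s (i + 1, q5)) ∧
    (σ (i + 1, q5) = (i + 1, q4) ∨ σ (i + 1, q5) = (i + 1, q6)) ∧
      (((i + 1, q4) ∈ Z ∧ σ (i + 1, q5) ≠ (i + 1, q4) ∧ s (i + 1, q4) = s (i + 1, q5)) ∨
      ((i + 1, q6) ∈ Z ∧ σ (i + 1, q5) ≠ (i + 1, q6) ∧ s (i + 1, q6) = s (i + 1, q5))) := by
  refine ⟨⟨h.mem _ hu, h.inv _ hu, h.side _ hu⟩, ?_⟩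
  have := h.loc0 (by simp) rfl rfl hu
  simpa only [ne_eq, nl, Nat.add_eq_zero_iff, one_ne_zero, and_false, ↓ reduceIte, decide_not, n0, reduceCtorEq, decide_false, Bool.not_false, List.filter_cons_of_pos, List.filter_nil, List.map_cons, List.map_nil, wu, up, ite_self, List.append_nil, add_tsub_cancel_right, dn, List.mem_cons, List.not_mem_nil, or_false, exists_eq_or_imp, ↓ existsAndEq, true_and] using this

lemma Ctx.l_f (h : Ctx n m K Z σ s) (i : ℕ) (hu : (i + 1, f) ∈ Z) :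
    (σ (i + 1, f) ∈ Z ∧ σ (σ (i + 1, f)) = (i + 1, f) ∧ s (σ (i + 1, f)) = !s (i + 1, f)) ∧
    (σ (i + 1, f) = (i + 1, a) ∨ σ (i + 1, f) = (i + 1, c) ∨ σ (i + 1, f) = (i + 1, q1) ∨ WP K σ (i + 1, f)) ∧
      (((i + 1, a) ∈ Z ∧ σ (i + 1, f) ≠ (i + 1, a) ∧ s (i + 1, a) = s (i + 1, f)) ∨
      ((i + 1, c) ∈ Z ∧ σ (i + 1, f) ≠ (i + 1, c) ∧ s (i + 1, c) = s (i + 1, f)) ∨
      ((i + 1, q1) ∈ Z ∧ σ (i + 1, f) ≠ (i + 1, q1) ∧ s (i + 1, q1) = s (i + 1, f)) ∨ WS K Z σ s (i + 1, f)) := by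
  refine ⟨⟨h.mem _ hu, h.inv _ hu, h.side _ hu⟩, ?_⟩
  have := h.loc (by simp) hu
  simpa only [ne_eq, nl, Nat.add_eq_zero_iff, one_ne_zero, and_false, ↓ reduceIte, decide_not, n0, reduceCtorEq, decide_false, Bool.not_false, List.filter_cons_of_pos, List.filter_nil, List.map_cons, List.map_nil, wu, up, ite_self, List.append_nil, add_tsub_cancel_right, dn, List.mem_cons, List.not_mem_nil, or_false, or_assoc, exists_eq_or_imp, ↓ existsAndEq, true_and] using this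

lemma Ctx.l_g (h : Ctx n m K Z σ s) (i : ℕ) (hu : (i + 1, g) ∈ Z) :
    (σ (i + 1, g) ∈ Z ∧ σ (σ (i + 1, g)) = (i + 1, g) ∧ s (σ (i + 1, g)) = !s (i + 1, g)) ∧
    (σ (i + 1, g) = (i + 1, a2) ∨ σ (i + 1, g) = (i + 1, c2) ∨ σ (i + 1, g) = (i + 1, q6) ∨ WP K σ (i + 1, g)) ∧
      (((i + 1, a2) ∈ Z ∧ σ (i + 1, g) ≠ (i + 1, a2) ∧ s (i + 1, a2) = s (i + 1, g)) ∨
      ((i + 1, c2) ∈ Z ∧ σ (i + 1, g) ≠ (i + 1, c2) ∧ s (i + 1, c2) = s (i + 1, g)) ∨
      ((i + 1, q6) ∈ Z ∧ σ (i + 1, g) ≠ (i + 1, q6) ∧ s (i + 1, q6) = s (i + 1, g)) ∨ WS K Z σ s (i + 1, g)) := by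
  refine ⟨⟨h.mem _ hu, h.inv _ hu, h.side _ hu⟩, ?_⟩
  have := h.loc (by simp) hu
  simpa only [ne_eq, nl, Nat.add_eq_zero_iff, one_ne_zero, and_false, ↓ reduceIte, decide_not, n0, reduceCtorEq, decide_false, Bool.not_false, List.filter_cons_of_pos, List.filter_nil, List.map_cons, List.map_nil, wu, up, ite_self, List.append_nil, add_tsub_cancel_right, dn, List.mem_cons, List.not_mem_nil, or_false, or_assoc, exists_eq_or_imp, ↓ existsAndEq, true_and] using this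

lemma Ctx.l_q1 (h : Ctx n m K Z σ s) (i : ℕ) (hu : (i + 1, q1) ∈ Z) :
    (σ (i + 1, q1) ∈ Z ∧ σ (σ (i + 1, q1)) = (i + 1, q1) ∧ s (σ (i + 1, q1)) = !s (i + 1, q1)) ∧
    (σ (i + 1, q1) = (i + 1, f) ∨ σ (i + 1, q1) = (i + 1, q2) ∨ σ (i + 1, q1) = (i + 1, q4) ∨ WP K σ (i + 1, q1)) ∧
      (((i + 1, f) ∈ Z ∧ σ (i + 1, q1) ≠ (i + 1, f) ∧ s (i + 1, f) = s (i + 1, q1)) ∨
      ((i + 1, q2) ∈ Z ∧ σ (i + 1, q1) ≠ (i + 1, q2) ∧ s (i + 1, q2) = s (i + 1, q1)) ∨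
      ((i + 1, q4) ∈ Z ∧ σ (i + 1, q1) ≠ (i + 1, q4) ∧ s (i + 1, q4) = s (i + 1, q1)) ∨ WS K Z σ s (i + 1, q1)) := by
  refine ⟨⟨h.mem _ hu, h.inv _ hu, h.side _ hu⟩, ?_⟩
  have := h.loc (by simp) hu
  simpa only [ne_eq, nl, Nat.add_eq_zero_iff, one_ne_zero, and_false, ↓ reduceIte, decide_not, n0, reduceCtorEq, decide_false, Bool.not_false, List.filter_cons_of_pos, List.filter_nil, List.map_cons, List.map_nil, wu, up, ite_self, List.append_nil, add_tsub_cancel_right, dn, List.mem_cons, List.not_mem_nil, or_false, or_assoc, exists_eq_or_imp, ↓ existsAndEq, true_and] using this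

lemma Ctx.l_q6 (h : Ctx n m K Z σ s) (i : ℕ) (hu : (i + 1, q6) ∈ Z) :
    (σ (i + 1, q6) ∈ Z ∧ σ (σ (i + 1, q6)) = (i + 1, q6) ∧ s (σ (i + 1, q6)) = !s (i + 1, q6)) ∧
    (σ (i + 1, q6) = (i + 1, g) ∨ σ (i + 1, q6) = (i + 1, q3) ∨ σ (i + 1, q6) = (i + 1, q5) ∨ WP K σ (i + 1, q6)) ∧
      (((i + 1, g) ∈ Z ∧ σ (i + 1, q6) ≠ (i + 1, g) ∧ s (i + 1, g) = s (i + 1, q6)) ∨
      ((i + 1, q3) ∈ Z ∧ σ (i + 1, q6) ≠ (i + 1, q3) ∧ s (i + 1, q3) = s (i + 1, q6)) ∨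
      ((i + 1, q5) ∈ Z ∧ σ (i + 1, q6) ≠ (i + 1, q5) ∧ s (i + 1, q5) = s (i + 1, q6)) ∨ WS K Z σ s (i + 1, q6)) := by
  refine ⟨⟨h.mem _ hu, h.inv _ hu, h.side _ hu⟩, ?_⟩
  have := h.loc (by simp) hu
  simpa only [ne_eq, nl, Nat.add_eq_zero_iff, one_ne_zero, and_false, ↓ reduceIte, decide_not, n0, reduceCtorEq, decide_false, Bool.not_false, List.filter_cons_of_pos, List.filter_nil, List.map_cons, List.map_nil, wu, up, ite_self, List.append_nil, add_tsub_cancel_right, dn, List.mem_cons, List.not_mem_nil, or_false, or_assoc, exists_eq_or_imp, ↓ existsAndEq, true_and] using this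

lemma Ctx.l_c (h : Ctx n m K Z σ s) (i : ℕ) (hu : (i + 1, c) ∈ Z) :
    (σ (i + 1, c) ∈ Z ∧ σ (σ (i + 1, c)) = (i + 1, c) ∧ s (σ (i + 1, c)) = !s (i + 1, c)) ∧
    (σ (i + 1, c) = (i + 1, f) ∨ σ (i + 1, c) = (i + 1, e1) ∨ σ (i + 1, c) = (i + 1, y3 false) ∨ σ (i + 1, c) = (i + 1, y3 true) ∨ WP K σ (i + 1, c)) ∧
      (((i + 1, f) ∈ Z ∧ σ (i + 1, c) ≠ (i + 1, f) ∧ s (i + 1, f) = s (i + 1, c)) ∨
      ((i + 1, e1) ∈ Z ∧ σ (i + 1, c) ≠ (i + 1, e1) ∧ s (i + 1, e1) = s (i + 1, c)) ∨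
      ((i + 1, y3 false) ∈ Z ∧ σ (i + 1, c) ≠ (i + 1, y3 false) ∧ s (i + 1, y3 false) = s (i + 1, c)) ∨
      ((i + 1, y3 true) ∈ Z ∧ σ (i + 1, c) ≠ (i + 1, y3 true) ∧ s (i + 1, y3 true) = s (i + 1, c)) ∨ WS K Z σ s (i + 1, c)) := by
  refine ⟨⟨h.mem _ hu, h.inv _ hu, h.side _ hu⟩, ?_⟩
  have := h.loc (by simp) hu
  simpa only [ne_eq, nl, Nat.add_eq_zero_iff, one_ne_zero, and_false, ↓ reduceIte, decide_not, n0, reduceCtorEq, decide_false, Bool.not_false, List.filter_cons_of_pos, List.filter_nil, List.map_cons, List.map_nil, wu, up, ite_self, List.append_nil, add_tsub_cancel_right, dn, List.mem_cons, List.not_mem_nil, or_false, or_assoc, exists_eq_or_imp, ↓ existsAndEq, true_and] using this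

lemma Ctx.l_a (h : Ctx n m K Z σ s) (i : ℕ) (hu : (i + 1, a) ∈ Z) :
    (σ (i + 1, a) ∈ Z ∧ σ (σ (i + 1, a)) = (i + 1, a) ∧ s (σ (i + 1, a)) = !s (i + 1, a)) ∧
    (σ (i + 1, a) = (i + 1, f) ∨ σ (i + 1, a) = (i + 1, e5) ∨ σ (i + 1, a) = (i, x2)) ∧
      (((i + 1, f) ∈ Z ∧ σ (i + 1, a) ≠ (i + 1, f) ∧ s (i + 1, f) = s (i + 1, a)) ∨
      ((i + 1, e5) ∈ Z ∧ σ (i + 1, a) ≠ (i + 1, e5) ∧ s (i + 1, e5) = s (i + 1, a)) ∨
      ((i, x2) ∈ Z ∧ σ (i + 1, a) ≠ (i, x2) ∧ s (i, x2) = s (i + 1, a))) := by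
  refine ⟨⟨h.mem _ hu, h.inv _ hu, h.side _ hu⟩, ?_⟩
  have := h.loc0 (by simp) rfl rfl hu
  simpa only [ne_eq, nl, Nat.add_eq_zero_iff, one_ne_zero, and_false, ↓ reduceIte, decide_not, n0, reduceCtorEq, decide_false, Bool.not_false, List.filter_cons_of_pos, List.filter_nil, List.map_cons, List.map_nil, wu, up, ite_self, List.append_nil, add_tsub_cancel_right, dn, List.cons_append, List.nil_append, List.mem_cons, List.not_mem_nil, or_false, exists_eq_or_imp, ↓ existsAndEq, true_and] using this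

lemma Ctx.l_a2 (h : Ctx n m K Z σ s) (i : ℕ) (hu : (i + 1, a2) ∈ Z) :
    (σ (i + 1, a2) ∈ Z ∧ σ (σ (i + 1, a2)) = (i + 1, a2) ∧ s (σ (i + 1, a2)) = !s (i + 1, a2)) ∧
    (σ (i + 1, a2) = (i + 1, g) ∨ σ (i + 1, a2) = (i + 1, h5) ∨ σ (i + 1, a2) = (i + 1, x1)) ∧
      (((i + 1, g) ∈ Z ∧ σ (i + 1, a2) ≠ (i + 1, g) ∧ s (i + 1, g) = s (i + 1, a2)) ∨
      ((i + 1, h5) ∈ Z ∧ σ (i + 1, a2) ≠ (i + 1, h5) ∧ s (i + 1, h5) = s (i + 1, a2)) ∨
      ((i + 1, x1) ∈ Z ∧ σ (i + 1, a2) ≠ (i + 1, x1) ∧ s (i + 1, x1) = s (i + 1, a2))) := by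
  refine ⟨⟨h.mem _ hu, h.inv _ hu, h.side _ hu⟩, ?_⟩
  have := h.loc0 (by simp) rfl rfl hu
  simpa only [ne_eq, nl, Nat.add_eq_zero_iff, one_ne_zero, and_false, ↓ reduceIte, decide_not, n0, reduceCtorEq, decide_false, Bool.not_false, List.filter_cons_of_pos, decide_true, Bool.not_true, Bool.false_eq_true, not_false_eq_true, List.filter_cons_of_neg, List.filter_nil, List.map_cons, List.map_nil, wu, up, ite_self, List.append_nil, add_tsub_cancel_right, dn, List.mem_cons, List.not_mem_nil, or_false, exists_eq_or_imp, ↓ existsAndEq, true_and] using this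

lemma Ctx.l_c2 (h : Ctx n m K Z σ s) (i : ℕ) (hu : (i + 1, c2) ∈ Z) :
    (σ (i + 1, c2) ∈ Z ∧ σ (σ (i + 1, c2)) = (i + 1, c2) ∧ s (σ (i + 1, c2)) = !s (i + 1, c2)) ∧
    (σ (i + 1, c2) = (i + 1, g) ∨ σ (i + 1, c2) = (i + 1, h1) ∨ σ (i + 1, c2) = (i, y4 false) ∨ σ (i + 1, c2) = (i, y4 true) ∨ WP K σ (i + 1, c2)) ∧
      (((i + 1, g) ∈ Z ∧ σ (i + 1, c2) ≠ (i + 1, g) ∧ s (i + 1, g) = s (i + 1, c2)) ∨
      ((i + 1, h1) ∈ Z ∧ σ (i + 1, c2) ≠ (i + 1, h1) ∧ s (i + 1, h1) = s (i + 1, c2)) ∨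
      ((i, y4 false) ∈ Z ∧ σ (i + 1, c2) ≠ (i, y4 false) ∧ s (i, y4 false) = s (i + 1, c2)) ∨
      ((i, y4 true) ∈ Z ∧ σ (i + 1, c2) ≠ (i, y4 true) ∧ s (i, y4 true) = s (i + 1, c2)) ∨ WS K Z σ s (i + 1, c2)) := by
  refine ⟨⟨h.mem _ hu, h.inv _ hu, h.side _ hu⟩, ?_⟩
  have := h.loc (by simp) hu
  simpa only [ne_eq, nl, Nat.add_eq_zero_iff, one_ne_zero, and_false, ↓ reduceIte, decide_not, n0, reduceCtorEq, decide_false, Bool.not_false, List.filter_cons_of_pos, List.filter_nil, List.map_cons, List.map_nil, wu, up, ite_self, List.append_nil, add_tsub_cancel_right, dn, List.cons_append, List.nil_append, List.mem_cons, List.not_mem_nil, or_false, or_assoc, exists_eq_or_imp, ↓ existsAndEq, true_and] using this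

lemma Ctx.l_xt (h : Ctx n m K Z σ s)  (hu : (0, a2) ∈ Z) :
    (σ (0, a2) ∈ Z ∧ σ (σ (0, a2)) = (0, a2) ∧ s (σ (0, a2)) = !s (0, a2)) ∧
    (σ (0, a2) = (0, x1) ∨ σ (0, a2) = (0, v) ∨ σ (0, a2) = (n, x2) ∨ σ (0, a2) = (0, c)) ∧
      (((0, x1) ∈ Z ∧ σ (0, a2) ≠ (0, x1) ∧ s (0, x1) = s (0, a2)) ∨
      ((0, v) ∈ Z ∧ σ (0, a2) ≠ (0, v) ∧ s (0, v) = s (0, a2)) ∨
      ((n, x2) ∈ Z ∧ σ (0, a2) ≠ (n, x2) ∧ s (n, x2) = s (0, a2)) ∨
      ((0, c) ∈ Z ∧ σ (0, a2) ≠ (0, c) ∧ s (0, c) = s (0, a2))) := by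
  refine ⟨⟨h.mem _ hu, h.inv _ hu, h.side _ hu⟩, ?_⟩
  have := h.loc0 (by simp) rfl rfl hu
  simpa only [ne_eq, nl, ↓ reduceIte, lo, n0, one_ne_zero, decide_false, Bool.false_eq_true, not_false_eq_true, List.filter_cons_of_neg, decide_true, List.filter_cons_of_pos, List.filter_nil, List.map_cons, List.map_nil, wu, zero_add, up, ite_self, List.append_nil, wd, z0, List.cons_append, List.nil_append, List.mem_cons, List.not_mem_nil, or_false, exists_eq_or_imp, ↓ existsAndEq, true_and] using this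

lemma Ctx.l_yt (h : Ctx n m K Z σ s)  (hu : (0, c) ∈ Z) :
    (σ (0, c) ∈ Z ∧ σ (σ (0, c)) = (0, c) ∧ s (σ (0, c)) = !s (0, c)) ∧
    (σ (0, c) = (0, y3 false) ∨ σ (0, c) = (n, y4 false) ∨ σ (0, c) = (n, y4 true) ∨ σ (0, c) = (0, a2) ∨ WP K σ (0, c)) ∧
      (((0, y3 false) ∈ Z ∧ σ (0, c) ≠ (0, y3 false) ∧ s (0, y3 false) = s (0, c)) ∨
      ((n, y4 false) ∈ Z ∧ σ (0, c) ≠ (n, y4 false) ∧ s (n, y4 false) = s (0, c)) ∨
      ((n, y4 true) ∈ Z ∧ σ (0, c) ≠ (n, y4 true) ∧ s (n, y4 true) = s (0, c)) ∨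
      ((0, a2) ∈ Z ∧ σ (0, c) ≠ (0, a2) ∧ s (0, a2) = s (0, c)) ∨ WS K Z σ s (0, c)) := by
  refine ⟨⟨h.mem _ hu, h.inv _ hu, h.side _ hu⟩, ?_⟩
  have := h.loc (by simp) hu
  simpa only [ne_eq, nl, ↓ reduceIte, lo, n0, one_ne_zero, decide_false, Bool.false_eq_true, not_false_eq_true, List.filter_cons_of_neg, decide_true, List.filter_cons_of_pos, List.filter_nil, List.map_cons, List.map_nil, wu, zero_add, up, ite_self, List.append_nil, wd, z0, List.cons_append, List.nil_append, List.mem_cons, List.not_mem_nil, or_false, or_assoc, exists_eq_or_imp, ↓ existsAndEq, true_and] using this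

lemma Ctx.l_v (h : Ctx n m K Z σ s)  (hu : (0, v) ∈ Z) :
    (σ (0, v) ∈ Z ∧ σ (σ (0, v)) = (0, v) ∧ s (σ (0, v)) = !s (0, v)) ∧
    (σ (0, v) = (0, a2) ∨ σ (0, v) = (0, x1) ∨ σ (0, v) = (0, x3 false) ∨ σ (0, v) = (0, x4 false)) ∧
      (((0, a2) ∈ Z ∧ σ (0, v) ≠ (0, a2) ∧ s (0, a2) = s (0, v)) ∨
      ((0, x1) ∈ Z ∧ σ (0, v) ≠ (0, x1) ∧ s (0, x1) = s (0, v)) ∨
      ((0, x3 false) ∈ Z ∧ σ (0, v) ≠ (0, x3 false) ∧ s (0, x3 false) = s (0, v)) ∨
      ((0, x4 false) ∈ Z ∧ σ (0, v) ≠ (0, x4 false) ∧ s (0, x4 false) = s (0, v))) := by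
  refine ⟨⟨h.mem _ hu, h.inv _ hu, h.side _ hu⟩, ?_⟩
  have := h.loc0 (by simp) rfl rfl hu
  simpa only [ne_eq, nl, ↓ reduceIte, lo, n0, decide_true, List.filter_cons_of_pos, one_ne_zero, decide_false, Bool.false_eq_true, not_false_eq_true, List.filter_cons_of_neg, List.filter_nil, List.map_cons, List.map_nil, wu, zero_add, up, ite_self, List.append_nil, wd, z0, List.mem_cons, List.not_mem_nil, or_false, exists_eq_or_imp, ↓ existsAndEq, true_and] using this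

lemma Ctx.l_x1 (h : Ctx n m K Z σ s) (i : ℕ) (hu : (i, x1) ∈ Z) :
    (σ (i, x1) ∈ Z ∧ σ (σ (i, x1)) = (i, x1) ∧ s (σ (i, x1)) = !s (i, x1)) ∧
    (σ (i, x1) = (i, a2) ∨ σ (i, x1) = (i, y1) ∨ σ (i, x1) = (i, v)) ∧
      (((i, a2) ∈ Z ∧ σ (i, x1) ≠ (i, a2) ∧ s (i, a2) = s (i, x1)) ∨
      ((i, y1) ∈ Z ∧ σ (i, x1) ≠ (i, y1) ∧ s (i, y1) = s (i, x1)) ∨
      ((i, v) ∈ Z ∧ σ (i, x1) ≠ (i, v) ∧ s (i, v) = s (i, x1))) := by
  refine ⟨⟨h.mem _ hu, h.inv _ hu, h.side _ hu⟩, ?_⟩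
  have := h.loc0 (by simp) rfl rfl hu
  by_cases e : i = 0 <;> simp only [nl, e, ↓ reduceIte, lo, n0, decide_true, List.filter_cons_of_pos, List.filter_nil, List.map_cons, List.map_nil, wu, zero_add, up, ite_self, List.append_nil, wd, z0, List.mem_cons, List.not_mem_nil, or_false, ne_eq, exists_eq_or_imp, ↓ existsAndEq, true_and, decide_not, reduceCtorEq, decide_false, Bool.not_false, Bool.not_true, Bool.false_eq_true, not_false_eq_true, List.filter_cons_of_neg, dn] at this ⊢ <;> grind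

lemma Ctx.l_y1 (h : Ctx n m K Z σ s) (i : ℕ) (hu : (i, y1) ∈ Z) :
    (σ (i, y1) ∈ Z ∧ σ (σ (i, y1)) = (i, y1) ∧ s (σ (i, y1)) = !s (i, y1)) ∧
    (σ (i, y1) = (i, x1) ∨ σ (i, y1) = (i, y2) ∨ WP K σ (i, y1)) ∧
      (((i, x1) ∈ Z ∧ σ (i, y1) ≠ (i, x1) ∧ s (i, x1) = s (i, y1)) ∨
      ((i, y2) ∈ Z ∧ σ (i, y1) ≠ (i, y2) ∧ s (i, y2) = s (i, y1)) ∨ WS K Z σ s (i, y1)) := by
  refine ⟨⟨h.mem _ hu, h.inv _ hu, h.side _ hu⟩, ?_⟩
  have := h.loc (by simp) hu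
  by_cases e : i = 0 <;> simp only [nl, e, ↓ reduceIte, lo, n0, decide_true, List.filter_cons_of_pos, List.filter_nil, List.map_cons, List.map_nil, wu, zero_add, up, ite_self, List.append_nil, wd, z0, List.mem_cons, List.not_mem_nil, or_false, ne_eq, exists_eq_or_imp, ↓ existsAndEq, true_and, decide_not, reduceCtorEq, decide_false, Bool.not_false, dn] at this ⊢ <;> grind

lemma Ctx.l_y2 (h : Ctx n m K Z σ s) (i : ℕ) (hu : (i, y2) ∈ Z) :
    (σ (i, y2) ∈ Z ∧ σ (σ (i, y2)) = (i, y2) ∧ s (σ (i, y2)) = !s (i, y2)) ∧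
    (σ (i, y2) = (i, y1) ∨ σ (i, y2) = (i, x2) ∨ WP K σ (i, y2)) ∧
      (((i, y1) ∈ Z ∧ σ (i, y2) ≠ (i, y1) ∧ s (i, y1) = s (i, y2)) ∨
      ((i, x2) ∈ Z ∧ σ (i, y2) ≠ (i, x2) ∧ s (i, x2) = s (i, y2)) ∨ WS K Z σ s (i, y2)) := by
  refine ⟨⟨h.mem _ hu, h.inv _ hu, h.side _ hu⟩, ?_⟩
  have := h.loc (by simp) hu
  by_cases e : i = 0 <;> simp only [nl, e, ↓ reduceIte, lo, n0, decide_true, List.filter_cons_of_pos, List.filter_nil, List.map_cons, List.map_nil, wu, zero_add, up, ite_self, List.append_nil, wd, z0, List.mem_cons, List.not_mem_nil, or_false, ne_eq, exists_eq_or_imp, ↓ existsAndEq, true_and, decide_not, reduceCtorEq, decide_false, Bool.not_false, dn] at this ⊢ <;> grind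

lemma Ctx.l_x2 (h : Ctx n m K Z σ s) (i : ℕ) (hu : (i, x2) ∈ Z) :
    (σ (i, x2) ∈ Z ∧ σ (σ (i, x2)) = (i, x2) ∧ s (σ (i, x2)) = !s (i, x2)) ∧
    (σ (i, x2) = (i, y2) ∨ σ (i, x2) = (R1 n i)) ∧
      (((i, y2) ∈ Z ∧ σ (i, x2) ≠ (i, y2) ∧ s (i, y2) = s (i, x2)) ∨
      ((R1 n i) ∈ Z ∧ σ (i, x2) ≠ (R1 n i) ∧ s (R1 n i) = s (i, x2))) := by
  refine ⟨⟨h.mem _ hu, h.inv _ hu, h.side _ hu⟩, ?_⟩
  have := h.loc0 (by simp) rfl rfl hu
  have hn := h.pos
  by_cases e : i = 0 <;> by_cases e' : i = n <;>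
    simp only [nl, e, ↓ reduceIte, lo, n0, decide_true, List.filter_cons_of_pos, List.filter_nil, List.map_cons, List.map_nil, hn.symm, zero_add, up, List.cons_append, List.nil_append, wd, z0, List.append_nil, List.mem_cons, List.not_mem_nil, or_false, ne_eq, exists_eq_or_imp, ↓ existsAndEq, true_and, R1, e', hn, decide_not, reduceCtorEq, decide_false, Bool.not_false, wu, dn] at this ⊢ <;> grind

lemma Ctx.l_y3 (h : Ctx n m K Z σ s) (i : ℕ) (b : Bool) (hu : (i, y3 b) ∈ Z) :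
    (σ (i, y3 b) ∈ Z ∧ σ (σ (i, y3 b)) = (i, y3 b) ∧ s (σ (i, y3 b)) = !s (i, y3 b)) ∧
    (σ (i, y3 b) = (i, c) ∨ σ (i, y3 b) = (i, x3 b) ∨ WP K σ (i, y3 b)) ∧
      (((i, c) ∈ Z ∧ σ (i, y3 b) ≠ (i, c) ∧ s (i, c) = s (i, y3 b)) ∨
      ((i, x3 b) ∈ Z ∧ σ (i, y3 b) ≠ (i, x3 b) ∧ s (i, x3 b) = s (i, y3 b)) ∨ WS K Z σ s (i, y3 b)) := by
  refine ⟨⟨h.mem _ hu, h.inv _ hu, h.side _ hu⟩, ?_⟩
  have := h.loc (by simp) hu
  have hv := (h.val _ hu).1
  cases b <;> by_cases e : i = 0 <;> simp only [nl, e, ↓ reduceIte, lo, n0, decide_true, List.filter_cons_of_pos, List.filter_nil, List.map_cons, List.map_nil, wu, zero_add, up, ite_self, List.append_nil, wd, z0, List.mem_cons, List.not_mem_nil, or_false, ne_eq, exists_eq_or_imp, ↓ existsAndEq, true_and, Std.le_refl, decide_not, reduceCtorEq, decide_false, Bool.not_false, dn, zero_le, one_ne_zero, Bool.false_eq_true, not_false_eq_true, List.filter_cons_of_neg,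 exists_eq_left, nonpos_iff_eq_zero] at this hv ⊢ <;> grind

lemma Ctx.l_x3 (h : Ctx n m K Z σ s) (i : ℕ) (b : Bool) (hu : (i, x3 b) ∈ Z) :
    (σ (i, x3 b) ∈ Z ∧ σ (σ (i, x3 b)) = (i, x3 b) ∧ s (σ (i, x3 b)) = !s (i, x3 b)) ∧
    (σ (i, x3 b) = (i, y3 b) ∨ σ (i, x3 b) = (i, x4 b) ∨ σ (i, x3 b) = (i, v) ∨ WP K σ (i, x3 b)) ∧
      (((i, y3 b) ∈ Z ∧ σ (i, x3 b) ≠ (i, y3 b) ∧ s (i, y3 b) = s (i, x3 b)) ∨
      ((i, x4 b) ∈ Z ∧ σ (i, x3 b) ≠ (i, x4 b) ∧ s (i, x4 b) = s (i, x3 b)) ∨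
      ((i, v) ∈ Z ∧ σ (i, x3 b) ≠ (i, v) ∧ s (i, v) = s (i, x3 b)) ∨ WS K Z σ s (i, x3 b)) := by
  refine ⟨⟨h.mem _ hu, h.inv _ hu, h.side _ hu⟩, ?_⟩
  have := h.loc (by simp) hu
  have hv := (h.val _ hu).1
  cases b <;> by_cases e : i = 0 <;> simp only [nl, e, ↓ reduceIte, lo, n0, decide_true, List.filter_cons_of_pos, List.filter_nil, List.map_cons, List.map_nil, wu, zero_add, up, ite_self, List.append_nil, wd, z0, List.mem_cons, List.not_mem_nil, or_false, ne_eq, exists_eq_or_imp, ↓ existsAndEq, true_and, Std.le_refl, decide_not, reduceCtorEq, decide_false, Bool.not_false, Bool.not_true, Bool.false_eq_true, not_false_eq_true, List.filter_cons_of_neg, dn, zero_le, one_ne_zero, exists_eq_left, nonpos_iff_eq_zero] at this hv ⊢ <;> grind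

lemma Ctx.l_x4 (h : Ctx n m K Z σ s) (i : ℕ) (b : Bool) (hu : (i, x4 b) ∈ Z) :
    (σ (i, x4 b) ∈ Z ∧ σ (σ (i, x4 b)) = (i, x4 b) ∧ s (σ (i, x4 b)) = !s (i, x4 b)) ∧
    (σ (i, x4 b) = (i, x3 b) ∨ σ (i, x4 b) = (i, y4 b) ∨ σ (i, x4 b) = (i, v) ∨ WP K σ (i, x4 b)) ∧
      (((i, x3 b) ∈ Z ∧ σ (i, x4 b) ≠ (i, x3 b) ∧ s (i, x3 b) = s (i, x4 b)) ∨
      ((i, y4 b) ∈ Z ∧ σ (i, x4 b) ≠ (i, y4 b) ∧ s (i, y4 b) = s (i, x4 b)) ∨
      ((i, v) ∈ Z ∧ σ (i, x4 b) ≠ (i, v) ∧ s (i, v) = s (i, x4 b)) ∨ WS K Z σ s (i, x4 b)) := by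
  refine ⟨⟨h.mem _ hu, h.inv _ hu, h.side _ hu⟩, ?_⟩
  have := h.loc (by simp) hu
  have hv := (h.val _ hu).1
  cases b <;> by_cases e : i = 0 <;> simp only [nl, e, ↓ reduceIte, lo, n0, decide_true, List.filter_cons_of_pos, List.filter_nil, List.map_cons, List.map_nil, wu, zero_add, up, ite_self, List.append_nil, wd, z0, List.mem_cons, List.not_mem_nil, or_false, ne_eq, exists_eq_or_imp, ↓ existsAndEq, true_and, Std.le_refl, decide_not, reduceCtorEq, decide_false, Bool.not_false, Bool.not_true, Bool.false_eq_true, not_false_eq_true, List.filter_cons_of_neg, dn, zero_le, one_ne_zero, exists_eq_left, nonpos_iff_eq_zero] at this hv ⊢ <;> grind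

lemma Ctx.l_y4 (h : Ctx n m K Z σ s) (i : ℕ) (b : Bool) (hu : (i, y4 b) ∈ Z) :
    (σ (i, y4 b) ∈ Z ∧ σ (σ (i, y4 b)) = (i, y4 b) ∧ s (σ (i, y4 b)) = !s (i, y4 b)) ∧
    (σ (i, y4 b) = (i, x4 b) ∨ σ (i, y4 b) = (R2 n i) ∨ WP K σ (i, y4 b)) ∧
      (((i, x4 b) ∈ Z ∧ σ (i, y4 b) ≠ (i, x4 b) ∧ s (i, x4 b) = s (i, y4 b)) ∨
      ((R2 n i) ∈ Z ∧ σ (i, y4 b) ≠ (R2 n i) ∧ s (R2 n i) = s (i, y4 b)) ∨ WS K Z σ s (i, y4 b)) := by
  refine ⟨⟨h.mem _ hu, h.inv _ hu, h.side _ hu⟩, ?_⟩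
  have := h.loc (by simp) hu
  have hn := h.pos
  have hv := (h.val _ hu).1
  cases b <;> by_cases e : i = 0 <;> by_cases e' : i = n <;>
    simp only [nl, e, ↓ reduceIte, lo, n0, decide_true, List.filter_cons_of_pos, List.filter_nil, List.map_cons, List.map_nil, hn.symm, zero_add, up, List.cons_append, List.nil_append, wd, z0, List.append_nil, List.mem_cons, List.not_mem_nil, or_false, ne_eq, exists_eq_or_imp, ↓ existsAndEq, true_and, Std.le_refl, R2, e', hn, decide_not, reduceCtorEq, decide_false, Bool.not_false, wu, dn, zero_le, one_ne_zero, Bool.false_eq_true, not_false_eq_true, List.filter_cons_of_neg, exists_eq_left, nonpos_iff_eq_zero] at this hv ⊢ <;> grind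

lemma Ctx.e0 (h : Ctx n m K Z σ s) (i : ℕ) (t t' : Tg) (e : t' ∈ n0 t) (hp : (i, t) ∈ Z)
    (hq : (i, t') ∈ Z) : (s (i, t') = s (i, t) ∧ σ (i, t) ≠ (i, t') ∧ σ (i, t') ≠ (i, t)) ∨
      (σ (i, t) = (i, t') ∧ σ (i, t') = (i, t) ∧ s (i, t') = !s (i, t)) :=
  h.ed (adj0 i e) hp hq

end Pool.Agent.MP_55bf9a_co.P2

/-!
Local lemmas: arcs, grids and colourings.
-/

namespace Pool.Agent.MP_55bf9a_co.P2

open Finset Tg

variable {n m : ℕ} {K : ℕ → ℕ → Bool → Bool → Prop} {Z : Finset Vx} {σ : Vx → Vx} {s : Vx → Bool}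

lemma Ctx.arc1 (h : Ctx n m K Z σ s) (i : ℕ) (hu : (i + 1, e1) ∈ Z ∨ (i + 1, e5) ∈ Z) :
    ((i + 1, e1) ∈ Z ∧ (i + 1, e2) ∈ Z ∧ (i + 1, e3) ∈ Z ∧ (i + 1, e4) ∈ Z ∧ (i + 1, e5) ∈ Z) ∧
    (i + 1, a) ∈ Z ∧ (i + 1, c) ∈ Z ∧ s (i + 1, a) = !s (i + 1, c) ∧
    ((σ (i + 1, a) = (i + 1, e5) ∧ σ (i + 1, c) ≠ (i + 1, e1)) ∨
      (σ (i + 1, c) = (i + 1, e1) ∧ σ (i + 1, a) ≠ (i + 1, e5))) := by
  have := h.l_e1 i
  have := h.l_e2 i
  have := h.l_e3 i
  have := h.l_e4 i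
  have := h.l_e5 i
  have := h.inv (i + 1, a)
  have := h.inv (i + 1, c)
  grind (splits := 80)

lemma Ctx.arc2 (h : Ctx n m K Z σ s) (i : ℕ) (hu : (i + 1, h1) ∈ Z ∨ (i + 1, h5) ∈ Z) :
    ((i + 1, h1) ∈ Z ∧ (i + 1, h2) ∈ Z ∧ (i + 1, h3) ∈ Z ∧ (i + 1, h4) ∈ Z ∧ (i + 1, h5) ∈ Z) ∧
    (i + 1, a2) ∈ Z ∧ (i + 1, c2) ∈ Z ∧ s (i + 1, a2) = !s (i + 1, c2) ∧
    ((σ (i + 1, a2) = (i + 1, h5) ∧ σ (i + 1, c2) ≠ (i + 1, h1)) ∨
      (σ (i + 1, c2) = (i + 1, h1) ∧ σ (i + 1, a2) ≠ (i + 1, h5))) := by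
  have := h.l_h1 i
  have := h.l_h2 i
  have := h.l_h3 i
  have := h.l_h4 i
  have := h.l_h5 i
  have := h.inv (i + 1, a2)
  have := h.inv (i + 1, c2)
  grind (splits := 80)

/-- The class of `q1` is closed unless it leaks at `q1` or `q6`. -/
lemma Ctx.gridA (h : Ctx n m K Z σ s) (i : ℕ)
    (hu : (i + 1, q1) ∈ Z ∨ (i + 1, q3) ∈ Z ∨ (i + 1, q5) ∈ Z) :
    ((i + 1, q1) ∈ Z ∧ (((i + 1, f) ∈ Z ∧ σ (i + 1, q1) ≠ (i + 1, f)) ∨ WS K Z σ s (i + 1, q1))) ∨
      ((i + 1, q6) ∈ Z ∧ σ (i + 1, q6) ≠ (i + 1, q3) ∧ σ (i + 1, q6) ≠ (i + 1, q5)) := by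
  by_contra hn
  have key := h.core (fun u => u = (i + 1, q1) ∨ u = (i + 1, q3) ∨ u = (i + 1, q5)) ?_ ?_
  · grind (splits := 80)
  · rintro p - q - (rfl | rfl | rfl) (rfl | rfl | rfl) <;>
      simp only [gr, cadj, n0, up, dn, wu, wd, z0, ne_eq, SimpleGraph.irrefl, not_false_eq_true, Nat.add_left_cancel_iff, List.mem_cons, reduceCtorEq, List.not_mem_nil, or_self, and_false, Nat.left_eq_add, one_ne_zero, and_self, Nat.add_eq_zero_iff, false_and, not_true_eq_false]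
  · intro p hp q hq e l ne
    have l2 := h.l_q2 i
    have l4 := h.l_q4 i
    have hs := (h.uniq p hp q hq l).resolve_right ne
    rcases e with rfl | rfl | rfl <;> rcases adj_cases (h.val q hq) (by simp) l with e | e
    · simp only [nl, Nat.add_eq_zero_iff, one_ne_zero, and_false, ↓ reduceIte, ne_eq, decide_not, n0, reduceCtorEq, decide_false, Bool.not_false, List.filter_cons_of_pos, List.filter_nil, List.map_cons, List.map_nil, wu, up, ite_self, List.append_nil, add_tsub_cancel_right, dn, List.mem_cons, List.not_mem_nil, or_false] at e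
      grind (splits := 80)
    · obtain ⟨j, t⟩ := q
      obtain ⟨rfl, e⟩ := e
      exact (hn (Or.inl ⟨hp, Or.inr ⟨j, hq, e, ne.symm, hs⟩⟩)).elim
    · simp only [nl, Nat.add_eq_zero_iff, one_ne_zero, and_false, ↓ reduceIte, ne_eq, decide_not, n0, reduceCtorEq, decide_false, Bool.not_false, List.filter_cons_of_pos, List.filter_nil, List.map_cons, List.map_nil, wu, up, ite_self, List.append_nil, add_tsub_cancel_right, dn, List.mem_cons, List.not_mem_nil, or_false] at e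
      grind (splits := 80)
    · simp [att, yy, lt] at e
    · simp only [nl, Nat.add_eq_zero_iff, one_ne_zero, and_false, ↓ reduceIte, ne_eq, decide_not, n0, reduceCtorEq, decide_false, Bool.not_false, List.filter_cons_of_pos, List.filter_nil, List.map_cons, List.map_nil, wu, up, ite_self, List.append_nil, add_tsub_cancel_right, dn, List.mem_cons, List.not_mem_nil, or_false] at e
      grind (splits := 80)
    · simp [att, yy, lt] at e

lemma Ctx.gridB (h : Ctx n m K Z σ s) (i : ℕ)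
    (hu : (i + 1, q6) ∈ Z ∨ (i + 1, q4) ∈ Z ∨ (i + 1, q2) ∈ Z) :
    ((i + 1, q6) ∈ Z ∧ (((i + 1, g) ∈ Z ∧ σ (i + 1, q6) ≠ (i + 1, g)) ∨ WS K Z σ s (i + 1, q6))) ∨
      ((i + 1, q1) ∈ Z ∧ σ (i + 1, q1) ≠ (i + 1, q4) ∧ σ (i + 1, q1) ≠ (i + 1, q2)) := by
  by_contra hn
  have key := h.core (fun u => u = (i + 1, q6) ∨ u = (i + 1, q4) ∨ u = (i + 1, q2)) ?_ ?_
  · grind (splits := 80)
  · rintro p - q - (rfl | rfl | rfl) (rfl | rfl | rfl) <;>
      simp only [gr, cadj, n0, up, dn, wu, wd, z0, ne_eq, SimpleGraph.irrefl, not_false_eq_true, Nat.add_left_cancel_iff, List.mem_cons, reduceCtorEq, List.not_mem_nil, or_self, and_false, Nat.left_eq_add, one_ne_zero, and_self, Nat.add_eq_zero_iff, false_and, not_true_eq_false]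
  · intro p hp q hq e l ne
    have l2 := h.l_q5 i
    have l4 := h.l_q3 i
    have hs := (h.uniq p hp q hq l).resolve_right ne
    rcases e with rfl | rfl | rfl <;> rcases adj_cases (h.val q hq) (by simp) l with e | e
    · simp only [nl, Nat.add_eq_zero_iff, one_ne_zero, and_false, ↓ reduceIte, ne_eq, decide_not, n0, reduceCtorEq, decide_false, Bool.not_false, List.filter_cons_of_pos, List.filter_nil, List.map_cons, List.map_nil, wu, up, ite_self, List.append_nil, add_tsub_cancel_right, dn, List.mem_cons, List.not_mem_nil, or_false] at e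
      grind (splits := 80)
    · obtain ⟨j, t⟩ := q
      obtain ⟨rfl, e⟩ := e
      exact (hn (Or.inl ⟨hp, Or.inr ⟨j, hq, e, ne.symm, hs⟩⟩)).elim
    · simp only [nl, Nat.add_eq_zero_iff, one_ne_zero, and_false, ↓ reduceIte, ne_eq, decide_not, n0, reduceCtorEq, decide_false, Bool.not_false, List.filter_cons_of_pos, List.filter_nil, List.map_cons, List.map_nil, wu, up, ite_self, List.append_nil, add_tsub_cancel_right, dn, List.mem_cons, List.not_mem_nil, or_false] at e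
      grind (splits := 80)
    · simp [att, yy, lt] at e
    · simp only [nl, Nat.add_eq_zero_iff, one_ne_zero, and_false, ↓ reduceIte, ne_eq, decide_not, n0, reduceCtorEq, decide_false, Bool.not_false, List.filter_cons_of_pos, List.filter_nil, List.map_cons, List.map_nil, wu, up, ite_self, List.append_nil, add_tsub_cancel_right, dn, List.mem_cons, List.not_mem_nil, or_false] at e
      grind (splits := 80)
    · simp [att, yy, lt] at e

/-- If both ends of the grid are matched outside and have no other outer neighbour, then they lie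
on different sides. -/
lemma Ctx.gridS (h : Ctx n m K Z σ s) (i : ℕ) (h1 : (i + 1, q1) ∈ Z) (h6 : (i + 1, q6) ∈ Z)
    (a1 : σ (i + 1, q1) ≠ (i + 1, q4) ∧ σ (i + 1, q1) ≠ (i + 1, q2))
    (a6 : σ (i + 1, q6) ≠ (i + 1, q3) ∧ σ (i + 1, q6) ≠ (i + 1, q5))
    (hu : (i + 1, q2) ∈ Z ∨ (i + 1, q3) ∈ Z ∨ (i + 1, q4) ∈ Z ∨ (i + 1, q5) ∈ Z) :
    s (i + 1, q6) = !s (i + 1, q1) := by
  have := h.l_q2 i
  have := h.l_q3 i
  have := h.l_q4 i
  have := h.l_q5 i
  have := h.e0 (i + 1) q1 q2 (by decide)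
  have := h.e0 (i + 1) q1 q4 (by decide)
  have := h.e0 (i + 1) q6 q3 (by decide)
  have := h.e0 (i + 1) q6 q5 (by decide)
  grind (splits := 80)

end Pool.Agent.MP_55bf9a_co.P2

/-!
No core contains a clause vertex that is matched to a ladder vertex.
-/

namespace Pool.Agent.MP_55bf9a_co.P2

open Finset Tg

variable {n m : ℕ} {K : ℕ → ℕ → Bool → Bool → Prop} {Z : Finset Vx} {σ : Vx → Vx} {s : Vx → Bool}
  {p : Bool} {u0 : Vx}

lemma Ctx.triW (h : Ctx n m K Z σ s) (i : ℕ) (t t' : Tg) (h1 : yy t = false) (h2 : lt t' = lt t)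
    (hu : (i, t) ∈ Z) (e : σ (i, t) = (i, t')) : ¬WS K Z σ s (i, t) := by
  rintro ⟨j, a1, a2, -, -⟩
  refine h.toCr.toM0.tri hu (adjW a2).symm ?_ a1
  rw [e]
  exact (adjW (Or.inr (by simpa only [ne_eq, h2, Prod.exists, Bool.exists_bool, att, h1, Bool.false_eq_true, false_or] using a2))).symm

lemma Ctx.wpT (h : Ctx n m K Z σ s) (i : ℕ) (t t' : Tg) (h0 : t' ∈ n0 t)
    (h1 : yy t' = true ∨ (yy t = false ∧ lt t' = lt t)) (hu : (i, t) ∈ Z) (e : WP K σ (i, t)) :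
    (i, t') ∉ Z := by
  refine h.toCr.toM0.tri hu (adj0 i h0) ?_
  have e1 : σ (i, t) = ((σ (i, t)).1, w) := Prod.ext rfl e.1
  rw [e1]
  refine adjW ?_
  rcases h1 with h1 | ⟨h1, h2⟩
  · exact Or.inl h1
  · exact Or.inr (by simpa only [ne_eq, h2, Prod.exists, Bool.exists_bool, att, h1, Bool.false_eq_true, false_or] using e.2)

lemma Ctx.wpS (h : Ctx n m K Z σ s) (u : Vx) (hu : u ∈ Z) (e : WP K σ u) : ¬WS K Z σ s u := by
  rintro ⟨j, a1, a2, a3, -⟩
  refine h.toCr.toM0.tri hu (adjW a2).symm ?_ a1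
  have e1 : σ u = ((σ u).1, w) := Prod.ext rfl e.1
  rw [e1] at a3 ⊢
  exact adjWW fun e => a3 (by rw [e])

lemma wp_tag (u : Vx) (e : WP K σ u) : (σ u).2 = w := e.1

lemma att0 (t : Tg) (h : yy t = false) : ¬WP K σ (0, t) ∧ ¬WS K Z σ s (0, t) := by
  simp only [WP, att, h, Bool.false_eq_true, ne_eq, not_true_eq_false, Prod.exists, Bool.exists_bool, false_and, or_self, and_false, not_false_eq_true, WS, exists_const, and_self]

/-- The situation when a clause vertex of side `p` is matched to the ladder vertex `u0`. -/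
structure Rg (K : ℕ → ℕ → Bool → Bool → Prop) (Z : Finset Vx) (σ : Vx → Vx) (s : Vx → Bool)
    (p : Bool) (u0 : Vx) : Prop where
  wp : ∀ u ∈ Z, WP K σ u → s u = !p
  ws : ∀ u, WS K Z σ s u → s u = p
  y : ∀ i t, yy t = true → (i, t) ∈ Z → (i, t) = u0 ∨ s (i, t) = p
  u : s u0 = !p ∧ (σ u0).2 = w ∧ u0 ∈ Z

lemma Ctx.rg (h : Ctx n m K Z σ s) {j : ℕ} (hw : (j, w) ∈ Z) (hσ : (σ (j, w)).2 ≠ w) :
    Rg K Z σ s (s (j, w)) (σ (j, w)) := by
  have k : ∀ j', (j', w) ∈ Z → s (j', w) = s (j, w) := fun j' hj => by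
    by_cases e : j = j'
    · rw [e]
    · have := h.ed (adjWW e) hw hj
      grind
  refine ⟨fun u hu e => ?_, fun u ⟨j', a1, _, _, a4⟩ => a4 ▸ k j' a1, fun i t ht hu => ?_,
    h.side _ hw, by rw [h.inv _ hw], h.mem _ hw⟩
  · have e1 : σ u = ((σ u).1, w) := Prod.ext rfl e.1
    have := k _ (e1 ▸ h.mem u hu)
    have e2 := h.side u hu
    rw [e1, this] at e2
    simp [e2]
  · have := h.ed (adjW (u := (i, t)) (Or.inl ht)) hw hu
    grind

lemma Rg.ry1 (r : Rg K Z σ s p u0) (h : Ctx n m K Z σ s) (i : ℕ) (hu : (i, y1) ∈ Z) :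
    (i, y1) = u0 ∨ (σ (i, y1) = (i, x1) ∧ s (i, y1) = p) := by
  have := h.l_y1 i hu
  have := r.wp _ hu
  have := r.y i y1 rfl
  have := r.y i y2 rfl
  have := r.u
  cases p <;> grind

lemma Rg.ry2 (r : Rg K Z σ s p u0) (h : Ctx n m K Z σ s) (i : ℕ) (hu : (i, y2) ∈ Z) :
    (i, y2) = u0 ∨ (σ (i, y2) = (i, x2) ∧ s (i, y2) = p) := by
  have := h.l_y2 i hu
  have := r.wp _ hu
  have := r.y i y1 rfl
  have := r.y i y2 rfl
  have := r.u
  cases p <;> grind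

lemma Rg.ry3 (r : Rg K Z σ s p u0) (h : Ctx n m K Z σ s) (i : ℕ) (b : Bool) (hu : (i, y3 b) ∈ Z) :
    (i, y3 b) = u0 ∨ (σ (i, y3 b) = (i, x3 b) ∧ s (i, y3 b) = p) := by
  have := h.l_y3 i b hu
  have := r.wp _ hu
  have := r.y i (y3 b) rfl
  have := r.y i c rfl
  have := r.u
  cases p <;> grind

lemma Rg.ry4 (r : Rg K Z σ s p u0) (h : Ctx n m K Z σ s) (i : ℕ) (b : Bool) (hu : (i, y4 b) ∈ Z) :
    (i, y4 b) = u0 ∨ (σ (i, y4 b) = (i, x4 b) ∧ s (i, y4 b) = p) := by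
  have := h.l_y4 i b hu
  have := r.wp _ hu
  have := r.y i (y4 b) rfl
  have := r.y 0 c rfl
  have := r.y (i + 1) c2 rfl
  have := r.u
  unfold R2 at *
  cases p <;> grind

lemma Rg.ryt (r : Rg K Z σ s p u0) (h : Ctx n m K Z σ s) (hu : (0, c) ∈ Z) :
    (0, c) = u0 ∨ (σ (0, c) = (0, a2) ∧ s (0, c) = p) := by
  have := h.l_yt hu
  have := r.wp _ hu
  have := r.y 0 c rfl
  have := r.y 0 (y3 false) rfl
  have := r.y n (y4 false) rfl
  have := r.y n (y4 true) rfl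
  have := r.u
  cases p <;> grind

lemma Rg.rc (r : Rg K Z σ s p u0) (h : Ctx n m K Z σ s) (i : ℕ) (hu : (i + 1, c) ∈ Z) :
    (i + 1, c) = u0 ∨ ((σ (i + 1, c) = (i + 1, f) ∨ σ (i + 1, c) = (i + 1, e1)) ∧
      s (i + 1, c) = p) := by
  have := h.l_c i hu
  have := r.wp _ hu
  have := r.y (i + 1) c rfl
  have := r.y (i + 1) (y3 false) rfl
  have := r.y (i + 1) (y3 true) rfl
  have := r.u
  cases p <;> grind

lemma Rg.rc2 (r : Rg K Z σ s p u0) (h : Ctx n m K Z σ s) (i : ℕ) (hu : (i + 1, c2) ∈ Z) :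
    (i + 1, c2) = u0 ∨ ((σ (i + 1, c2) = (i + 1, g) ∨ σ (i + 1, c2) = (i + 1, h1)) ∧
      s (i + 1, c2) = p) := by
  have := h.l_c2 i hu
  have := r.wp _ hu
  have := r.y (i + 1) c2 rfl
  have := r.y i (y4 false) rfl
  have := r.y i (y4 true) rfl
  have := r.u
  cases p <;> grind

lemma Rg.rx2 (r : Rg K Z σ s p u0) (h : Ctx n m K Z σ s) (i : ℕ) (hu : (i, x2) ∈ Z) :
    s (i, x2) = !p := by
  have := h.l_x2 i hu
  have := r.ry2 h i
  have := h.e0 i x2 y2 (by decide) hu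
  have := r.u
  cases p <;> grind

/-- The extra vertex is absent. -/
lemma Rg.rv (r : Rg K Z σ s p u0) (h : Ctx n m K Z σ s) (i : ℕ) : (i, v) ∉ Z := by
  intro hu
  obtain rfl := h.v0 hu
  have := h.l_v hu
  have := h.l_xt
  have := h.l_x1 0
  have := h.l_x3 0 false
  have := h.l_x4 0 false
  have := h.l_x2 n
  have := r.rx2 h n
  have := r.ryt h
  have := r.ry1 h 0
  have := r.ry2 h n
  have := r.ry3 h 0 false
  have := r.ry4 h 0 false
  have := att0 (K := K) (σ := σ) (Z := Z) (s := s) (x3 false) rfl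
  have := att0 (K := K) (σ := σ) (Z := Z) (s := s) (x4 false) rfl
  have := h.e0 0 a2 x1 (by decide)
  have := h.e0 0 v x1 (by decide) hu
  have := h.e0 0 v a2 (by decide) hu
  have := h.e0 0 v (x3 false) (by decide) hu
  have := h.e0 0 v (x4 false) (by decide) hu
  have := h.e0 0 (x3 false) (x4 false) (by decide)
  have := h.e0 0 x1 y1 (by decide)
  have := h.e0 0 (x3 false) (y3 false) (by decide)
  have := h.e0 0 (x4 false) (y4 false) (by decide)
  have := h.ed adjT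
  have := r.u
  cases p <;> grind (splits := 100)

lemma Rg.rx1 (r : Rg K Z σ s p u0) (h : Ctx n m K Z σ s) (i : ℕ) (hu : (i, x1) ∈ Z) :
    s (i, x1) = !p := by
  have := h.l_x1 i hu
  have := r.ry1 h i
  have := r.rv h i
  have := h.e0 i x1 y1 (by decide) hu
  have := r.u
  cases p <;> grind

lemma Rg.rx3 (r : Rg K Z σ s p u0) (h : Ctx n m K Z σ s) (i : ℕ) (b : Bool) (hu : (i, x3 b) ∈ Z) :
    s (i, x3 b) = !p := by
  have := h.l_x3 i b hu
  have := r.ry3 h i b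
  have := r.rv h i
  have := r.wp _ hu
  have := h.triW i (x3 b) (x4 b) rfl rfl hu
  have := h.e0 i (x3 b) (y3 b) (by simp [n0]) hu
  have := r.u
  cases p <;> grind

lemma Rg.rx4 (r : Rg K Z σ s p u0) (h : Ctx n m K Z σ s) (i : ℕ) (b : Bool) (hu : (i, x4 b) ∈ Z) :
    s (i, x4 b) = !p := by
  have := h.l_x4 i b hu
  have := r.ry4 h i b
  have := r.rv h i
  have := r.wp _ hu
  have := h.triW i (x4 b) (x3 b) rfl rfl hu
  have := h.e0 i (x4 b) (y4 b) (by simp [n0]) hu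
  have := r.u
  cases p <;> grind

lemma Rg.rxt (r : Rg K Z σ s p u0) (h : Ctx n m K Z σ s) (hu : (0, a2) ∈ Z) :
    s (0, a2) = !p := by
  have := h.l_xt hu
  have := r.ryt h
  have := r.rv h 0
  have := r.rx1 h 0
  have := r.rx2 h n
  have := h.ed adjT hu
  have := r.u
  cases p <;> grind

lemma Rg.eq1 (r : Rg K Z σ s p u0) (h : Ctx n m K Z σ s) (i : ℕ) (hu : (i + 1, f) ∈ Z)
    (e : σ (i + 1, f) = (i + 1, q1)) :
    (s (i + 1, f) = !p ∧ u0 = (i + 1, c)) ∨ (s (i + 1, f) = p ∧ u0 = (i, y2)) := by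
  have := h.l_f i hu
  have := h.l_a i
  have := h.l_x2 i
  have := h.arc1 i
  have := r.rc h i
  have := r.ry2 h i
  have := r.rx2 h i
  have := h.triW (i + 1) f q1 rfl rfl hu
  have := h.mem (i + 1, c)
  have := h.e0 (i + 1) f c (by decide) hu
  have := h.e0 (i + 1) f a (by decide) hu
  have := r.u
  cases p <;> grind (splits := 60)

lemma Rg.eq2 (r : Rg K Z σ s p u0) (h : Ctx n m K Z σ s) (i : ℕ) (hu : (i + 1, g) ∈ Z)
    (e : σ (i + 1, g) = (i + 1, q6)) :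
    (s (i + 1, g) = !p ∧ u0 = (i + 1, c2)) ∨ (s (i + 1, g) = p ∧ u0 = (i + 1, y1)) := by
  have := h.l_g i hu
  have := h.l_a2 i
  have := h.l_x1 (i + 1)
  have := h.arc2 i
  have := r.rc2 h i
  have := r.ry1 h (i + 1)
  have := r.rx1 h (i + 1)
  have := r.rv h (i + 1)
  have := h.triW (i + 1) g q6 rfl rfl hu
  have := h.mem (i + 1, c2)
  have := h.e0 (i + 1) g c2 (by decide) hu
  have := h.e0 (i + 1) g a2 (by decide) hu
  have := r.u
  cases p <;> grind (splits := 60)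

lemma Ctx.lk1 (h : Ctx n m K Z σ s) (i : ℕ) (hu : (i + 1, q1) ∈ Z)
    (e : σ (i + 1, q1) = (i + 1, f) ∨ WP K σ (i + 1, q1)) :
    (i + 1, q6) ∈ Z ∧ s (i + 1, q6) = !s (i + 1, q1) ∧
      (σ (i + 1, q6) = (i + 1, g) ∨ WP K σ (i + 1, q6)) := by
  have := h.l_q1 i hu
  have := h.l_q6 i
  have := h.gridA i
  have := h.gridS i hu
  have := h.triW (i + 1) q1 f rfl rfl hu
  have := h.wpT (i + 1) q1 f (by decide) (by decide) hu
  have := h.wpS _ hu
  have := wp_tag (K := K) (σ := σ) (i + 1, q1)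
  grind (splits := 60)

lemma Ctx.lk2 (h : Ctx n m K Z σ s) (i : ℕ) (hu : (i + 1, q6) ∈ Z)
    (e : σ (i + 1, q6) = (i + 1, g) ∨ WP K σ (i + 1, q6)) :
    (i + 1, q1) ∈ Z ∧ s (i + 1, q6) = !s (i + 1, q1) ∧
      (σ (i + 1, q1) = (i + 1, f) ∨ WP K σ (i + 1, q1)) := by
  have := h.l_q6 i hu
  have := h.l_q1 i
  have := h.gridB i
  have := h.gridS i
  have := h.triW (i + 1) q6 g rfl rfl hu
  have := h.wpT (i + 1) q6 g (by decide) (by decide) hu
  have := h.wpS _ hu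
  have := wp_tag (K := K) (σ := σ) (i + 1, q6)
  grind (splits := 60)

lemma Ctx.rg' (h : Ctx n m K Z σ s) {u : Vx} (hu : u ∈ Z) (hw : u.2 ≠ w) (e : WP K σ u) :
    Rg K Z σ s (!s u) u := by
  have e1 : σ u = ((σ u).1, w) := Prod.ext rfl e.1
  have := h.rg (j := (σ u).1) (e1 ▸ h.mem u hu) (by rwa [← e1, h.inv u hu])
  rwa [← e1, h.inv u hu, h.side u hu] at this

lemma Ctx.nf (h : Ctx n m K Z σ s) (i : ℕ) (hu : (i + 1, f) ∈ Z) : ¬WP K σ (i + 1, f) := by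
  intro e
  have r := h.rg' hu (by simp) e
  have := h.l_f i hu
  have := h.l_a i
  have := h.arc1 i
  have := r.rx2 h i
  have := h.wpT (i + 1) f c (by decide) (by decide) hu e
  have := h.wpT (i + 1) f q1 (by decide) (by decide) hu e
  have := h.wpS _ hu e
  have := e.1
  cases hs : s (i + 1, f) <;> grind (splits := 60)

lemma Ctx.ng (h : Ctx n m K Z σ s) (i : ℕ) (hu : (i + 1, g) ∈ Z) : ¬WP K σ (i + 1, g) := by
  intro e
  have r := h.rg' hu (by simp) e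
  have := h.l_g i hu
  have := h.l_a2 i
  have := h.arc2 i
  have := r.rx1 h (i + 1)
  have := h.wpT (i + 1) g c2 (by decide) (by decide) hu e
  have := h.wpT (i + 1) g q6 (by decide) (by decide) hu e
  have := h.wpS _ hu e
  have := e.1
  cases hs : s (i + 1, g) <;> grind (splits := 60)

lemma Ctx.nq1 (h : Ctx n m K Z σ s) (i : ℕ) (hu : (i + 1, q1) ∈ Z) : ¬WP K σ (i + 1, q1) := by
  intro e
  have r := h.rg' hu (by simp) e
  have := h.lk1 i hu (Or.inr e)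
  have := h.l_q6 i
  have := r.wp (i + 1, q6)
  have := r.eq2 h i
  cases hs : s (i + 1, q1) <;> grind (splits := 60)

lemma Ctx.nq6 (h : Ctx n m K Z σ s) (i : ℕ) (hu : (i + 1, q6) ∈ Z) : ¬WP K σ (i + 1, q6) := by
  intro e
  have r := h.rg' hu (by simp) e
  have := h.lk2 i hu (Or.inr e)
  have := h.l_q1 i
  have := r.wp (i + 1, q1)
  have := r.eq1 h i
  cases hs : s (i + 1, q6) <;> grind (splits := 60)

lemma Ctx.nx3 (h : Ctx n m K Z σ s) (i : ℕ) (b : Bool) (hu : (i, x3 b) ∈ Z) :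
    ¬WP K σ (i, x3 b) := by
  intro e
  have r := h.rg' hu (by simp) e
  have := h.l_x3 i b hu
  have := r.rv h i
  have := h.wpT i (x3 b) (y3 b) (by simp [n0]) (Or.inl rfl) hu e
  have := h.wpT i (x3 b) (x4 b) (by simp [n0]) (Or.inr ⟨rfl, rfl⟩) hu e
  have := h.wpS _ hu e
  grind

lemma Ctx.nx4 (h : Ctx n m K Z σ s) (i : ℕ) (b : Bool) (hu : (i, x4 b) ∈ Z) :
    ¬WP K σ (i, x4 b) := by
  intro e
  have r := h.rg' hu (by simp) e
  have := h.l_x4 i b hu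
  have := r.rv h i
  have := h.wpT i (x4 b) (y4 b) (by simp [n0]) (Or.inl rfl) hu e
  have := h.wpT i (x4 b) (x3 b) (by simp [n0]) (Or.inr ⟨rfl, rfl⟩) hu e
  have := h.wpS _ hu e
  grind

/-- The two literal vertices of a cell cannot be matched into the grid. -/
lemma Rg.nlk (r : Rg K Z σ s p u0) (h : Ctx n m K Z σ s) (i : ℕ) :
    ((i + 1, f) ∈ Z → σ (i + 1, f) ≠ (i + 1, q1)) ∧
      ((i + 1, g) ∈ Z → σ (i + 1, g) ≠ (i + 1, q6)) := by
  have := h.l_f i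
  have := h.l_g i
  have := h.l_q1 i
  have := h.l_q6 i
  have := h.lk1 i
  have := h.lk2 i
  have := h.nq1 i
  have := h.nq6 i
  have := r.eq1 h i
  have := r.eq2 h i
  cases p <;> grind (splits := 60)

lemma Ctx.ny1 (h : Ctx n m K Z σ s) (i : ℕ) (hu : (i, y1) ∈ Z) : ¬WP K σ (i, y1) := by
  intro e
  have r := h.rg' hu (by simp) e
  have := h.l_y1 i hu
  have := h.l_x1 i
  have := r.rv h i
  have := h.wpT i y1 y2 (by decide) (by decide) hu e
  have := h.wpS _ hu e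
  have := e.1
  rcases i with _ | i
  · have := r.rxt h
    cases hs : s (0, y1) <;> grind (splits := 60)
  · have := h.l_a2 i
    have := h.l_g i
    have := h.ng i
    have := h.arc2 i
    have := r.rc2 h i
    have := (r.nlk h i).2
    cases hs : s (i + 1, y1) <;> grind (splits := 60)

lemma Ctx.ny2 (h : Ctx n m K Z σ s) (i : ℕ) (hu : (i, y2) ∈ Z) : ¬WP K σ (i, y2) := by
  intro e
  have r := h.rg' hu (by simp) e
  have := h.l_y2 i hu
  have := h.l_x2 i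
  have := h.wpT i y2 y1 (by decide) (by decide) hu e
  have := h.wpS _ hu e
  have := e.1
  have := r.rxt h
  have := h.l_a i
  have := h.l_f i
  have := h.nf i
  have := h.arc1 i
  have := r.rc h i
  have := (r.nlk h i).1
  unfold R1 at *
  cases hs : s (i, y2) <;> grind (splits := 60)

lemma Ctx.ny3 (h : Ctx n m K Z σ s) (i : ℕ) (b : Bool) (hu : (i, y3 b) ∈ Z) :
    ¬WP K σ (i, y3 b) := by
  intro e
  have r := h.rg' hu (by simp) e
  have := h.l_y3 i b hu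
  have := h.l_x3 i b
  have := h.nx3 i b
  have := r.rv h i
  have := r.rx4 h i b
  have := h.wpT i (y3 b) c (by simp [n0]) (Or.inl rfl) hu e
  have := h.wpS _ hu e
  have := e.1
  cases hs : s (i, y3 b) <;> grind (splits := 60)

lemma Ctx.ny4 (h : Ctx n m K Z σ s) (i : ℕ) (b : Bool) (hu : (i, y4 b) ∈ Z) :
    ¬WP K σ (i, y4 b) := by
  intro e
  have r := h.rg' hu (by simp) e
  have := h.l_y4 i b hu
  have := h.l_x4 i b
  have := h.nx4 i b
  have := r.rv h i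
  have := r.rx3 h i b
  have := r.y 0 c rfl
  have := r.y (i + 1) c2 rfl
  have := h.wpS _ hu e
  have := e.1
  unfold R2 at *
  cases hs : s (i, y4 b) <;> grind (splits := 60)

lemma Ctx.nyt (h : Ctx n m K Z σ s) (hu : (0, c) ∈ Z) : ¬WP K σ (0, c) := by
  intro e
  have r := h.rg' hu (by simp) e
  have := h.l_yt hu
  have := h.l_xt
  have := r.rv h 0
  have := r.rx1 h 0
  have := r.rx2 h n
  have := r.y 0 (y3 false) rfl
  have := r.y n (y4 false) rfl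
  have := r.y n (y4 true) rfl
  have := h.wpS _ hu e
  have := e.1
  cases hs : s (0, c) <;> grind (splits := 60)

lemma Ctx.nc (h : Ctx n m K Z σ s) (i : ℕ) (hu : (i + 1, c) ∈ Z) : ¬WP K σ (i + 1, c) := by
  intro e
  have r := h.rg' hu (by simp) e
  have := h.l_c i hu
  have := h.l_a i
  have := h.l_f i
  have := h.nf i
  have := h.arc1 i
  have := r.rx2 h i
  have := (r.nlk h i).1
  have := r.y (i + 1) (y3 false) rfl
  have := r.y (i + 1) (y3 true) rfl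
  have := h.e0 (i + 1) c f (by decide) hu
  have := h.wpS _ hu e
  have := e.1
  cases hs : s (i + 1, c) <;> grind (splits := 60)

lemma Ctx.nc2 (h : Ctx n m K Z σ s) (i : ℕ) (hu : (i + 1, c2) ∈ Z) : ¬WP K σ (i + 1, c2) := by
  intro e
  have r := h.rg' hu (by simp) e
  have := h.l_c2 i hu
  have := h.l_a2 i
  have := h.l_g i
  have := h.ng i
  have := h.arc2 i
  have := r.rx1 h (i + 1)
  have := (r.nlk h i).2
  have := r.y i (y4 false) rfl
  have := r.y i (y4 true) rfl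
  have := h.e0 (i + 1) c2 g (by decide) hu
  have := h.wpS _ hu e
  have := e.1
  cases hs : s (i + 1, c2) <;> grind (splits := 60)

/-- No ladder vertex is matched to a clause vertex. -/
lemma Ctx.nwp (h : Ctx n m K Z σ s) (u : Vx) (hu : u ∈ Z) : ¬WP K σ u := by
  intro e
  obtain ⟨i, t⟩ := u
  have hv := (h.val _ hu).1
  have e2 := e.2
  rcases i with _ | i <;> cases t <;> simp [att, yy, lt, lo] at e2 hv
  exacts [h.nyt hu e, h.ny1 _ hu e, h.ny2 _ hu e, h.ny3 _ _ hu e, h.ny4 _ _ hu e, h.nf _ hu e,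
    h.nc _ hu e, h.ng _ hu e, h.nc2 _ hu e, h.nq1 _ hu e, h.nq6 _ hu e, h.ny1 _ hu e,
    h.ny2 _ hu e, h.ny3 _ _ hu e, h.nx3 _ _ hu e, h.nx4 _ _ hu e, h.ny4 _ _ hu e]

end Pool.Agent.MP_55bf9a_co.P2
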