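import Pool.Agent.MP_55bf9a_co.Pi2.Core

attribute [-instance] instNoNatZeroDivisorsOfIsAddTorsionFree
  IsOrderedAddMonoid.toIsOrderedCancelAddMonoid FiniteField.instGrindPowIdentity CharP.ofCharZero
  IsOrderedRing.toIsStrictOrderedRing instIsLeftCancelAddOfAddLeftReflectLE
  CompletePartialOrder.toPartialOrder littleWedderburn instOrderedRingOfIsStrictOrderedRing
  SemilatticeInf.toPartialOrder AddCommGroup.toGrindIntModule Finset.decidableDforallFinset
  instOrderedAddOfIsOrderedCancelAddMonoid OmegaCompletePartialOrder.toPartialOrder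
  Group.IsPerfect.subsingleton_of_isMulCommutative Multiset.decidableDforallMultiset
  Field.toGrindField Std.LinearPreorderPackage.toIsLinearPreorder Nontrivial.to_nonempty
  Vector.instDecidableForallForallMemOfDecidablePred
  Std.instLawfulBEqOfLawfulOrderBEqOfIsPartialOrder Zero.instNonempty
  Array.instDecidableForallForallMemOfDecidablePred Option.decidableForallMem bot_nonempty
  ChainCompletePartialOrder.toPartialOrder NormedCommRing.toCommRing One.instNonempty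
  SeminormedCommRing.toCommRing Std.LawfulBEqOrd.lawfulBEq EuclideanDomain.toCommRing
  AddTorsor.nonempty Prod.instLE_mathlib DivisionSemiring.toSemiring Field.toCommRing
  Nat.instAtLeastTwoHAddOfNat IdemSemiring.toSemiring Ring.toGrindRing Std.PreorderPackage.toBEq
  Prod.instPreorder top_nonempty CategoryTheory.Limits.Concrete.instUniqueToTypeTerminal
  Torsor.nonempty UniformSpace.toTopologicalSpace LieRing.toAddCommGroup
  Std.instLawfulBEqOrdOfLawfulOrderOrdOfLawfulOrderBEq NonUnitalNonAssocSemiring.toAddCommMonoid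
  AddQuantale.instAddLeftMono CategoryTheory.IsConnected.is_nonempty Std.PreorderPackage.toLT
  Unique.instSubsingleton SemilatticeSup.toPartialOrder IdemCommSemiring.toCommSemiring
  LinearOrderedAddCommMonoidWithTop.toAddCommMonoid

/-!
Colourings; cores avoid the clause vertices and the extra vertex.
-/

namespace Pool.Agent.MP_55bf9a_co.P2

open Finset Tg

variable {n m : ℕ} {K : ℕ → ℕ → Bool → Bool → Prop} {Z : Finset Vx} {σ : Vx → Vx} {s : Vx → Bool}

/-- The basic colouring. -/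
def k0 : Tg → Bool
  | a2 | c2 | f | e1 | e3 | e5 | q2 | q4 | q6 | h2 | h4 | y1 | x2 | y3 _ | x4 _ => true
  | _ => false

/-- Kinds on the chains. -/
def ch : Tg → Bool
  | x1 | y1 | y2 | x2 | y3 _ | x3 _ | x4 _ | y4 _ => true
  | _ => false

/-- The colouring that fails only at the start of the chains of cell `i`. -/
def kap (i : ℕ) (u : Vx) : Bool := xor (k0 u.2) (if ch u.2 then decide (u.1 < i) else decide (u.1 ≤ i))

lemma tab_col : ∀ t t' : Tg, t' ∈ n0 t → t ≠ v → t' ≠ v → k0 t ≠ k0 t' ∧ (ch t = ch t' ∨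
    (t, t') ∈ [(a2, x1), (x1, a2), (c, y3 false), (c, y3 true), (y3 false, c), (y3 true, c)]) := by
  decide +kernel

lemma tab_col1 : ∀ t t' : Tg, (t' ∈ up t → k0 t ≠ k0 t' ∧ ch t = true ∧ ch t' = false) ∧
    (t' ∈ dn t → k0 t ≠ k0 t' ∧ ch t = false ∧ ch t' = true) := by decide +kernel

lemma tab_col2 : ∀ t t' : Tg, (t' ∈ wu t → k0 t = k0 t' ∧ ch t = true ∧ ch t' = false) ∧
    (t' ∈ wd t → k0 t = k0 t' ∧ ch t = false ∧ ch t' = true) := by decide +kernel

lemma tab_col3 : ∀ t t' : Tg, t' ∈ z0 t → k0 t ≠ k0 t' ∧ ch t = false ∧ ch t' = false := by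
  decide +kernel

lemma kap_proper {i : ℕ} (hi : i ≤ n) {u z : Vx} (h : cadj n u z) (hu : u.2 ≠ v) (hz : z.2 ≠ v)
    (e : kap i u = kap i z) : (u = (i, a2) ∧ z = (i, x1)) ∨ (u = (i, x1) ∧ z = (i, a2)) ∨
      (u = (i, c) ∧ (z = (i, y3 false) ∨ z = (i, y3 true))) ∨
      (z = (i, c) ∧ (u = (i, y3 false) ∨ u = (i, y3 true))) := by
  obtain ⟨j, t⟩ := u
  obtain ⟨j', t'⟩ := z
  have b1 := tab_col t t'
  obtain ⟨b2, b3⟩ := tab_col1 t t'
  obtain ⟨b4, b5⟩ := tab_col2 t t'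
  have b6 := tab_col3 t t'
  simp only [cadj, kap] at h e hu hz
  rcases h with ⟨rfl, h⟩ | ⟨rfl, h⟩ | ⟨rfl, h⟩ | ⟨rfl, rfl, h⟩ | ⟨rfl, rfl, h⟩ | ⟨rfl, rfl, h⟩
  · obtain ⟨c1, c2 | c2⟩ := b1 h hu hz
    · rw [c2] at e
      exact (c1 (by simpa using e)).elim
    simp only [List.mem_cons, Prod.mk.injEq, List.not_mem_nil, or_false] at c2
    rcases c2 with ⟨rfl, rfl⟩ | ⟨rfl, rfl⟩ | ⟨rfl, rfl⟩ | ⟨rfl, rfl⟩ | ⟨rfl, rfl⟩ | ⟨rfl, rfl⟩
    all_goals
      obtain rfl : j = i := by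
        simp [k0, ch] at e
        grind
      simp
  · obtain ⟨c1, c2, c3⟩ := b2 h
    simp [c2, c3, c1] at e
  · obtain ⟨c1, c2, c3⟩ := b3 h
    simp [c2, c3, c1] at e
  · obtain ⟨c1, c2, c3⟩ := b4 h
    simp [c2, c3, c1, hi.not_gt] at e
  · obtain ⟨c1, c2, c3⟩ := b5 h
    simp [c2, c3, c1, hi.not_gt] at e
  · obtain ⟨c1, c2, c3⟩ := b6 h
    simp [c2, c3, c1] at e

lemma Ctx.ww (h : Ctx n m K Z σ s) {j : ℕ} (hw : (j, w) ∈ Z) : (σ (j, w)).2 = w := by
  rcases h.adj _ hw with e | e | e | e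
  · simp [cadj, n0, up, dn, wu, wd, z0] at e
  · exact (h.nwp _ (h.mem _ hw) ⟨by rw [h.inv _ hw], by rw [h.inv _ hw]; exact e.2⟩).elim
  · exact e.1
  · exact e.2.1

lemma Ctx.onlyGrid (h : Ctx n m K Z σ s) (hy : ∀ i t, yy t = true → (i, t) ∉ Z) {u : Vx}
    (hu : u ∈ Z) : u.2 ∈ [q1, q2, q3, q4, q5, q6, w] := by
  have ht := h.e0 0 a2 x1 (by decide)
  have hv1 := h.e0 0 v x1 (by decide)
  have hv2 := h.e0 0 v a2 (by decide)
  have b2 : ∀ i, (i, x2) ∉ Z := fun i hu => by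
    have := h.l_x2 i hu
    have := hy i y2 rfl
    grind
  have b3 : ∀ i b, (i, x3 b) ∉ Z := fun i b hu => by
    have := h.l_x3 i b hu
    have := hy i (y3 b) rfl
    have := h.nwp _ hu
    have := h.triW i (x3 b) (x4 b) rfl rfl hu
    have := h.v0 (i := i)
    have := att0 (K := K) (σ := σ) (Z := Z) (s := s) (x3 b) rfl
    have := h.e0 i v (x4 b) (by cases b <;> decide)
    grind
  have b4 : ∀ i b, (i, x4 b) ∉ Z := fun i b hu => by
    have := h.l_x4 i b hu
    have := hy i (y4 b) rfl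
    have := h.nwp _ hu
    have := b3 i b
    have := h.v0 (i := i)
    have := att0 (K := K) (σ := σ) (Z := Z) (s := s) (x4 b) rfl
    grind
  have bt : (0, a2) ∉ Z := fun hu => by
    have := h.l_xt hu
    have := hy 0 c rfl
    have := b2 n
    grind
  have b1 : ∀ i, (i, x1) ∉ Z := fun i hu => by
    have := h.l_x1 i hu
    have := hy i y1 rfl
    have := h.v0 (i := i)
    grind
  have bv : ∀ i, (i, v) ∉ Z := fun i hu => by
    obtain rfl := h.v0 hu
    have := h.l_v hu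
    have := b1 0
    have := b3 0 false
    have := b4 0 false
    grind
  obtain ⟨i, t⟩ := u
  have hv := (h.val _ hu).1
  have := hy i t
  rcases i with _ | i
  · cases t <;> first | (simp; done) | (simp [lo] at hv; done) | grind [yy]
  have := hy (i + 1) c rfl
  have := hy (i + 1) c2 rfl
  have := h.arc1 i
  have := h.arc2 i
  have := h.l_e2 i
  have := h.l_e3 i
  have := h.l_e4 i
  have := h.l_h2 i
  have := h.l_h3 i
  have := h.l_h4 i
  have ba : (i + 1, a) ∉ Z := fun hu => by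
    have := h.l_a i hu
    have := b2 i
    grind
  have ba2 : (i + 1, a2) ∉ Z := fun hu => by
    have := h.l_a2 i hu
    have := b1 (i + 1)
    grind
  have bf : (i + 1, f) ∉ Z := fun hu => by
    have := h.l_f i hu
    have := h.nwp _ hu
    have := h.triW (i + 1) f q1 rfl rfl hu
    grind
  have bg : (i + 1, g) ∉ Z := fun hu => by
    have := h.l_g i hu
    have := h.nwp _ hu
    have := h.triW (i + 1) g q6 rfl rfl hu
    grind
  cases t <;> first | (simp; done) | grind [yy]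

lemma tab_grid : ∀ t ∈ [q1, q2, q3, q4, q5, q6], up t = [] ∧ dn t = [] ∧ wu t = [] ∧ wd t = [] ∧
    z0 t = [] ∧ yy t = false ∧ (lt t = [] ∨ t = q1 ∨ t = q6) ∧ ∀ t' ∈ n0 t, k0 t ≠ k0 t' := by
  decide +kernel

/-- No core contains a clause vertex. -/
lemma Ctx.nw (h : Ctx n m K Z σ s) (hK : ∀ j i, K j i false true → ¬K j i false false) (j : ℕ) :
    (j, w) ∉ Z := by
  classical
  intro hw
  obtain ⟨j', e⟩ : ∃ j', σ (j, w) = (j', w) := ⟨_, Prod.ext rfl (h.ww hw)⟩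
  have hy : ∀ i t, yy t = true → (i, t) ∉ Z := fun i t ht =>
    h.toCr.toM0.tri hw (adjW (Or.inl ht)) (e ▸ adjW (Or.inl ht))
  have hj : ∀ i, (i, w) ∈ Z → (i, w) ≠ (j, w) → i = j' := fun i hi ne => by_contra fun ne' =>
    h.toCr.toM0.tri hw (adjWW fun l => ne (by rw [l])) (e ▸ adjWW (Ne.symm ne')) hi
  let κ : Vx → Bool := fun u => if u.2 = w then true else xor (k0 u.2) (decide (K j' u.1 false false))
  have key : ∀ u ∈ Z, u.2 ≠ w → att K j' u → κ u = false := by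
    rintro ⟨i, t⟩ hu ne l
    have := tab_grid t (by simpa [ne] using h.onlyGrid hy hu)
    have := hK j' i
    obtain ⟨-, -, -, -, -, b1, b2 | rfl | rfl, -⟩ := ‹_ ∧ _› <;> simp_all [att, κ, k0, lt]
  refine h.toCr.bip κ (j, w) ⟨_, hw⟩ ?_
  rintro ⟨i, t⟩ ha ⟨i', t'⟩ hb na nb (l | ⟨rfl, l⟩ | ⟨rfl, l⟩ | ⟨rfl, rfl, l⟩)
  · have n1 := cadj_w l
    have n2 := cadj_w (cadj_symm n l)
    obtain ⟨b1, b2, b3, b4, b5, -, -, b6⟩ := tab_grid t (by simpa [n2] using h.onlyGrid hy ha)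
    simp only [cadj, b1, b2, b3, b4, b5, List.not_mem_nil, and_false, or_false] at l n1 n2
    obtain ⟨rfl, l⟩ := l
    simpa [κ, n1, n2] using b6 t' l
  · have ne : t' ≠ w := fun e => by simp [e, att, yy, lt] at l
    rw [key _ hb ne (hj i ha na ▸ l)]
    simp [κ]
  · have ne : t ≠ w := fun e => by simp [e, att, yy, lt] at l
    rw [key _ ha ne (hj i' hb nb ▸ l)]
    simp [κ]
  · exact (l ((hj i ha na).trans (hj i' hb nb).symm)).elim

lemma cad (hw : ∀ j, (j, w) ∉ Z) {u z : Vx} (hu : u ∈ Z) (hz : z ∈ Z)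
    (e : (gr n K).Adj u z) : cadj n u z := by
  have n1 : u.2 ≠ w := fun l => hw u.1 (l ▸ hu)
  have n2 : z.2 ≠ w := fun l => hw z.1 (l ▸ hz)
  rcases e with e | e | e | e
  exacts [e, (n1 e.1).elim, (n2 e.1).elim, (n1 e.1).elim]

/-- The colouring that fails only on the two edges seen from the extra vertex. -/
def kap' (u : Vx) : Bool := xor (kap 0 u) (decide (u = (0, y3 false) ∨ u = (0, x3 false)))

lemma kap'_proper {u z : Vx} (vu : val n m u) (vz : val n m z) (h : cadj n u z) (hu : u.2 ≠ v)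
    (hz : z.2 ≠ v) (e : kap' u = kap' z) :
    (u = (0, a2) ∧ z = (0, x1)) ∨ (u = (0, x1) ∧ z = (0, a2)) ∨
      (u = (0, x3 false) ∧ z = (0, x4 false)) ∨ (u = (0, x4 false) ∧ z = (0, x3 false)) := by
  have m1 := mem_nl vz h
  have m2 := mem_nl vu (cadj_symm n h)
  by_cases c1 : u = (0, y3 false) ∨ u = (0, x3 false)
  · rcases c1 with rfl | rfl <;> simp [nl, n0, up, wu, wd, z0, lo] at m1
    · rcases m1 with rfl | rfl <;> simp [kap', kap, k0, ch] at e
    · rcases m1 with rfl | rfl | rfl <;> simp [kap', kap, k0, ch] at e hz ⊢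
  by_cases c2 : z = (0, y3 false) ∨ z = (0, x3 false)
  · rcases c2 with rfl | rfl <;> simp [nl, n0, up, wu, wd, z0, lo] at m2
    · rcases m2 with rfl | rfl <;> simp [kap', kap, k0, ch] at e
    · rcases m2 with rfl | rfl | rfl <;> simp [kap', kap, k0, ch] at e hu ⊢
  have := kap_proper (Nat.zero_le n) h hu hz (by simpa [kap', c1, c2] using e)
  have n1 : u ≠ (0, y3 true) := fun l => by simpa [l, lo] using vu.1
  have n2 : z ≠ (0, y3 true) := fun l => by simpa [l, lo] using vz.1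
  grind

/-- No core contains the extra vertex. -/
lemma Ctx.nv (h : Ctx n m K Z σ s) (hw : ∀ j, (j, w) ∉ Z) (i : ℕ) : (i, v) ∉ Z := by
  intro hu
  obtain rfl := h.v0 hu
  have nv : ∀ u ∈ Z, u ≠ (0, v) → u.2 ≠ v := fun u hu ne l =>
    ne (Prod.ext (h.v0 (l ▸ hu)) l)
  have l1 := h.l_v hu
  have := h.e0 0 a2 x1 (by decide)
  have := h.e0 0 v x1 (by decide) hu
  have := h.e0 0 v a2 (by decide) hu
  have := h.e0 0 v (x3 false) (by decide) hu
  have := h.e0 0 v (x4 false) (by decide) hu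
  have := h.e0 0 (x3 false) (x4 false) (by decide)
  have : kap' (0, a2) = false ∧ kap' (0, x1) = false ∧ kap' (0, x3 false) = true ∧
    kap' (0, x4 false) = true := by decide
  refine h.toCr.col kap' hu (fun p hp q hq np nq l e e' => ?_) fun q hq nq nq' e => by_contra fun e' => ?_
  · have := kap'_proper (h.val p hp) (h.val q hq) (cad hw hp hq l) (nv p hp np) (nv q hq nq)
      (e.trans e'.symm)
    grind (splits := 30)
  · have hq' := h.mem q hq
    have := kap'_proper (h.val q hq) (h.val _ hq') (cad hw hq hq' (h.adj q hq)) (nv q hq nq)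
      (nv _ hq' nq') (by
        revert e e'
        cases kap' q <;> cases kap' (σ q) <;> cases kap' (σ (0, v)) <;> simp)
    have := h.inv q hq
    grind (splits := 30)

end Pool.Agent.MP_55bf9a_co.P2

/-!
Nonempty cores of the ladder.
-/

namespace Pool.Agent.MP_55bf9a_co.P2

open Finset Tg

variable {n m : ℕ} {K : ℕ → ℕ → Bool → Bool → Prop} {Z : Finset Vx} {σ : Vx → Vx} {s : Vx → Bool}

/-- A nonempty core without clause vertices and without the extra vertex. -/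
structure Cc (n m : ℕ) (K : ℕ → ℕ → Bool → Bool → Prop) (Z : Finset Vx) (σ : Vx → Vx)
    (s : Vx → Bool) : Prop extends Ctx n m K Z σ s where
  nw : ∀ j, (j, w) ∉ Z
  nv : ∀ j, (j, v) ∉ Z
  ne : Z.Nonempty

lemma Ctx.cc (h : Ctx n m K Z σ s) (hK : ∀ j i, K j i false true → ¬K j i false false)
    (ne : Z.Nonempty) : Cc n m K Z σ s :=
  ⟨h, h.nw hK, h.nv (h.nw hK), ne⟩

lemma Cc.nws (h : Cc n m K Z σ s) (u : Vx) : ¬WS K Z σ s u := fun ⟨j, l, _⟩ => h.nw j l

lemma Cc.segA (h : Cc n m K Z σ s) (i : ℕ) (hu : (i, x1) ∈ Z) :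
    ((i, y1) ∈ Z ∧ (i, y2) ∈ Z ∧ (i, x2) ∈ Z ∧ (i, a2) ∈ Z ∧ R1 n i ∈ Z) ∧
    ((σ (i, x1) = (i, y1) ∧ σ (i, x2) = (i, y2) ∧ σ (i, a2) ≠ (i, x1) ∧ σ (R1 n i) ≠ (i, x2) ∧
      s (i, x1) = s (i, a2) ∧ s (i, x2) = s (i, a2) ∧ s (R1 n i) = s (i, a2) ∧
      s (i, y1) = !s (i, a2) ∧ s (i, y2) = !s (i, a2)) ∨
    (σ (i, a2) = (i, x1) ∧ σ (R1 n i) = (i, x2) ∧ s (i, y1) = !s (i, y2))) := by
  have := h.l_x1 i
  have := h.l_y1 i
  have := h.l_y2 i
  have := h.l_x2 i
  have := h.nv i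
  have := h.nwp (i, y1)
  have := h.nwp (i, y2)
  have := h.nws (i, y1)
  have := h.nws (i, y2)
  have := h.inv (i, a2)
  have := h.inv (R1 n i)
  cases hs : s (i, a2) <;> grind (splits := 60)

lemma Cc.segB (h : Cc n m K Z σ s) (i : ℕ) (b : Bool)
    (hu : (i, y3 b) ∈ Z ∨ (i, x3 b) ∈ Z ∨ (i, x4 b) ∈ Z ∨ (i, y4 b) ∈ Z) :
    ((i, y3 b) ∈ Z ∧ (i, x3 b) ∈ Z ∧ (i, x4 b) ∈ Z ∧ (i, y4 b) ∈ Z ∧ (i, c) ∈ Z ∧ R2 n i ∈ Z) ∧
    ((σ (i, c) ≠ (i, y3 b) ∧ σ (R2 n i) ≠ (i, y4 b) ∧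
      s (i, y3 b) = s (i, c) ∧ s (i, y4 b) = s (i, c) ∧ s (R2 n i) = s (i, c) ∧
      s (i, x3 b) = !s (i, c) ∧ s (i, x4 b) = !s (i, c)) ∨
    (σ (i, c) = (i, y3 b) ∧ σ (R2 n i) = (i, y4 b))) := by
  have := h.l_y3 i b
  have := h.l_x3 i b
  have := h.l_x4 i b
  have := h.l_y4 i b
  have := h.nv i
  have := h.nwp (i, y3 b)
  have := h.nwp (i, x3 b)
  have := h.nwp (i, x4 b)
  have := h.nwp (i, y4 b)
  have := h.nws (i, y3 b)
  have := h.nws (i, x3 b)
  have := h.nws (i, x4 b)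
  have := h.nws (i, y4 b)
  have := h.inv (i, c)
  have := h.inv (R2 n i)
  cases hs : s (i, c) <;> grind (splits := 60)

lemma Cc.tagv (h : Cc n m K Z σ s) {u : Vx} (hu : u ∈ Z) : u.2 ≠ v := fun l => h.nv u.1 (l ▸ hu)

lemma Cc.o1 (h : Cc n m K Z σ s) {i : ℕ} (hi : i ≤ n) : (i, x1) ∈ Z := by
  by_contra hn
  refine h.toCr.bip (kap i) (i, c) h.ne fun p hp q hq np nq l e => ?_
  have := kap_proper hi (cad h.nw hp hq l) (h.tagv hp) (h.tagv hq) e
  grind

lemma Cc.o2 (h : Cc n m K Z σ s) {i : ℕ} (hi : i ≤ n) :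
    (i, y3 false) ∈ Z ∨ (i, y3 true) ∈ Z := by
  by_contra hn
  refine h.toCr.bip (kap i) (i, a2) h.ne fun p hp q hq np nq l e => ?_
  have := kap_proper hi (cad h.nw hp hq l) (h.tagv hp) (h.tagv hq) e
  grind

lemma Cc.ends (h : Cc n m K Z σ s) {i : ℕ} (hi : i ≤ n) :
    (i, a2) ∈ Z ∧ (i, c) ∈ Z ∧ (i < n → (i + 1, a) ∈ Z ∧ (i + 1, c2) ∈ Z) := by
  have := h.segA i (h.o1 hi)
  have := h.o2 hi
  have := h.segB i false
  have := h.segB i true
  unfold R1 R2 at *
  grind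

lemma Cc.grid (h : Cc n m K Z σ s) (i : ℕ) (hu : (i + 1, q1) ∈ Z ∨ (i + 1, q2) ∈ Z ∨
    (i + 1, q3) ∈ Z ∨ (i + 1, q4) ∈ Z ∨ (i + 1, q5) ∈ Z ∨ (i + 1, q6) ∈ Z) :
    (i + 1, q1) ∈ Z ∧ (i + 1, q6) ∈ Z ∧ (i + 1, f) ∈ Z ∧ (i + 1, g) ∈ Z ∧
      (σ (i + 1, q1) = (i + 1, f) ↔ σ (i + 1, q6) = (i + 1, g)) := by
  have := h.l_q1 i
  have := h.l_q2 i
  have := h.l_q3 i
  have := h.l_q4 i
  have := h.l_q5 i
  have := h.l_q6 i
  have := h.gridA i
  have := h.gridB i
  have := h.nwp (i + 1, q1)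
  have := h.nwp (i + 1, q6)
  have := h.nws (i + 1, q1)
  have := h.nws (i + 1, q6)
  grind (splits := 60)

/-- A ladder vertex outside a core does not have two neighbours and all neighbours on one side. -/
lemma Cc.killer (h : Cc n m K Z σ s) {u p q : Vx} {b : Bool} (vu : val n m u) (hu : u ∉ Z)
    (H : ∀ z ∈ Z, (gr n K).Adj u z → s z = b) (hp : p ∈ Z) (hq : q ∈ Z) (ne : p ≠ q)
    (ap : (gr n K).Adj u p) (aq : (gr n K).Adj u q) : u.2 = w ∨ u.2 = v := by
  by_contra hn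
  rw [not_or] at hn
  have mp := (adj_cases (h.val p hp) hn.1 ap).resolve_right fun l => h.nw p.1 (l.1 ▸ hp)
  have mq := (adj_cases (h.val q hq) hn.1 aq).resolve_right fun l => h.nw q.1 (l.1 ▸ hq)
  have sp := H p hp ap
  have sq := H q hq aq
  obtain ⟨i, t⟩ := u
  obtain ⟨v1, v2⟩ := vu
  simp only [hn.1, hn.2, if_false] at v2
  have := h.ends v2
  have := h.segA i (h.o1 v2)
  have := h.o1 v2
  by_cases hc : ∃ b', t = y3 b' ∨ t = x3 b' ∨ t = x4 b' ∨ t = y4 b'
  · obtain ⟨b', hc⟩ := hc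
    have := h.segB i b'
    have := h.nv i
    rcases hc with rfl | rfl | rfl | rfl <;> simp only [nl, ne_eq, decide_not, n0, wu, List.map_nil, up, ite_self, List.append_nil, wd, z0, dn, List.mem_map, List.mem_filter, List.mem_cons, List.not_mem_nil, or_false, Bool.ite_eq_true_distrib, decide_eq_true_eq, Bool.not_eq_eq_eq_not, Bool.not_true, decide_eq_false_iff_not, List.map_cons, List.mem_append, ↓ existsAndEq, reduceCtorEq, not_false_eq_true, if_true_right, true_and] at mp mq <;> grind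
  by_cases hc' : t = x1 ∨ t = y1 ∨ t = y2 ∨ t = x2
  · grind
  rcases i with _ | i
  · cases t <;> first | (simp [lo] at v1; done) | grind
  have := h.ends (i := i) (by omega)
  cases t <;> simp at hc hc' hn <;> simp only [nl, Nat.add_eq_zero_iff, one_ne_zero, and_false, ↓ reduceIte, ne_eq, decide_not, n0, reduceCtorEq, decide_false, Bool.not_false, List.filter_cons_of_pos, List.filter_nil, List.map_cons, List.map_nil, wu, up, ite_self, List.append_nil, add_tsub_cancel_right, dn, List.cons_append, List.nil_append, List.mem_cons, List.not_mem_nil, or_false, decide_true, Bool.not_true, Bool.false_eq_true, not_false_eq_true, List.filter_cons_of_neg] at mp mq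
  · grind
  · have := h.l_a i
    have := h.arc1 i
    have := (H _ · (adj0 (i + 1) (t := f) (t' := a) (by decide)))
    have := (H _ · (adj0 (i + 1) (t := f) (t' := c) (by decide)))
    grind
  · grind
  · have := h.l_e2 i
    grind
  · have := h.l_e1 i
    grind
  · have := h.l_e2 i
    grind
  · have := h.l_e3 i
    grind
  · have := h.l_e4 i
    grind
  · grind
  · have := h.l_a2 i
    have := h.arc2 i
    have := h.l_x1 (i + 1)
    have := (H _ · (adj0 (i + 1) (t := g) (t' := a2) (by decide)))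
    have := (H _ · (adj0 (i + 1) (t := g) (t' := c2) (by decide)))
    grind
  · grind
  · have := h.l_h2 i
    grind
  · have := h.l_h1 i
    grind
  · have := h.l_h2 i
    grind
  · have := h.l_h3 i
    grind
  · have := h.l_h4 i
    grind
  all_goals
    have := h.grid i
    have := h.l_q1 i
    have := h.l_q2 i
    have := h.l_q3 i
    have := h.l_q4 i
    have := h.l_q5 i
    have := h.l_q6 i
    have := h.nwp (i + 1, q1)
    have := h.nwp (i + 1, q6)
    have := h.nws (i + 1, q1)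
    have := h.nws (i + 1, q6)
    cases b <;> grind (splits := 60)

end Pool.Agent.MP_55bf9a_co.P2

/-!
Standard matchings of the ladder; true formulas give perfect graphs.
-/

namespace Pool.Agent.MP_55bf9a_co.P2

open Finset Tg

variable {n m : ℕ} {K : ℕ → ℕ → Bool → Bool → Prop} {Z S U : Finset Vx} {σ : Vx → Vx}
  {s : Vx → Bool}

/-- Kinds in the grid. -/
def gd : Tg → Bool
  | q1 | q2 | q3 | q4 | q5 | q6 => true | _ => false

/-- The standard partner, given the sides of the two literal vertices. -/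
def nu (z b1 b2 : Bool) : Tg → Tg
  | a => if b1 then e5 else f | f => if b1 then c else a
  | c => if z then a2 else if b1 then f else e1
  | e1 => if b1 then e2 else c | e2 => if b1 then e1 else e3 | e3 => if b1 then e4 else e2
  | e4 => if b1 then e3 else e5 | e5 => if b1 then a else e4
  | a2 => if z then c else if b2 then h5 else g | g => if b2 then c2 else a2
  | c2 => if b2 then g else h1
  | h1 => if b2 then h2 else c2 | h2 => if b2 then h1 else h3 | h3 => if b2 then h4 else h2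
  | h4 => if b2 then h3 else h5 | h5 => if b2 then a2 else h4
  | q1 => q2 | q2 => q1 | q3 => q4 | q4 => q3 | q5 => q6 | q6 => q5
  | x1 => y1 | y1 => x1 | y2 => x2 | x2 => y2
  | y3 b => x3 b | x3 b => y3 b | x4 b => y4 b | y4 b => x4 b | w => w | v => v

/-- The standard side. -/
def sd (b1 b2 : Bool) : Tg → Bool
  | a | a2 | x1 | x2 | x3 _ | x4 _ | e2 | h2 => true
  | f | e3 | q1 | q4 | q5 => b1 | e1 | e5 | q2 | q3 | q6 => !b1 | g | h3 => b2 | h1 | h5 => !b2
  | _ => false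

lemma tab_nu : ∀ (z b1 b2 : Bool) (t : Tg), t ≠ w → t ≠ v → (z = true → lo t = 0) →
    nu z b1 b2 (nu z b1 b2 t) = t ∧ gd (nu z b1 b2 t) = gd t ∧
      sd b1 b2 (nu z b1 b2 t) = !sd b1 b2 t ∧
      (nu z b1 b2 t ∈ n0 t ∨ (z = true ∧ nu z b1 b2 t ∈ z0 t)) := by decide +kernel

lemma tab_uq : ∀ (z b1 b2 : Bool) (t : Tg), ∀ t' ∈ n0 t, t ≠ v → t' ≠ v →
    (z = true → lo t = 0 ∧ lo t' = 0) → sd b1 b2 t' = sd b1 b2 t ∨ t' = nu z b1 b2 t ∨
      (t, t') ∈ [(g, q6), (q6, g)] := by decide +kernel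

lemma tab_gd : ∀ t : Tg, ∀ t' ∈ n0 t, gd t' = gd t ∨
    (t, t') ∈ [(f, q1), (q1, f), (g, q6), (q6, g)] := by decide +kernel

lemma tab_x : ∀ t : Tg, ∀ t' ∈ up t ++ dn t ++ wu t ++ wd t, gd t = false ∧ gd t' = false ∧
    ∀ b1 b2 b3 b4, sd b1 b2 t' = sd b3 b4 t := by decide +kernel

lemma tab_z : ∀ t : Tg, ∀ t' ∈ z0 t, gd t = false ∧ gd t' = false ∧
    ∀ b1 b2, t' = nu true b1 b2 t := by decide +kernel

/-- The standard matching outside the grids, extended by a given matching of the grids. -/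
lemma build {σ0 : Vx → Vx} {s0 : Vx → Bool} (b1 b2 : ℕ → Bool)
    (hval : ∀ z ∈ Z, val n m z ∧ z.2 ≠ w ∧ z.2 ≠ v)
    (hmem : ∀ z ∈ Z, gd z.2 = false → (z.1, nu (z.1 == 0) (b1 z.1) (b2 z.1) z.2) ∈ Z)
    (hg : M0 (gr n K) (Z.filter fun z => gd z.2 = true) σ0 s0)
    (h1 : ∀ i, (i, q1) ∈ Z → s0 (i, q1) = b1 i) (h6 : ∀ i, (i, q6) ∈ Z → s0 (i, q6) = b2 i) :
    M0 (gr n K) Z
      (fun z => if gd z.2 = true then σ0 z else (z.1, nu (z.1 == 0) (b1 z.1) (b2 z.1) z.2))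
      (fun z => if gd z.2 = true then s0 z else sd (b1 z.1) (b2 z.1) z.2) := by
  have hl : ∀ z ∈ Z, (z.1 == 0) = true → lo z.2 = 0 := fun z hz e => by
    have := (hval z hz).1.1
    simp at e
    omega
  have tb := fun z hz => tab_nu (z.1 == 0) (b1 z.1) (b2 z.1) z.2 (hval z hz).2.1 (hval z hz).2.2
    (hl z hz)
  have gm : ∀ z ∈ Z, gd z.2 = true → σ0 z ∈ Z ∧ gd (σ0 z).2 = true := fun z hz e =>
    mem_filter.1 (hg.mem z (mem_filter.2 ⟨hz, e⟩))
  refine ⟨fun z hz => ?_, fun z hz => ?_, fun z hz => ?_, fun z hz => ?_, fun z hz z' hz' l => ?_⟩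
  · split_ifs with e
    exacts [(gm z hz e).1, hmem z hz (by simpa using e)]
  · by_cases e : gd z.2 = true
    · simp [e, (gm z hz e).2, hg.inv z (mem_filter.2 ⟨hz, e⟩)]
    · simp [e, (tb z hz).1, (tb z hz).2.1]
  · by_cases e : gd z.2 = true
    · simp [e, (gm z hz e).2, hg.side z (mem_filter.2 ⟨hz, e⟩)]
    · simp [e, (tb z hz).2.1, (tb z hz).2.2.1]
  · split_ifs with e
    · exact hg.adj z (mem_filter.2 ⟨hz, e⟩)
    · rcases (tb z hz).2.2.2 with l | ⟨l, l'⟩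
      · exact adj0 z.1 l
      · have l0 : z.1 = 0 := by simpa using l
        exact Or.inl (Or.inr (Or.inr (Or.inr (Or.inr (Or.inr ⟨l0, l0, l'⟩)))))
  · by_cases e : gd z.2 = true ∧ gd z'.2 = true
    · simpa [e.1, e.2] using hg.uniq z (mem_filter.2 ⟨hz, e.1⟩) z' (mem_filter.2 ⟨hz', e.2⟩) l
    have l1 : cadj n z z' := by
      rcases l with l | l | l | l
      exacts [l, ((hval z hz).2.1 l.1).elim, ((hval z' hz').2.1 l.1).elim,
        ((hval z hz).2.1 l.1).elim]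
    have t1 := tab_uq (z.1 == 0) (b1 z.1) (b2 z.1) z.2 z'.2
    have t2 := tab_gd z.2 z'.2
    have t3 := tab_x z.2 z'.2
    have t4 := tab_z z.2 z'.2
    have a1 := hl z hz
    have a2 := hl z' hz'
    have a3 := (hval z hz).2.2
    have a4 := (hval z' hz').2.2
    obtain ⟨i, t⟩ := z
    obtain ⟨j, t'⟩ := z'
    have c1 := h1 i
    have c6 := h6 i
    simp only [cadj, List.mem_append] at *
    rcases l1 with ⟨rfl, l1⟩ | ⟨-, l1⟩ | ⟨-, l1⟩ | ⟨-, -, l1⟩ | ⟨-, -, l1⟩ | ⟨rfl, rfl, l1⟩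
    · rcases t2 l1 with t2 | t2
      · have e1 : gd t = false := by simpa [t2] using e
        rcases t1 l1 a3 a4 (fun l => ⟨a1 l, a2 l⟩) with t1 | t1 | t1
        · simp [e1, t2, t1]
        · simp [e1, ← t1]
        · simp only [List.mem_cons, Prod.mk.injEq, List.not_mem_nil, or_false] at t1
          rcases t1 with ⟨rfl, rfl⟩ | ⟨rfl, rfl⟩ <;> simp [gd] at t2
      · simp only [List.mem_cons, Prod.mk.injEq, List.not_mem_nil, or_false] at t2
        rcases t2 with ⟨rfl, rfl⟩ | ⟨rfl, rfl⟩ | ⟨rfl, rfl⟩ | ⟨rfl, rfl⟩ <;> simp [gd, sd, *]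
    · obtain ⟨d1, d2, d3⟩ := t3 (by simp [l1])
      simp [d1, d2, d3 _ _ (b1 i) (b2 i)]
    · obtain ⟨d1, d2, d3⟩ := t3 (by simp [l1])
      simp [d1, d2, d3 _ _ (b1 i) (b2 i)]
    · obtain ⟨d1, d2, d3⟩ := t3 (by simp [l1])
      simp [d1, d2, d3 _ _ (b1 i) (b2 i)]
    · obtain ⟨d1, d2, d3⟩ := t3 (by simp [l1])
      simp [d1, d2, d3 _ _ (b1 i) (b2 i)]
    · obtain ⟨d1, d2, d3⟩ := t4 l1
      simp [d1, ← d3]

lemma Cc.segA' (h : Cc n m K Z σ s) {i : ℕ} {t : Tg} (hu : (i, t) ∈ Z) :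
    (i, x1) ∈ Z ∧ (i, y1) ∈ Z ∧ (i, y2) ∈ Z ∧ (i, x2) ∈ Z ∧ (i, a2) ∈ Z ∧ (i, c) ∈ Z := by
  have hi : i ≤ n := by
    have := (h.val _ hu).2
    have n1 : t ≠ w := fun l => h.nw i (l ▸ hu)
    have n2 : t ≠ v := fun l => h.nv i (l ▸ hu)
    simpa [n1, n2] using this
  have := h.segA i (h.o1 hi)
  have := h.o1 hi
  have := h.ends hi
  grind

/-- If the vertices seen from all clauses lie on one side then both cycles are present. -/
lemma Cc.cyc (h : Cc n m K Z σ s) {b : Bool} (hy : ∀ i t, yy t = true → (i, t) ∈ Z → s (i, t) = b)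
    {i : ℕ} (hi : i < n) : ((i + 1, e1) ∈ Z ∧ (i + 1, h1) ∈ Z ∧ (i + 1, f) ∈ Z ∧ (i + 1, g) ∈ Z) ∧
      σ (i + 1, f) ≠ (i + 1, q1) ∧ σ (i + 1, g) ≠ (i + 1, q6) := by
  have := h.segA i (h.o1 hi.le)
  have := h.segA (i + 1) (h.o1 hi)
  have := h.ends hi.le
  have := h.ends (i := i + 1) hi
  have := hy i y1 rfl
  have := hy i y2 rfl
  have := hy (i + 1) y1 rfl
  have := hy (i + 1) y2 rfl
  have := hy (i + 1) c rfl
  have := hy (i + 1) c2 rfl
  have := hy (i + 1) (y3 false) rfl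
  have := hy (i + 1) (y3 true) rfl
  have := hy i (y4 false) rfl
  have := hy i (y4 true) rfl
  have := h.l_a i
  have := h.l_c i
  have := h.l_a2 i
  have := h.l_c2 i
  have := h.nwp (i + 1, c)
  have := h.nwp (i + 1, c2)
  have := h.arc1 i
  have := h.arc2 i
  have := h.l_x2 i
  have := h.e0 (i + 1) f a (by decide)
  have := h.e0 (i + 1) f c (by decide)
  have := h.e0 (i + 1) g a2 (by decide)
  have := h.e0 (i + 1) g c2 (by decide)
  have : R1 n i = (i + 1, a) := if_neg hi.ne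
  cases b <;> grind (splits := 80)

lemma Cc.flip (h : Cc n m K Z σ s) {b : Bool}
    (hy : ∀ i t, yy t = true → (i, t) ∈ Z → s (i, t) = b) (τ : ℕ → Bool) :
    ∃ σ' s', M0 (gr n K) Z σ' s' ∧ s' (0, a2) = true ∧ (∀ i b, s' (i, x3 b) = true) ∧
      ∀ i, s' (i, if τ i then f else g) = true := by
  let fl : ℕ → Bool := fun i => !s (i, if τ i then f else g)
  have hv : ∀ z ∈ Z, val n m z ∧ z.2 ≠ w ∧ z.2 ≠ v := fun z hz =>
    ⟨h.val z hz, fun l => h.nw z.1 (l ▸ hz), h.tagv hz⟩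
  have hi : ∀ i t, (i + 1, t) ∈ Z → i < n := fun i t hz => by
    obtain ⟨b1, b2, b3⟩ := hv _ hz
    simpa [b2, b3] using b1.2
  have h0 : ∀ t, gd t = true → (0, t) ∉ Z := fun t ht hz => by
    have := (hv _ hz).1.1
    cases t <;> simp [gd, lo] at ht this
  have gm : ∀ z ∈ Z, gd z.2 = true → (σ z).1 = z.1 ∧ gd (σ z).2 = true := by
    rintro ⟨_ | i, t⟩ hz e
    · exact (h0 t e hz).elim
    have := h.cyc hy (hi i t hz)
    have := h.nwp _ hz
    have := h.l_q1 i
    have := h.l_q2 i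
    have := h.l_q3 i
    have := h.l_q4 i
    have := h.l_q5 i
    have := h.l_q6 i
    cases t <;> simp [gd] at e <;> grind (splits := 40) [gd]
  refine ⟨_, _, build (n := n) (m := m) (K := K) (σ0 := σ) (s0 := fun z => xor (s z) (fl z.1))
    (fun i => xor (s (i, f)) (fl i)) (fun i => xor (s (i, g)) (fl i)) hv ?_ ⟨?_, ?_, ?_, ?_, ?_⟩
    ?_ ?_, by simp [gd, sd], by simp [gd, sd], fun i => ?_⟩
  · rintro ⟨i, t⟩ hz e
    have := h.segA' hz
    have := h.segB i false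
    have := h.segB i true
    by_cases hc : ∃ b', t = y3 b' ∨ t = x3 b' ∨ t = x4 b' ∨ t = y4 b'
    · obtain ⟨b', hc⟩ := hc
      have := h.segB i b'
      rcases hc with rfl | rfl | rfl | rfl <;> simp [nu] <;> grind
    rcases i with _ | i
    · have := (hv _ hz).1.1
      have := (hv _ hz).2
      cases t <;> simp only [ne_eq, Prod.forall, reduceCtorEq, or_self, exists_const, not_false_eq_true, lo, nonpos_iff_eq_zero, one_ne_zero, Std.le_refl, and_self, nu, BEq.rfl, ↓ reduceIte, y3.injEq, or_false, exists_eq', not_true_eq_false, x3.injEq, false_or, x4.injEq, y4.injEq, and_true, and_false] at * <;> grind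
    have := h.cyc hy (hi i t hz)
    have := h.arc1 i
    have := h.arc2 i
    have := (hv _ hz).2
    generalize xor (s (i + 1, f)) (fl (i + 1)) = b1
    generalize xor (s (i + 1, g)) (fl (i + 1)) = b2
    cases t <;> simp [gd] at e hc <;> cases b1 <;> cases b2 <;> simp [nu] <;> grind
  · exact fun z hz => mem_filter.2 ⟨h.mem z (mem_filter.1 hz).1,
      (gm z (mem_filter.1 hz).1 (mem_filter.1 hz).2).2⟩
  · exact fun z hz => h.inv z (mem_filter.1 hz).1
  · intro z hz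
    simp [h.side z (mem_filter.1 hz).1, (gm z (mem_filter.1 hz).1 (mem_filter.1 hz).2).1]
  · exact fun z hz => h.adj z (mem_filter.1 hz).1
  · intro z hz z' hz' l
    obtain ⟨b1, b2⟩ := mem_filter.1 hz
    obtain ⟨b3, b4⟩ := mem_filter.1 hz'
    refine (h.uniq z b1 z' b3 l).imp_left fun e => ?_
    have l1 := cad h.nw b1 b3 l
    have t3 := tab_x z.2 z'.2
    have t4 := tab_z z.2 z'.2
    have : z.1 = z'.1 := by
      simp only [cadj, List.mem_append] at l1 t3
      grind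
    simp [e, this]
  · rintro (_ | i) hz
    · exact (h0 _ rfl hz).elim
    have := h.cyc hy (hi i _ hz)
    have := h.e0 (i + 1) f q1 (by decide)
    grind
  · rintro (_ | i) hz
    · exact (h0 _ rfl hz).elim
    have := h.cyc hy (hi i _ hz)
    have := h.e0 (i + 1) g q6 (by decide)
    grind
  · cases e : τ i <;> simp [gd, sd, fl, e]

/-- The truth of the quantified formula. -/
def Tr (n m : ℕ) (K : ℕ → ℕ → Bool → Bool → Prop) : Prop :=
  ∀ y : ℕ → Bool, ∃ τ : ℕ → Bool, ∀ j < m, ∃ i < n,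
    K j (i + 1) true (y (i + 1)) ∨ K j (i + 1) false (τ (i + 1))

theorem perf_of_tr (hn : n ≠ 0) (hK : ∀ j i, K j i false true → ¬K j i false false)
    (hU : ∀ z ∈ U, val n m z) (ht : Tr n m K) : Perf (gr n K) U := by
  classical
  refine perf_of fun S hS k Z σ s h hZ hN hk => ?_
  have kill : ∀ σ s, M0 (gr n K) Z σ s → ∀ b, (∃ D, irr (gr n K) S D ∧ dom (gr n K) S D ∧
      k ≤ D.card) ∨ (Cc n m K Z σ s ∧ ∃ u ∈ S, (u.2 = w ∨ u.2 = v) ∧ (∃ p ∈ Z, (gr n K).Adj u p) ∧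
        ∀ z ∈ Z, (gr n K).Adj u z → s z = !b) := by
    intro σ s h b
    by_cases c : dom (gr n K) S (Z.filter fun z => s z = b)
    · have := h.card_half b
      exact Or.inl ⟨_, h.irr_side hZ b, c, by omega⟩
    unfold dom at c
    push Not at c
    obtain ⟨u, hu, c⟩ := c
    obtain ⟨b1, p, hp, q, hq, ne, ap, aq⟩ := h.two hZ hN hk hu (b := b)
      fun z hz e => c z (mem_filter.2 ⟨hz, e⟩)
    have hc : Cc n m K Z σ s :=
      Ctx.cc ⟨h.cr hZ hN hk, fun z hz => hU z (hS (hZ hz)), hn⟩ hK ⟨p, hp⟩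
    have H : ∀ z ∈ Z, (gr n K).Adj u z → s z = !b := fun z hz l => by
      have : s z ≠ b := fun e => c z (mem_filter.2 ⟨hz, e⟩) (Or.inr l.symm)
      revert this
      cases s z <;> cases b <;> simp
    exact Or.inr ⟨hc, u, hu, hc.killer (hU u (hS hu)) b1 H hp hq ne ap aq, ⟨p, hp, ap⟩, H⟩
  rcases kill σ s h.toM0 true with c | ⟨hc, u1, hu1, a1, ⟨p, hp, ap⟩, a2⟩
  · exact c
  rcases kill σ s h.toM0 false with c | ⟨-, u2, hu2, a3, -, a4⟩
  · exact c
  obtain ⟨b, hy⟩ : ∃ b, ∀ i t, yy t = true → (i, t) ∈ Z → s (i, t) = b := by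
    have key : ∀ (u : Vx) b, u.2 = w → (∀ z ∈ Z, (gr n K).Adj u z → s z = b) →
        ∀ i t, yy t = true → (i, t) ∈ Z → s (i, t) = b := by
      rintro ⟨j, _⟩ b rfl H i t ht hz
      exact H _ hz (adjW (Or.inl ht))
    rcases a1 with a1 | a1
    · exact ⟨_, key u1 _ a1 a2⟩
    rcases a3 with a3 | a3
    · exact ⟨_, key u2 _ a3 a4⟩
    have e : u1 = u2 := by
      have v1 := (hU u1 (hS hu1)).2
      have v2 := (hU u2 (hS hu2)).2
      simp [a1, a3] at v1 v2
      exact Prod.ext (v1.trans v2.symm) (a1.trans a3.symm)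
    have := (a2 p hp ap).symm.trans (a4 p hp (e ▸ ap))
    simp at this
  obtain ⟨τ, hτ⟩ := ht fun i => decide ((i, y3 true) ∈ Z)
  obtain ⟨σ', s', h', d1, d2, d3⟩ := hc.flip hy τ
  rcases kill σ' s' h' true with c | ⟨-, ⟨j, t⟩, hu, a5, -, a6⟩
  · exact c
  exfalso
  have vu := (hU _ (hS hu)).2
  rcases a5 with rfl | rfl
  · obtain ⟨i, hi, l | l⟩ := hτ j (by simpa using vu)
    · have := hc.o2 (i := i + 1) hi
      have := hc.segB (i + 1) false
      have := hc.segB (i + 1) true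
      have e := a6 (i + 1, x3 (decide ((i + 1, y3 true) ∈ Z)))
        (by by_cases c : (i + 1, y3 true) ∈ Z <;> simp only [c, decide_true, decide_false] <;> grind)
        (adjW (Or.inr ⟨by simp, by simpa [lt] using l⟩))
      simp [d2] at e
    · have := hc.cyc hy hi
      have e := a6 (i + 1, if τ (i + 1) then f else g) (by grind)
        (adjW (Or.inr ⟨by simp, by revert l; cases τ (i + 1) <;> simp [lt]⟩))
      simp [d3] at e
  · obtain rfl : j = 0 := by simpa using vu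
    have e := a6 _ (hc.ends (Nat.zero_le n)).1 (adj0 0 (by decide))
    simp [d1] at e

end Pool.Agent.MP_55bf9a_co.P2
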